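import Pool.Agent.Q237.LR.DIM
import Pool.Agent.Q182.LR.SP1
import Pool.Agent.Q154.LR.SP2
import Pool.Agent.Q222.LR.GAD
import Pool.Agent.Q109.LR.UNQ
import Pool.Agent.Q18.LR.SHG
import Pool.Agent.Q190.LR5.STG
import Pool.Agent.Q256.LR.EXI
import Pool.Agent.Q68.LR.GBD
import Pool.Agent.Q186.LR.PW4
import Pool.Agent.Q129.LR.CNV

/-!
# Project LR: assembly of the lemmas of the third theorem
-/

set_option autoImplicit false

namespace Pool.Agent.Q237.LR5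

theorem cnvAll : S_CNV := Pool.Agent.Q129.LR5.cnv Pool.Agent.Q109.LR5.unq

theorem avgAll : Pool.Agent.Q237.LR2.S_AVG :=
  Pool.Agent.Q71.LR.avg Pool.Agent.Q237.LR2.msr'
    (Pool.Agent.Q190.LR2.ba Pool.Agent.Q237.LR2.msr')
    (Pool.Agent.Q190.LR2.bb Pool.Agent.Q237.LR2.msr')
    (Pool.Agent.Q187.LR.bc Pool.Agent.Q237.LR2.msr' Pool.Agent.Q68.LR.mat)

theorem noe2All : Pool.Agent.Q237.LR2.S_NOE2 := Pool.Agent.Q237.LR2.noe2A Pool.Agent.Q71.LR.avg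

theorem dimAll : S_DIM :=
  dim Pool.Agent.Q109.LR5.unq cnvAll
    (Pool.Agent.Q190.LR5.stg (Pool.Agent.Q18.LR5.shg Pool.Agent.Q109.LR5.unq cnvAll)
      Pool.Agent.Q237.LR2.msr') (Pool.Agent.Q68.LR5.gbd avgAll)
    Pool.Agent.Q186.LR5.pw4 Pool.Agent.Q182.LR5.sp1 Pool.Agent.Q154.LR5.sp2

theorem exiAll : S_EXI := Pool.Agent.Q256.LR.exi cnvAll

theorem gadAll : S_GAD := Pool.Agent.Q222.LR5.gad

end Pool.Agent.Q237.LR5
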