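import Pool.Agent.Q237.LR.NOE2
import Pool.Agent.Q277.LR.MSR
import Pool.Agent.Q190.LR.BAB
import Pool.Agent.Q68.LR.MAT
import Pool.Agent.Q187.LR.BC
import Pool.Agent.Q142.LR.TRI
import Pool.Agent.Q139.LR.EIG
import Pool.Agent.Q142.LR.LNG
import Pool.Agent.Q71.LR.MRK
import Pool.Agent.Q208.LR.STA

/-!
# Project LR: assembly of the second theorem
-/

set_option autoImplicit false

namespace Pool.Agent.Q237.LR2

theorem msr' : S_MSR := Pool.Agent.Q277.LR2.msr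

theorem noe2A (h : S_MSR → S_BA → S_BB → S_BC → S_AVG) : S_NOE2 :=
  noe2 (h msr' (Pool.Agent.Q190.LR2.ba msr') (Pool.Agent.Q190.LR2.bb msr')
      (Pool.Agent.Q187.LR.bc msr' Pool.Agent.Q68.LR.mat))
    (Pool.Agent.Q71.LR.mrk (Pool.Agent.Q139.LR.eig Pool.Agent.Q142.LR.tri) msr')
    Pool.Agent.Q142.LR.lng Pool.Agent.Q208.LR.sta

end Pool.Agent.Q237.LR2
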