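import Pool.Agent.Q237.LR.Push

/-!
# Project LR: a simple form of the condition `Boxes`
-/

set_option autoImplicit false

namespace Pool.Agent.Q237.LR4

open MeasureTheory ProbabilityTheory Set H10PL Pool.Agent.Q237.LR3

variable {d : ℕ}

/-- in some large finite sets most pairs have comparable amplitudes -/
def Dense (κ : (Fin d → ℤ) → ℝ) : Prop :=
  ∀ δ : ℝ, 0 < δ → ∃ B : ℝ, ∀ M : ℝ, ∃ (Q : Finset (Fin d → ℤ)) (β : ℝ), 0 < β ∧
    M ≤ Q.card ∧ M ≤ β * Q.card ∧ ∀ x ∈ Q,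
      ((Q.filter fun y => ¬ (β ≤ |κ (x - y)| ∧ |κ (x - y)| ≤ B * β)).card : ℝ) ≤ δ * Q.card

theorem boxes_of_dense {κ : (Fin d → ℤ) → ℝ} (h : Dense κ) : Pool.Agent.Q237.LR2.Boxes κ := by
  classical
  intro δ hδ
  obtain ⟨B, hB⟩ := h δ hδ
  refine ⟨B, fun M => ?_⟩
  obtain ⟨Q, β, hβ, h1, h2, h3⟩ := hB (max M 1)
  refine ⟨Q, β, fun x => (Q.erase x).filter fun y => ¬ (β ≤ |κ (x - y)| ∧ |κ (x - y)| ≤ B * β),
    fun x => (Q.erase x).filter fun y => (β ≤ |κ (x - y)| ∧ |κ (x - y)| ≤ B * β), hβ, ?_,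
    (le_max_left _ _).trans h1, (le_max_left _ _).trans h2, fun x hx => ⟨?_, ?_, ?_, ?_, ?_, ?_, ?_⟩⟩
  · by_contra hQ
    rw [Finset.not_nonempty_iff_eq_empty] at hQ
    rw [hQ, Finset.card_empty, Nat.cast_zero] at h1
    linarith [le_max_right M 1]
  · exact (Finset.filter_subset _ _).trans (Finset.erase_subset _ _)
  · exact (Finset.filter_subset _ _).trans (Finset.erase_subset _ _)
  · simp
  · simp
  · intro y hy
    rw [Finset.mem_union, Finset.mem_filter, Finset.mem_filter]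
    by_cases hP : β ≤ |κ (x - y)| ∧ |κ (x - y)| ≤ B * β
    · exact Or.inr ⟨hy, hP⟩
    · exact Or.inl ⟨hy, hP⟩
  · refine le_trans ?_ (h3 x hx)
    exact_mod_cast Finset.card_le_card (Finset.filter_subset_filter _ (Finset.erase_subset _ _))
  · intro y hy
    exact (Finset.mem_filter.1 hy).2

theorem dense_of_boxes {κ : (Fin d → ℤ) → ℝ} (h : Pool.Agent.Q237.LR2.Boxes κ) : Dense κ := by
  classical
  intro δ hδ
  obtain ⟨B, hB⟩ := h (δ / 2) (by positivity)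
  refine ⟨B, fun M => ?_⟩
  obtain ⟨Q, β, N, F, hβ, hQn, h1, h2, h3⟩ := hB (max M (2 / δ))
  refine ⟨Q, β, hβ, (le_max_left _ _).trans h1, (le_max_left _ _).trans h2, fun x hx => ?_⟩
  obtain ⟨a1, a2, a3, a4, a5, a6, a7⟩ := h3 x hx
  have hsub : (Q.filter fun y => ¬ (β ≤ |κ (x - y)| ∧ |κ (x - y)| ≤ B * β)) ⊆ insert x (N x) := by
    intro y hy
    obtain ⟨hyQ, hyP⟩ := Finset.mem_filter.1 hy
    by_cases hyx : y = x
    · exact Finset.mem_insert.2 (Or.inl hyx)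
    · have h4 := a5 (Finset.mem_erase.2 ⟨hyx, hyQ⟩)
      rcases Finset.mem_union.1 h4 with h5 | h5
      · exact Finset.mem_insert.2 (Or.inr h5)
      · exact absurd (a7 y h5) hyP
  have h5 : ((Q.filter fun y => ¬ (β ≤ |κ (x - y)| ∧ |κ (x - y)| ≤ B * β)).card : ℝ) ≤
      (N x).card + 1 := by
    exact_mod_cast (Finset.card_le_card hsub).trans (Finset.card_insert_le _ _)
  have h6 : 2 / δ ≤ Q.card := (le_max_right _ _).trans h1
  rw [div_le_iff₀ hδ] at h6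
  linarith

end Pool.Agent.Q237.LR4
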