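import Pool.Agent.Q237.LR.INF

/-!
NOE: almost surely there are no eigenvalues.
-/

set_option autoImplicit false

namespace Pool.Agent.Q237.LR

open MeasureTheory ProbabilityTheory Set H10PL

variable {d : ℕ} {T0 : (Fin d → ℤ) → (Fin d → ℤ) → ℝ} {κ : (Fin d → ℤ) → ℝ} {ρ0 b B : ℝ}
  {v : NNReal}

/-- resampling the potential at `x`, with the energy -/
theorem mpA (v : NNReal) (x : Fin d → ℤ) :
    MeasurePreserving (fun z : (((Fin d → ℤ) → ℝ) × (Sym2 (Fin d → ℤ) → Bool)) × (ℝ × ℝ) =>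
        (z.2.1, Function.update z.1.1 x z.2.2, z.1.2))
      (((PV d v).prod (Ps d)).prod ((volume : Measure ℝ).prod (gaussianReal 0 v)))
      ((volume : Measure ℝ).prod ((PV d v).prod (Ps d))) := by
  have h1 : MeasurePreserving
      (Prod.swap : (((Fin d → ℤ) → ℝ) × (Sym2 (Fin d → ℤ) → Bool)) × (ℝ × ℝ) → _)
      (((PV d v).prod (Ps d)).prod ((volume : Measure ℝ).prod (gaussianReal 0 v)))
      (((volume : Measure ℝ).prod (gaussianReal 0 v)).prod ((PV d v).prod (Ps d))) :=
    Measure.measurePreserving_swap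
  have h2 := measurePreserving_prodAssoc (volume : Measure ℝ) (gaussianReal 0 v)
    ((PV d v).prod (Ps d))
  have h3 := (measurePreserving_prodAssoc (gaussianReal 0 v) (PV d v) (Ps d)).symm
  have h4 : MeasurePreserving (Prod.map (Prod.swap : ℝ × ((Fin d → ℤ) → ℝ) → _)
      (id : (Sym2 (Fin d → ℤ) → Bool) → _)) (((gaussianReal 0 v).prod (PV d v)).prod (Ps d))
      (((PV d v).prod (gaussianReal 0 v)).prod (Ps d)) :=
    Measure.measurePreserving_swap.prod (MeasurePreserving.id _)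
  have h5 := (update_mp v x).prod (MeasurePreserving.id (Ps d))
  have h6 := (MeasurePreserving.id (volume : Measure ℝ)).prod ((h5.comp h4).comp h3)
  exact (h6.comp h2).comp h1

/-- resampling the potential at `x` -/
theorem mpB (v : NNReal) (x : Fin d → ℤ) :
    MeasurePreserving (fun z : (((Fin d → ℤ) → ℝ) × (Sym2 (Fin d → ℤ) → Bool)) × ℝ =>
        (Function.update z.1.1 x z.2, z.1.2))
      (((PV d v).prod (Ps d)).prod (gaussianReal 0 v)) ((PV d v).prod (Ps d)) := by
  have h1 := measurePreserving_prodAssoc (PV d v) (Ps d) (gaussianReal 0 v)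
  have h2 : MeasurePreserving (Prod.map (id : ((Fin d → ℤ) → ℝ) → _)
      (Prod.swap : (Sym2 (Fin d → ℤ) → Bool) × ℝ → _)) ((PV d v).prod ((Ps d).prod (gaussianReal 0 v)))
      ((PV d v).prod ((gaussianReal 0 v).prod (Ps d))) :=
    (MeasurePreserving.id _).prod Measure.measurePreserving_swap
  have h3 := (measurePreserving_prodAssoc (PV d v) (gaussianReal 0 v) (Ps d)).symm
  have h4 := (update_mp v x).prod (MeasurePreserving.id (Ps d))
  exact ((h4.comp h3).comp h2).comp h1

/-- for almost no energy there is a value of the potential at `x` with an eigenvector not vanishing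
at `x` -/
theorem ae_energy (h : Adm T0 κ ρ0 b) (hv : v ≠ 0) (hS : Many κ B) (x : Fin d → ℤ) :
    ∀ᵐ q ∂((PV d v).prod (Ps d)), ∀ᵐ E : ℝ, ¬ ∃ t ψ,
      IsEig T0 κ q.2 (Function.update q.1 x t) E ψ ∧ ψ x ≠ 0 := by
  have h1 := inf d T0 κ ρ0 b B v h hv hS x
  have h2 := (mpA v x).quasiMeasurePreserving.ae h1
  have h3 := Measure.ae_ae_of_ae_prod h2
  filter_upwards [h3] with q hq
  have h4 := Measure.ae_ae_of_ae_prod hq
  filter_upwards [h4] with E hE
  have hna : NoAtoms (gaussianReal 0 v) := noAtoms_gaussianReal hv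
  obtain ⟨t1, ht1⟩ := hE.exists
  have h5 : ∀ᵐ t ∂(gaussianReal 0 v), t ≠ t1 := by
    rw [ae_iff]
    simp only [ne_eq, not_not, setOf_eq_eq_singleton]
    exact hna.measure_singleton t1
  obtain ⟨t2, ht2, hne⟩ := (hE.and h5).exists
  rintro ⟨t, ψ, hψ, hx⟩
  have e1 : t = t1 := by
    have := kill h q.2 (Function.update q.1 x t1) E x ht1 t ψ
      (by rw [Function.update_idem]; exact hψ) hx
    rwa [Function.update_self] at this
  have e2 : t = t2 := by
    have := kill h q.2 (Function.update q.1 x t2) E x ht2 t ψ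
      (by rw [Function.update_idem]; exact hψ) hx
    rwa [Function.update_self] at this
  exact hne (e2.symm.trans e1)

theorem noe (hC : S_CUT) (hM : S_MEA) : S_NOE := by
  intro d T0 κ ρ0 b B θ v h hv hθ hθ2 hsum hS
  have hcut : ∀ᵐ q ∂((PV d v).prod (Ps d)), CutOK T0 κ q.2 :=
    Measure.quasiMeasurePreserving_snd.ae (hC d T0 κ ρ0 b θ h hθ hθ2 hsum)
  have hx : ∀ x : Fin d → ℤ, ∀ᵐ q ∂((PV d v).prod (Ps d)),
      ¬ ∃ (E : ℝ) (ψ : (Fin d → ℤ) → ℝ), IsEig T0 κ q.2 q.1 E ψ ∧ ψ x ≠ 0 := by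
    intro x
    have hZ := hM d T0 κ ρ0 b h x
    have h1 : ∀ᵐ q ∂((PV d v).prod (Ps d)), ∀ᵐ t ∂(gaussianReal 0 v),
        ¬ ∃ (E : ℝ) (ψ : (Fin d → ℤ) → ℝ),
          IsEig T0 κ q.2 (Function.update q.1 x t) E ψ ∧ ψ x ≠ 0 := by
      filter_upwards [hcut, ae_energy h hv hS x] with q hq1 hq2
      exact (gaussianReal_absolutelyContinuous 0 hv).ae_le (null_slice h q.2 hq1 q.1 x hq2)
    rw [ae_iff]
    simp only [not_not]
    rw [← (mpB v x).measure_preimage hZ.nullMeasurableSet,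
      Measure.measure_prod_null ((mpB v x).measurable hZ)]
    filter_upwards [h1] with q hq
    rw [ae_iff] at hq
    simp only [not_not] at hq
    exact hq
  filter_upwards [ae_all_iff.2 hx] with q hq E ψ hψ
  funext x
  by_contra hne
  exact hq x ⟨E, ψ, hψ, hne⟩

end Pool.Agent.Q237.LR
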