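import Pool.Agent.Q211.LR.NCK
import Pool.Agent.Q121.LR.SGN
import Pool.Agent.Q277.LR.SGF
import Pool.Agent.Q162.LR.ANT
import Pool.Agent.Q182.LR.PRB
import Pool.Agent.Q96.LR.COM
import Pool.Agent.Q190.LR.LC
import Pool.Agent.Q277.LR.CUT
import Pool.Agent.Q124.LR.MEA
import Pool.Agent.Q123.LR.Row
import Pool.Agent.Q237.LR.NOE

/-!
# Project LR: assembly of the lemmas
-/

set_option autoImplicit false

namespace Pool.Agent.Q237.LR

theorem cut : S_CUT :=
  Pool.Agent.Q277.LR.t_CUT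
    (Pool.Agent.Q96.LR.com
      (Pool.Agent.Q162.LR.ant
        (Pool.Agent.Q277.LR.t_SGF (Pool.Agent.Q121.LR.sgn Pool.Agent.Q211.LR.nck0)))
      Pool.Agent.Q182.LR.prb)
    Pool.Agent.Q190.LR.lim Pool.Agent.Q190.LR.chi Pool.Agent.Q123.LR.row

theorem noeAll : S_NOE := noe cut Pool.Agent.Q124.LR.mea

end Pool.Agent.Q237.LR
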