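import Pool.Agent.Q237.LR.Stm5

/-!
# Project LR: assembly of the third theorem (local dimension of the spectral measures)
-/

set_option autoImplicit false

namespace Pool.Agent.Q237.LR5

open MeasureTheory ProbabilityTheory Set Filter Topology H10PL Pool.Agent.Q237.LR2
  Pool.Agent.Q237.LR3 Pool.Agent.Q237.LR4

variable {d : ℕ} {T0 : (Fin d → ℤ) → (Fin d → ℤ) → ℝ} {ρ0 b : ℝ}

theorem gs_meas (κ : (Fin d → ℤ) → ℝ) (η : ℝ) (x : Fin d → ℤ) : Measurable (gs T0 κ η x) := by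
  unfold gs
  refine Measurable.liminf fun n => ?_
  exact (msr' d T0 κ n η (bx d n) x x).1.ennreal_ofReal

/-- the cut-off function -/
noncomputable def ph (h : ℝ) (t : ENNReal) : ENNReal := if ENNReal.ofReal h < t then t else 0

theorem ph_meas (h : ℝ) : Measurable (ph h) := by
  unfold ph
  exact Measurable.ite (measurableSet_lt measurable_const measurable_id) measurable_id
    measurable_const

theorem ph_gs (κ : (Fin d → ℤ) → ℝ) (η h : ℝ) (x : Fin d → ℤ) (m : Measure (Pt d)) :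
    ∫⁻ p in {p | ENNReal.ofReal h < gs T0 κ η x p}, gs T0 κ η x p ∂m =
      ∫⁻ p, ph h (gs T0 κ η x p) ∂m := by
  have hS : MeasurableSet {p | ENNReal.ofReal h < gs T0 κ η x p} :=
    measurableSet_lt measurable_const (gs_meas κ η x)
  rw [← lintegral_indicator hS]
  refine lintegral_congr fun p => ?_
  unfold ph
  simp only [Set.indicator, mem_setOf_eq]

/-- the bound at one site -/
theorem one_site (hSTG : S_STG) (hGBD : S_GBD) (hPW : S_PW4) {α e D : ℝ} (μ : Measure ℝ)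
    (hμp : IsProbabilityMeasure μ) (hD : 0 ≤ D) (hμ : μ ≤ ENNReal.ofReal D • volume)
    (h : Adm T0 (pw d α e) ρ0 b) (hinv : ∀ a y w, T0 (y + a) (w + a) = T0 y w)
    (hcut : ∀ᵐ s ∂(Ps d), CutOK T0 (pw d α e) s) (hd : 1 ≤ d) (h1 : (d : ℝ) / 2 < α)
    (h2 : α < d) (he : e ≠ 0) {θ K : ℝ} (hθ : 0 < θ) (hθ2 : θ < 2 - 2 * α / d) (hK : 0 < K) :
    ∃ C ε η0 : ℝ, 0 < C ∧ 0 < ε ∧ 0 < η0 ∧ η0 ≤ 1 ∧ ∀ (η : ℝ) (x : Fin d → ℤ), 0 < η → η ≤ η0 →
      ∫⁻ p, ph (η ^ (θ - 1) / 5) (gs T0 (pw d α e) η x p) ∂(mE d μ K) ≤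
        ENNReal.ofReal (C * η ^ ε) := by
  obtain ⟨C, ε, η0, hC, hε, hη0, hη01, H⟩ := hPW d α e θ K D hd h1 h2 he hθ hθ2 hK hD
  refine ⟨C, ε, η0, hC, hε, hη0, hη01, fun η x hη hηη => ?_⟩
  obtain ⟨Q, β, B, q, n0, N, F, hQ, hβ, hq, h4, h8, hNF, hle⟩ := H η hη hηη
  have hh : 0 < η ^ (θ - 1) / 5 := by positivity
  have hh2 : 1 / (η ^ (θ - 1) / 5) ≤ 5 * η ^ (-θ) * η := by
    have e1 : (5 : ℝ) * η ^ (-θ) * η = 5 * η ^ (1 - θ) := by
      rw [mul_assoc]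
      congr 1
      rw [show (1 : ℝ) - θ = -θ + 1 by ring, Real.rpow_add hη, Real.rpow_one]
    have e2 : 1 / (η ^ (θ - 1) / 5) = 5 * η ^ (1 - θ) := by
      rw [show (1 : ℝ) - θ = -(θ - 1) by ring, Real.rpow_neg hη.le]
      field_simp
    rw [e1, e2]
  have key := hGBD d T0 (pw d α e) ρ0 b η Q μ D K β B (5 * η ^ (-θ)) q n0 (η ^ (θ - 1) / 5) N F
    hμp hD hμ h hη hK hq hβ h4 h8 hh hh2 hNF
  have key2 := key.trans (ENNReal.ofReal_le_ofReal hle)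
  have e3 : ∀ y ∈ Q, ∫⁻ p in {p | ENNReal.ofReal (η ^ (θ - 1) / 5) < gs T0 (pw d α e) η y p},
      gs T0 (pw d α e) η y p ∂(mE d μ K) =
      ∫⁻ p, ph (η ^ (θ - 1) / 5) (gs T0 (pw d α e) η x p) ∂(mE d μ K) := by
    intro y _
    rw [ph_gs, hSTG d T0 (pw d α e) ρ0 b μ K η y _ hμp h hinv hcut hη (ph_meas _),
      ← hSTG d T0 (pw d α e) ρ0 b μ K η x _ hμp h hinv hcut hη (ph_meas _)]
  rw [Finset.sum_congr rfl e3, Finset.sum_const, nsmul_eq_mul,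
    ENNReal.ofReal_mul (Nat.cast_nonneg _), ENNReal.ofReal_natCast] at key2
  have hc0 : (Q.card : ENNReal) ≠ 0 := by exact_mod_cast hQ.card_pos.ne'
  exact (ENNReal.mul_le_mul_iff_right hc0 (ENNReal.natCast_ne_top _)).1 key2

/-- the energy integral for fixed disorder -/
noncomputable def XX (T0 : (Fin d → ℤ) → (Fin d → ℤ) → ℝ) (κ : (Fin d → ℤ) → ℝ) (θ K η : ℝ)
    (x : Fin d → ℤ) (q : ((Fin d → ℤ) → ℝ) × (Sym2 (Fin d → ℤ) → Bool)) : ENNReal :=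
  ∫⁻ E in Icc (-K) K, ph (η ^ (θ - 1) / 5) (gs T0 κ η x (E, q))

theorem XX_int (κ : (Fin d → ℤ) → ℝ) (θ K η : ℝ) (x : Fin d → ℤ) (μ : Measure ℝ)
    [IsProbabilityMeasure μ] :
    Measurable (XX T0 κ θ K η x) ∧
    ∫⁻ q, XX T0 κ θ K η x q ∂((PVg d μ).prod (Ps d)) =
      ∫⁻ p, ph (η ^ (θ - 1) / 5) (gs T0 κ η x p) ∂(mE d μ K) := by
  have hm : Measurable fun p : Pt d => ph (η ^ (θ - 1) / 5) (gs T0 κ η x p) :=
    (ph_meas _).comp (gs_meas κ η x)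
  constructor
  · unfold XX
    exact Measurable.lintegral_prod_left' (μ := volume.restrict (Icc (-K) K)) hm
  · unfold XX mE
    rw [lintegral_prod_symm' _ hm]

/-- almost sure summability -/
theorem summ (hSTG : S_STG) (hGBD : S_GBD) (hPW : S_PW4) {α e D : ℝ} (μ : Measure ℝ)
    (hμp : IsProbabilityMeasure μ) (hD : 0 ≤ D) (hμ : μ ≤ ENNReal.ofReal D • volume)
    (h : Adm T0 (pw d α e) ρ0 b) (hinv : ∀ a y w, T0 (y + a) (w + a) = T0 y w)
    (hcut : ∀ᵐ s ∂(Ps d), CutOK T0 (pw d α e) s) (hd : 1 ≤ d) (h1 : (d : ℝ) / 2 < α)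
    (h2 : α < d) (he : e ≠ 0) {θ K : ℝ} (hθ : 0 < θ) (hθ2 : θ < 2 - 2 * α / d) (hK : 0 < K)
    (x : Fin d → ℤ) :
    ∃ k0 : ℕ, ∀ᵐ q ∂((PVg d μ).prod (Ps d)),
      (∑' k : ℕ, XX T0 (pw d α e) θ K ((1 / 2 : ℝ) ^ (k + k0)) x q) ≠ ⊤ := by
  obtain ⟨C, ε, η0, hC, hε, hη0, -, H⟩ := one_site hSTG hGBD hPW μ hμp hD hμ h hinv hcut hd h1 h2 he
    hθ hθ2 hK
  obtain ⟨k0, hk0⟩ := exists_pow_lt_of_lt_one hη0 (by norm_num : (1 / 2 : ℝ) < 1)
  refine ⟨k0, ?_⟩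
  have hm : ∀ k : ℕ, Measurable (XX T0 (pw d α e) θ K ((1 / 2 : ℝ) ^ (k + k0)) x) := fun k =>
    (XX_int (T0 := T0) (pw d α e) θ K _ x μ).1
  have hsum : (∫⁻ q, ∑' k : ℕ, XX T0 (pw d α e) θ K ((1 / 2 : ℝ) ^ (k + k0)) x q
      ∂((PVg d μ).prod (Ps d))) ≠ ⊤ := by
    rw [lintegral_tsum fun k => (hm k).aemeasurable]
    have h3 : ∀ k : ℕ, ∫⁻ q, XX T0 (pw d α e) θ K ((1 / 2 : ℝ) ^ (k + k0)) x q
        ∂((PVg d μ).prod (Ps d)) ≤ ENNReal.ofReal (C * ((1 / 2 : ℝ) ^ ε) ^ (k + k0)) := by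
      intro k
      rw [(XX_int (T0 := T0) (pw d α e) θ K _ x μ).2]
      refine (H ((1 / 2 : ℝ) ^ (k + k0)) x (by positivity) ?_).trans
        (ENNReal.ofReal_le_ofReal (le_of_eq ?_))
      · exact (pow_le_pow_of_le_one (by norm_num) (by norm_num) (Nat.le_add_left k0 k)).trans hk0.le
      · congr 1
        rw [← Real.rpow_natCast, ← Real.rpow_natCast, ← Real.rpow_mul (by norm_num),
          ← Real.rpow_mul (by norm_num), mul_comm]
    refine ne_top_of_le_ne_top ?_ (ENNReal.tsum_le_tsum h3)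
    have hr1 : (1 / 2 : ℝ) ^ ε < 1 := Real.rpow_lt_one (by norm_num) (by norm_num) hε
    have hr0 : (0 : ℝ) ≤ (1 / 2 : ℝ) ^ ε := by positivity
    have hs : Summable fun k : ℕ => C * ((1 / 2 : ℝ) ^ ε) ^ (k + k0) := by
      have h4 := (summable_geometric_of_lt_one hr0 hr1).mul_left (C * ((1 / 2 : ℝ) ^ ε) ^ k0)
      refine h4.congr fun k => ?_
      rw [pow_add]
      ring
    rw [← ENNReal.ofReal_tsum_of_nonneg (fun k => by positivity) hs]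
    exact ENNReal.ofReal_ne_top
  have h5 := ae_lt_top' (AEMeasurable.ennreal_tsum fun k => (hm k).aemeasurable) hsum
  filter_upwards [h5] with q hq
  exact hq.ne

/-- for a spectral measure -/
theorem gs_eq (hUNQ : S_UNQ) (hCNV : S_CNV) {κ : (Fin d → ℤ) → ℝ} (h : Adm T0 κ ρ0 b)
    (s : Sym2 (Fin d → ℤ) → Bool) (hc : CutOK T0 κ s) (V : (Fin d → ℤ) → ℝ) (x : Fin d → ℤ)
    (m : Measure ℝ) (hm : Spec T0 κ s V x m) (E : ℝ) {η : ℝ} (hη : 0 < η) :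
    gs T0 κ η x (E, V, s) = ENNReal.ofReal (∫ t : ℝ, 1 / ((t : ℂ) - zE E η) ∂m).im := by
  obtain ⟨u, hu, hlim⟩ := hCNV d T0 κ ρ0 b h s hc V x E η hη
  have hz : 0 < (zE E η).im := by
    unfold zE
    simp [hη]
  obtain ⟨u', hu', hx⟩ := hm (zE E η) hz
  have huu := hUNQ d T0 κ ρ0 b h s hc V (zE E η) x u u' hz.ne' hu hu'
  have h1 : Tendsto (fun n : ℕ => ENNReal.ofReal (PL T0 κ n η (bx d n) x (E, V, s))) atTop
      (𝓝 (ENNReal.ofReal (u x).im)) := by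
    refine (ENNReal.continuous_ofReal.tendsto _).comp ?_
    have h2 := (Complex.continuous_im.tendsto _).comp hlim
    refine h2.congr fun n => ?_
    simp only [Function.comp]
    unfold Gn PL Pm
    split_ifs
    · rfl
    · rfl
  unfold gs
  rw [h1.liminf_eq, ← hx, huu]

theorem dim (hUNQ : S_UNQ) (hCNV : S_CNV) (hSTG : S_STG) (hGBD : S_GBD) (hPW : S_PW4)
    (hSP1 : S_SP1) (hSP2 : S_SP2) : S_DIM := by
  intro d T0 ρ0 b α e D μ hμp hD hμ h hinv hcut hd h1 h2 he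
  have hd0 : (0 : ℝ) < d := by
    have : (1 : ℝ) ≤ d := by exact_mod_cast hd
    linarith
  obtain ⟨Θ, hΘ⟩ : ∃ Θ, Θ = 2 - 2 * α / d := ⟨_, rfl⟩
  have hΘ0 : 0 < Θ := by
    rw [hΘ, sub_pos, div_lt_iff₀ hd0]
    linarith
  obtain ⟨th, hth⟩ : ∃ th : ℕ → ℝ, th = fun j : ℕ => Θ * (1 - 1 / ((j : ℝ) + 2)) := ⟨_, rfl⟩
  have hj : ∀ j : ℕ, 0 < th j ∧ th j < Θ := by
    intro j
    have h3 : (0 : ℝ) < 1 / ((j : ℝ) + 2) := by positivity
    have h4 : 1 / ((j : ℝ) + 2) < 1 := by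
      rw [div_lt_one (by positivity)]
      have : (0 : ℝ) ≤ j := Nat.cast_nonneg j
      linarith
    rw [hth]
    constructor
    · exact mul_pos hΘ0 (by linarith)
    · simp only
      nlinarith
  have hall : ∀ᵐ q ∂((PVg d μ).prod (Ps d)), ∀ (x : Fin d → ℤ) (j n : ℕ), ∃ k0 : ℕ,
      (∑' k : ℕ, XX T0 (pw d α e) (th j) ((n : ℝ) + 1) ((1 / 2 : ℝ) ^ (k + k0)) x q) ≠ ⊤ := by
    rw [ae_all_iff]
    intro x
    rw [ae_all_iff]
    intro j
    rw [ae_all_iff]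
    intro n
    obtain ⟨k0, hk⟩ := summ hSTG hGBD hPW μ hμp hD hμ h hinv hcut hd h1 h2 he (hj j).1
      (by rw [← hΘ]; exact (hj j).2) (K := (n : ℝ) + 1) (by positivity) x
    filter_upwards [hk] with q hq
    exact ⟨k0, hq⟩
  have hcut2 : ∀ᵐ q ∂((PVg d μ).prod (Ps d)), CutOK T0 (pw d α e) q.2 :=
    Measure.quasiMeasurePreserving_snd.ae hcut
  filter_upwards [hall, hcut2] with q hq hc x m hm hspec θ hθ
  rw [← hΘ] at hθ
  -- the exponent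
  obtain ⟨j, hjθ⟩ : ∃ j : ℕ, θ ≤ th j := by
    obtain ⟨j, hj2⟩ := exists_nat_gt (Θ / (Θ - θ))
    refine ⟨j, ?_⟩
    have h3 : 0 < Θ - θ := by linarith
    rw [div_lt_iff₀ h3] at hj2
    rw [hth]
    simp only
    have h4 : Θ * (1 / ((j : ℝ) + 2)) ≤ Θ - θ := by
      rw [mul_one_div, div_le_iff₀ (by positivity)]
      nlinarith [Nat.cast_nonneg (α := ℝ) j]
    linarith
  have hn : ∀ n : ℕ, ∀ᵐ E ∂m, E ∈ Icc (-(((n : ℝ) + 1) - 1)) (((n : ℝ) + 1) - 1) →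
      ∃ C : ℝ, ∀ η : ℝ, 0 < η → η ≤ 1 → m (Ioo (E - η) (E + η)) ≤ ENNReal.ofReal (C * η ^ th j) := by
    intro n
    obtain ⟨k0, hk0⟩ := hq x j n
    refine hSP2 m (th j) ((n : ℝ) + 1) k0 hm (hj j).1 (ne_top_of_le_ne_top hk0 ?_)
    refine ENNReal.tsum_le_tsum fun k => ?_
    obtain ⟨η, hηd⟩ : ∃ η, η = (1 / 2 : ℝ) ^ (k + k0) := ⟨_, rfl⟩
    have hη : 0 < η := by rw [hηd]; positivity
    have hη1 : η ≤ 1 := by rw [hηd]; exact pow_le_one₀ (by norm_num) (by norm_num)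
    rw [← hηd]
    have hK1 : (1 : ℝ) ≤ (n : ℝ) + 1 := by linarith [Nat.cast_nonneg (α := ℝ) n]
    refine (hSP1 m η (th j) ((n : ℝ) + 1) hm hη hη1 hK1).trans ?_
    have hg : ∀ E : ℝ, gs T0 (pw d α e) η x (E, q) =
        ENNReal.ofReal (∫ t : ℝ, 1 / ((t : ℂ) - zE E η) ∂m).im := fun E =>
      gs_eq hUNQ hCNV h q.2 hc q.1 x m hspec E hη
    have hgm : Measurable fun E : ℝ => gs T0 (pw d α e) η x (E, q) :=
      (gs_meas (pw d α e) η x).comp (measurable_id.prodMk measurable_const)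
    have hh : 0 < η ^ (th j - 1) / 5 := by positivity
    have hS : {E : ℝ | η ^ (th j - 1) / 5 < (∫ t : ℝ, 1 / ((t : ℂ) - zE E η) ∂m).im} =
        {E : ℝ | ENNReal.ofReal (η ^ (th j - 1) / 5) < gs T0 (pw d α e) η x (E, q)} := by
      ext E
      rw [mem_setOf_eq, mem_setOf_eq, hg E]
      constructor
      · intro h3
        exact (ENNReal.ofReal_lt_ofReal_iff (hh.trans h3)).2 h3
      · intro h3
        exact (ENNReal.ofReal_lt_ofReal_iff_of_nonneg hh.le).1 h3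
    rw [hS]
    have hSm : MeasurableSet
        {E : ℝ | ENNReal.ofReal (η ^ (th j - 1) / 5) < gs T0 (pw d α e) η x (E, q)} :=
      measurableSet_lt measurable_const hgm
    unfold XX
    rw [inter_comm, ← Measure.restrict_restrict hSm, ← lintegral_indicator hSm]
    refine lintegral_mono fun E => ?_
    unfold ph
    simp only [Set.indicator, mem_setOf_eq]
    split_ifs with h7
    · exact (hg E).ge
    · exact le_rfl
  have hall2 : ∀ᵐ E ∂m, ∃ C : ℝ, ∀ η : ℝ, 0 < η → η ≤ 1 →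
      m (Ioo (E - η) (E + η)) ≤ ENNReal.ofReal (C * η ^ th j) := by
    filter_upwards [ae_all_iff.2 hn] with E hE
    obtain ⟨n, hn2⟩ := exists_nat_ge |E|
    refine hE n ?_
    rw [abs_le] at hn2
    constructor <;> linarith
  filter_upwards [hall2] with E hE
  obtain ⟨C, hC⟩ := hE
  refine ⟨max C 0, fun η hη hη1 => (hC η hη hη1).trans (ENNReal.ofReal_le_ofReal ?_)⟩
  calc C * η ^ th j ≤ max C 0 * η ^ th j := by gcongr; exact le_max_left _ _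
    _ ≤ max C 0 * η ^ θ := by
        refine mul_le_mul_of_nonneg_left ?_ (le_max_right _ _)
        exact Real.rpow_le_rpow_of_exponent_ge hη hη1 hjθ

end Pool.Agent.Q237.LR5
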