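import Pool.Agent.H10R2.PL.SWA

/-!
Essential self-adjointness: with good cut-offs there are no square summable solutions of
`H ψ = z ψ` for nonreal `z`.
-/

set_option autoImplicit false

namespace Pool.Agent.Q237.LR

open MeasureTheory ProbabilityTheory Set H10PL Filter Topology

variable {d : ℕ} {T0 : (Fin d → ℤ) → (Fin d → ℤ) → ℝ} {κ : (Fin d → ℤ) → ℝ} {ρ0 b : ℝ}

theorem comm_le (h : Adm T0 κ ρ0 b) (s : Sym2 (Fin d → ℤ) → Bool) (χ : (Fin d → ℤ) →₀ ℝ) {ε : ℝ}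
    (hε : 0 ≤ ε) (hχ3 : ∀ (Λ : Finset (Fin d → ℤ)) (u v : (Fin d → ℤ) → ℝ),
      |∑ y ∈ Λ, ∑ w ∈ Λ, (χ y - χ w) * Kf T0 κ s y w * (u y * v w)| ≤
        ε * (∑ y ∈ Λ, u y ^ 2 + ∑ y ∈ Λ, v y ^ 2)) (ψ φ : (Fin d → ℤ) → ℝ)
    (hψ1 : Summable fun y => ψ y ^ 2) (hφ1 : Summable fun y => φ y ^ 2) :
    |∑ y ∈ χ.support, χ y * φ y * ∑' w, Kf T0 κ s y w * ψ w -
      ∑ w ∈ χ.support, χ w * ψ w * ∑' y, Kf T0 κ s w y * φ y| ≤
      ε * (∑' y, φ y ^ 2 + ∑' y, ψ y ^ 2) := by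
  classical
  set S := ∑ y ∈ χ.support, χ y * φ y * ∑' w, Kf T0 κ s y w * ψ w -
    ∑ w ∈ χ.support, χ w * ψ w * ∑' y, Kf T0 κ s w y * φ y with hS
  have hlim : Tendsto (fun Λ : Finset (Fin d → ℤ) =>
      ∑ y ∈ Λ, ∑ w ∈ Λ, (χ y - χ w) * Kf T0 κ s y w * (φ y * ψ w)) atTop (𝓝 S) := by
    have h1 : Tendsto (fun Λ : Finset (Fin d → ℤ) =>
        ∑ y ∈ χ.support, χ y * φ y * ∑ w ∈ Λ, Kf T0 κ s y w * ψ w -
        ∑ w ∈ χ.support, χ w * ψ w * ∑ y ∈ Λ, Kf T0 κ s w y * φ y) atTop (𝓝 S) := by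
      apply Tendsto.sub
      · apply tendsto_finsetSum
        intro y _
        exact ((cs_tsum (Kf_sq_summable h s y) hψ1).1.hasSum).const_mul _
      · apply tendsto_finsetSum
        intro y _
        exact ((cs_tsum (Kf_sq_summable h s y) hφ1).1.hasSum).const_mul _
    refine h1.congr' ?_
    filter_upwards [eventually_ge_atTop χ.support] with Λ hΛ
    have h2 : ∑ y ∈ Λ, ∑ w ∈ Λ, (χ y - χ w) * Kf T0 κ s y w * (φ y * ψ w) =
        ∑ y ∈ Λ, χ y * φ y * ∑ w ∈ Λ, Kf T0 κ s y w * ψ w -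
        ∑ w ∈ Λ, χ w * ψ w * ∑ y ∈ Λ, Kf T0 κ s w y * φ y := by
      have h3 : ∑ w ∈ Λ, χ w * ψ w * ∑ y ∈ Λ, Kf T0 κ s w y * φ y =
          ∑ y ∈ Λ, ∑ w ∈ Λ, χ w * Kf T0 κ s y w * (φ y * ψ w) := by
        rw [Finset.sum_comm]
        refine Finset.sum_congr rfl fun w _ => ?_
        rw [Finset.mul_sum]
        refine Finset.sum_congr rfl fun y _ => ?_
        rw [Kf_symm h s w y]
        ring
      rw [h3, ← Finset.sum_sub_distrib]
      refine Finset.sum_congr rfl fun y _ => ?_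
      rw [Finset.mul_sum, ← Finset.sum_sub_distrib]
      refine Finset.sum_congr rfl fun w _ => ?_
      ring
    rw [h2]
    congr 1
    · refine Finset.sum_subset hΛ fun y _ hy => ?_
      rw [Finsupp.notMem_support_iff.mp hy]
      ring
    · refine Finset.sum_subset hΛ fun y _ hy => ?_
      rw [Finsupp.notMem_support_iff.mp hy]
      ring
  refine le_of_tendsto' hlim.abs fun Λ => (hχ3 Λ φ ψ).trans ?_
  have h5 := hφ1.sum_le_tsum Λ (fun y _ => sq_nonneg _)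
  have h6 := hψ1.sum_le_tsum Λ (fun y _ => sq_nonneg _)
  exact mul_le_mul_of_nonneg_left (add_le_add h5 h6) hε

/-- no square summable solutions for the nonreal spectral parameter `E + i η` -/
theorem no_nonreal (h : Adm T0 κ ρ0 b) (s : Sym2 (Fin d → ℤ) → Bool) (hc : CutOK T0 κ s)
    (V : (Fin d → ℤ) → ℝ) (E η : ℝ) (hη : η ≠ 0) (u v : (Fin d → ℤ) → ℝ)
    (hu : Summable fun y => u y ^ 2) (hv : Summable fun y => v y ^ 2)
    (h1 : ∀ y, (∑' w, Kf T0 κ s y w * u w) + V y * u y = E * u y - η * v y)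
    (h2 : ∀ y, (∑' w, Kf T0 κ s y w * v w) + V y * v y = E * v y + η * u y) (x : Fin d → ℤ) :
    u x = 0 ∧ v x = 0 := by
  by_contra hcon
  have hq : 0 < u x ^ 2 + v x ^ 2 := by
    rcases not_and_or.1 hcon with h3 | h3
    · have := sq_nonneg (v x)
      have := pow_pos (abs_pos.2 h3) 2
      rw [sq_abs] at this
      linarith
    · have := sq_nonneg (u x)
      have := pow_pos (abs_pos.2 h3) 2
      rw [sq_abs] at this
      linarith
  obtain ⟨n, hn⟩ : ∃ n, n = ∑' y, v y ^ 2 + ∑' y, u y ^ 2 := ⟨_, rfl⟩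
  have hn0 : 0 ≤ n := by
    rw [hn]
    exact add_nonneg (tsum_nonneg fun y => sq_nonneg _) (tsum_nonneg fun y => sq_nonneg _)
  have hη' : 0 < |η| := abs_pos.2 hη
  obtain ⟨ε, hε⟩ : ∃ ε, ε = |η| * (u x ^ 2 + v x ^ 2) / (2 * (n + 1)) := ⟨_, rfl⟩
  have hε0 : 0 < ε := by rw [hε]; positivity
  obtain ⟨χ, hχ1, hχ2, hχ3⟩ := hc ε hε0 {x}
  have hχx : χ x = 1 := hχ2 x (Finset.mem_singleton_self x)
  have h3 := comm_le h s χ hε0.le hχ3 u v hu hv
  have h4 : ∑ y ∈ χ.support, χ y * v y * ∑' w, Kf T0 κ s y w * u w -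
      ∑ w ∈ χ.support, χ w * u w * ∑' y, Kf T0 κ s w y * v y =
      -η * ∑ y ∈ χ.support, χ y * (u y ^ 2 + v y ^ 2) := by
    rw [← Finset.sum_sub_distrib, Finset.mul_sum]
    refine Finset.sum_congr rfl fun y _ => ?_
    linear_combination (χ y * v y) * h1 y - (χ y * u y) * h2 y
  rw [h4, abs_mul, abs_neg, ← hn] at h3
  have h5 : u x ^ 2 + v x ^ 2 ≤ |∑ y ∈ χ.support, χ y * (u y ^ 2 + v y ^ 2)| := by
    refine le_trans ?_ (le_abs_self _)
    have hxs : x ∈ χ.support := by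
      rw [Finsupp.mem_support_iff, hχx]
      exact one_ne_zero
    have h6 := Finset.single_le_sum (f := fun y => χ y * (u y ^ 2 + v y ^ 2))
      (fun y _ => mul_nonneg (hχ1 y).1 (by positivity)) hxs
    simp only [hχx, one_mul] at h6
    exact h6
  have h6 : |η| * (u x ^ 2 + v x ^ 2) ≤ ε * n :=
    (mul_le_mul_of_nonneg_left h5 hη'.le).trans h3
  have h7 : ε * (2 * (n + 1)) = |η| * (u x ^ 2 + v x ^ 2) := by
    rw [hε]
    field_simp
  nlinarith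

end Pool.Agent.Q237.LR
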