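import Pool.Agent.Q237.LR.Spr

/-!
CANDIDATE for MP_1906c1_mp.NoBoundStates (lean-grade PASS). Claim:
Proves: (partial) Every d>=1, EVERY disorder strength σ≠0. ξ(x), x∈Z^d, iid standard Gaussian, s_xy=s_yx=±1 independent fair signs (one for each pair of sites), (Hψ)(x)=Σ_{|y-x|=1}ψ(y)+Σ_y s_xy κ(x-y)ψ(y)+σξ(x)ψ(x). (A) For every profile κ almost surely: (1) the series converge for ψ∈ℓ²(Z^d), and Hψ=zψ, z∈C, ψ∈ℓ², implies ψ=0 (so, textbook facts, H is essentially self-adjoint and its spectrum purely continuous); (2) for all x, ε>0 there is a finite G⊂Z^d with |ψ(x)|<=ε for all ψ∈ℓ², ‖ψ‖<=1, z∈C with (Hψ)(y)=zψ(y) for y∈G, e.g. for normalised eigenvectors of H in finite volumes Λ⊇G. (B) κ(z)=e|z|^(-α)log(1+|z|)^γ is a profile for e≠0 (arbitrarily small), d/2<α<=d, γ>=0, α<d or γ>0.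
Definitions: Profile: κ even, κ(0)=0, Σκ(z)²|z|^θ<∞ for some θ>0, and for some B and every M there are β>0, a finite S, 0∉S, with β<=|κ|<=Bβ on S, β|S|>=M. |z| maximum norm. power: κ of (B). H: as above; law: law of ξ and the coins; sgn: sign of a coin; NoBoundState=(1), Spreads=(2).
Relation: Partial: hopping added (Q1: κ=0, open). Sharp: if κ=O(|z|^(-α)), α>d, localization at large σ (Aizenman-Molchanov). Predicted by Levitov 1989; known for hierarchical models (von Soosten-Warzel 2019). Not in GaussianACSpectrum (starting file: small σ) or MP_28b024_mp.GenericKineticEnergies (nonrandom hopping, no decay rate).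


The Anderson model with standard Gaussian disorder on `ℤ^d`, with an additional arbitrarily weak
hopping with independent random signs which decays slower than `|x-y|^(-d)`: at every disorder the
spectrum is almost surely purely continuous, and the eigenfunctions of finite volumes spread.
-/

set_option autoImplicit false

namespace Pool.Agent.Q237.LR.Final1

open MeasureTheory ProbabilityTheory

/-- The sign `1` or `-1` of a coin. -/
def sgn (b : Bool) : ℝ := if b then 1 else -1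

/-- The fair coin. -/
noncomputable def coin : Measure Bool := (PMF.uniformOfFintype Bool).toMeasure

/-- The law of the disorder: `ξ(x)`, `x ∈ ℤ^d`, independent standard Gaussian, and independent of
them an independent fair coin for every unordered pair of sites. -/
noncomputable def law (d : ℕ) :
    Measure (((Fin d → ℤ) → ℝ) × (Sym2 (Fin d → ℤ) → Bool)) :=
  (Measure.infinitePi fun _ : (Fin d → ℤ) => gaussianReal 0 1).prod
    (Measure.infinitePi fun _ : Sym2 (Fin d → ℤ) => coin)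

/-- `(H ψ)(x) = ∑_{|y-x|=1} ψ(y) + ∑_y s_{xy} κ(x-y) ψ(y) + σ ξ(x) ψ(x)`, where `s_{xy} = s_{yx}` is
the sign of the coin of the pair `{x, y}`. -/
noncomputable def H {d : ℕ} (κ : (Fin d → ℤ) → ℝ) (σ : ℝ) (s : Sym2 (Fin d → ℤ) → Bool)
    (ξ : (Fin d → ℤ) → ℝ) (ψ : (Fin d → ℤ) → ℂ) (x : Fin d → ℤ) : ℂ :=
  ∑ i, (ψ (x + Pi.single i 1) + ψ (x - Pi.single i 1)) +
    ∑' y, ((sgn (s s(x, y)) * κ (x - y) : ℝ) : ℂ) * ψ y + ((σ * ξ x : ℝ) : ℂ) * ψ x

/-- Hopping profiles: even, zero at `0`, a bit more than square summable, and for every `M` there is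
a finite set `S` of sites with comparable amplitudes, between `β` and `B β`, with `M ≤ β |S|`. -/
def Profile {d : ℕ} (κ : (Fin d → ℤ) → ℝ) : Prop :=
  κ 0 = 0 ∧ (∀ z, κ (-z) = κ z) ∧ (∃ θ : ℝ, 0 < θ ∧ Summable fun z => κ z ^ 2 * ‖z‖ ^ θ) ∧
  ∃ B : ℝ, ∀ M : ℝ, ∃ (S : Finset (Fin d → ℤ)) (β : ℝ), 0 < β ∧ (0 : Fin d → ℤ) ∉ S ∧
    (∀ z ∈ S, β ≤ |κ z| ∧ |κ z| ≤ B * β) ∧ M ≤ β * S.card

/-- The power law with a power of the logarithm: `e |z|^(-α) (log (1+|z|))^γ` (maximum norm). -/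
noncomputable def power (d : ℕ) (α γ e : ℝ) (z : Fin d → ℤ) : ℝ :=
  if z = 0 then 0 else e * ‖z‖ ^ (-α) * Real.log (1 + ‖z‖) ^ γ

/-- For all square summable `ψ` the series in `H ψ` converge absolutely, and `H ψ = z ψ` for a
complex `z` only if `ψ = 0`. -/
def NoBoundState {d : ℕ} (κ : (Fin d → ℤ) → ℝ) (σ : ℝ) (s : Sym2 (Fin d → ℤ) → Bool)
    (ξ : (Fin d → ℤ) → ℝ) : Prop :=
  ∀ ψ : (Fin d → ℤ) → ℂ, Summable (fun x => ‖ψ x‖ ^ 2) →
    (∀ x, Summable fun y => ((sgn (s s(x, y)) * κ (x - y) : ℝ) : ℂ) * ψ y) ∧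
    ∀ z : ℂ, (∀ x, H κ σ s ξ ψ x = z * ψ x) → ψ = 0

/-- Local form: every `ψ` of norm at most one which satisfies `H ψ = z ψ` at the sites of a large
finite set `G` is small at `x`. -/
def Spreads {d : ℕ} (κ : (Fin d → ℤ) → ℝ) (σ : ℝ) (s : Sym2 (Fin d → ℤ) → Bool)
    (ξ : (Fin d → ℤ) → ℝ) : Prop :=
  ∀ (x : Fin d → ℤ) (ε : ℝ), 0 < ε → ∃ G : Finset (Fin d → ℤ), ∀ (ψ : (Fin d → ℤ) → ℂ) (z : ℂ),
    Summable (fun y => ‖ψ y‖ ^ 2) → ∑' y, ‖ψ y‖ ^ 2 ≤ 1 →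
    (∀ y ∈ G, H κ σ s ξ ψ y = z * ψ y) → ‖ψ x‖ ≤ ε

theorem H_eq {d : ℕ} (κ : (Fin d → ℤ) → ℝ) (σ : ℝ) (s : Sym2 (Fin d → ℤ) → Bool)
    (ξ : (Fin d → ℤ) → ℝ) (ψ : (Fin d → ℤ) → ℂ) (x : Fin d → ℤ) :
    Pool.Agent.Q237.LR4.HK (Pool.Agent.Q237.LR3.nn d) κ s (fun y => σ * ξ y) ψ x =
      H κ σ s ξ ψ x := by
  rw [Pool.Agent.Q237.LR4.HK_nn]
  rfl

/-- At every disorder `σ ≠ 0` and for every profile, in particular for arbitrarily weak power law
hopping with `d/2 < α < d`, and at `α = d` with an arbitrarily small power of the logarithm, there are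
almost surely no bound states. -/
theorem result (d : ℕ) (hd : 1 ≤ d) (σ : ℝ) (hσ : σ ≠ 0) :
    (∀ κ : (Fin d → ℤ) → ℝ, Profile κ →
      ∀ᵐ p ∂(law d), NoBoundState κ σ p.2 p.1 ∧ Spreads κ σ p.2 p.1) ∧
    ∀ α γ e : ℝ, (d : ℝ) / 2 < α → α ≤ d → 0 ≤ γ → (α < d ∨ 0 < γ) → e ≠ 0 →
      Profile (power d α γ e) := by
  constructor
  · rintro κ ⟨h0, hs, ⟨θ, hθ, hsum⟩, B, hB⟩
    obtain ⟨hadm, h1, h2, h3⟩ := Pool.Agent.Q237.LR4.adm_gen hd h0 hs hθ hsum
    have hM : Pool.Agent.Q237.LR.Many κ B := by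
      intro M
      obtain ⟨S, β, a1, a2, a3, a4⟩ := hB (max M 1)
      refine ⟨S, β, a1, a2, ?_, a3, (le_max_left _ _).trans a4⟩
      by_contra hS
      rw [Finset.not_nonempty_iff_eq_empty] at hS
      rw [hS, Finset.card_empty, Nat.cast_zero, mul_zero] at a4
      linarith [le_max_right M 1]
    have key := Pool.Agent.Q237.LR4.main1 Pool.Agent.Q58.LR.scl d (Pool.Agent.Q237.LR3.nn d) κ
      1 (2 * d) (min θ 1) B σ hadm h1 h2 h3 hM hσ
    have key' : ∀ᵐ p ∂(law d), ∀ ψ : (Fin d → ℤ) → ℂ, Summable (fun y => ‖ψ y‖ ^ 2) → ∀ z : ℂ,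
        (∀ x, Pool.Agent.Q237.LR4.HK (Pool.Agent.Q237.LR3.nn d) κ p.2 (fun y => σ * p.1 y) ψ x =
          z * ψ x) → ψ = 0 := key
    filter_upwards [key'] with p hp
    refine ⟨fun ψ hψ => ⟨fun x => Pool.Agent.Q237.LR4.converge hadm p.2 ψ hψ x,
      fun z hz => hp ψ hψ z fun x => ?_⟩, fun x ε hε => ?_⟩
    · rw [H_eq]
      exact hz x
    · obtain ⟨G, hG⟩ := Pool.Agent.Q237.LR4.loc hadm p.2 (fun y => σ * p.1 y) hp x hε
      refine ⟨G, fun ψ z hψ hψ1 hz => hG ψ z hψ hψ1 fun y hy => ?_⟩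
      rw [H_eq]
      exact hz y hy
  · intro α γ e h1 h2 h3 h4 h5
    obtain ⟨hadm, θ, hθ, -, hsum⟩ := Pool.Agent.Q237.LR4.lp1' d α γ e hd h1 h3
    obtain ⟨B, hB⟩ := Pool.Agent.Q176.LR.lp2 d α γ e hd
      (lt_of_le_of_lt (by positivity) h1) h2 h3 h4 h5
    refine ⟨hadm.κ0, hadm.κsymm, ⟨θ, hθ, hsum⟩, B, fun M => ?_⟩
    obtain ⟨S, β, a1, a2, -, a3, a4⟩ := hB M
    exact ⟨S, β, a1, a2, a3, a4⟩

end Pool.Agent.Q237.LR.Final1
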