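import Pool.Agent.Q237.LR.DIM
import Pool.Agent.Q26.LR.POW3
import Pool.Agent.Q237.LR.All5

/-!
CANDIDATE for MP_28b024_mp.SpectralDimension (lean-grade PASS). Claim:
Proves: (partial) Every d>=1, EVERY disorder λ≠0, ω(x), x∈Z^d, iid with any law of bounded density. (Hψ)(x)=Σ(ψ(x)-ψ(y)) over the 2d neighbours y of x +λω(x)ψ(x)+eΣ_{y≠x}s_xy|x-y|^(-α)ψ(y): -Δ+λV_ω plus a hopping with e≠0 (arbitrarily small), d/2<α<d, s_xy=s_yx=±1 fair signs, one for each pair of sites, independent, also of ω. Almost surely: (1) the series converge for ψ∈ℓ²(Z^d), and Hψ=zψ, z∈C, ψ∈ℓ², implies ψ=0; (2) for all x, ε>0 there is a finite G⊂Z^d with |ψ(x)|<=ε for all ψ∈ℓ², ‖ψ‖<=1, z∈C with (Hψ)(y)=zψ(y) for y∈G; (3) each δ_x has a spectral measure m, and if θ<2-2α/d then for m-almost every E there is C with m(E-η,E+η)<=Cη^θ for 0<η<=1.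
Definitions: |z| is the maximum norm in |x-y|^(-α). amp: e|z|^(-α), 0 at z=0. H, law, coin, sgn: as above. NoBoundState=(1), Spreads=(2). IsSpectral: finite measure m with ∫dm(E)/(E-z)=u(x), where u∈ℓ², (H-z)u=δ_x, for all z with Im z>0. LocalDimension: the bound in (3).
Relation: Partial: operator of Q1 plus an arbitrarily weak random hopping (e=0 open). Not in the Lean: so purely continuous spectrum, no spectral mass on sets of Hausdorff dimension <2-2α/d; (2) holds for normalised eigenvectors in volumes Λ⊇G. For α>d and large λ: localization (Aizenman-Molchanov). Predicted by Levitov 1989; similar for hierarchical models (von Soosten-Warzel 2019). Gaussian case, other hopping profiles: MP_1906c1_mp.NoBoundStates (same project).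


The Anderson model on `ℤ^d` with any single-site law of bounded density, with an additional
arbitrarily weak hopping with independent random signs and amplitudes `e |x-y|^(-α)`, `d/2 < α < d`: at
every disorder there are almost surely no bound states, and all spectral measures have local dimension
at least `2 - 2 α / d`.
-/

set_option autoImplicit false

namespace Pool.Agent.Q237.LR.Final2

open MeasureTheory ProbabilityTheory Set

/-- The sign `1` or `-1` of a coin. -/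
def sgn (b : Bool) : ℝ := if b then 1 else -1

/-- The fair coin. -/
noncomputable def coin : Measure Bool := (PMF.uniformOfFintype Bool).toMeasure

/-- The law of the disorder: `ω(x)`, `x ∈ ℤ^d`, independent with the law `ν`, and independent of
them an independent fair coin for every unordered pair of sites. -/
noncomputable def law (d : ℕ) (ν : Measure ℝ) :
    Measure (((Fin d → ℤ) → ℝ) × (Sym2 (Fin d → ℤ) → Bool)) :=
  (Measure.infinitePi fun _ : (Fin d → ℤ) => ν).prod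
    (Measure.infinitePi fun _ : Sym2 (Fin d → ℤ) => coin)

/-- The amplitude `e |z|^(-α)` (maximum norm), zero for `z = 0`. -/
noncomputable def amp {d : ℕ} (α e : ℝ) (z : Fin d → ℤ) : ℝ :=
  if z = 0 then 0 else e * ‖z‖ ^ (-α)

/-- `(H ψ)(x) = ∑_{|y-x|=1} (ψ(x) - ψ(y)) + ∑_{y ≠ x} s_{xy} e |x-y|^(-α) ψ(y) + lam ω(x) ψ(x)`, where
`s_{xy} = s_{yx}` is the sign of the coin of the pair `{x, y}`. -/
noncomputable def H {d : ℕ} (α e lam : ℝ) (s : Sym2 (Fin d → ℤ) → Bool)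
    (ω : (Fin d → ℤ) → ℝ) (ψ : (Fin d → ℤ) → ℂ) (x : Fin d → ℤ) : ℂ :=
  ∑ i, ((ψ x - ψ (x + Pi.single i 1)) + (ψ x - ψ (x - Pi.single i 1))) +
    ∑' y, ((sgn (s s(x, y)) * amp α e (x - y) : ℝ) : ℂ) * ψ y + ((lam * ω x : ℝ) : ℂ) * ψ x

/-- For all square summable `ψ` the series in `H ψ` converge absolutely, and `H ψ = z ψ` for a
complex `z` only if `ψ = 0`. -/
def NoBoundState {d : ℕ} (α e lam : ℝ) (s : Sym2 (Fin d → ℤ) → Bool) (ω : (Fin d → ℤ) → ℝ) :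
    Prop :=
  ∀ ψ : (Fin d → ℤ) → ℂ, Summable (fun x => ‖ψ x‖ ^ 2) →
    (∀ x, Summable fun y => ((sgn (s s(x, y)) * amp α e (x - y) : ℝ) : ℂ) * ψ y) ∧
    ∀ z : ℂ, (∀ x, H α e lam s ω ψ x = z * ψ x) → ψ = 0

/-- Local form: every `ψ` of norm at most one which satisfies `H ψ = z ψ` at the sites of a large
finite set `G` is small at `x`. -/
def Spreads {d : ℕ} (α e lam : ℝ) (s : Sym2 (Fin d → ℤ) → Bool) (ω : (Fin d → ℤ) → ℝ) : Prop :=
  ∀ (x : Fin d → ℤ) (ε : ℝ), 0 < ε → ∃ G : Finset (Fin d → ℤ), ∀ (ψ : (Fin d → ℤ) → ℂ) (z : ℂ),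
    Summable (fun y => ‖ψ y‖ ^ 2) → ∑' y, ‖ψ y‖ ^ 2 ≤ 1 →
    (∀ y ∈ G, H α e lam s ω ψ y = z * ψ y) → ‖ψ x‖ ≤ ε

/-- `m` is the spectral measure of `δ_x`: a finite measure with
`∫ dm(E) / (E - z) = ⟨δ_x, (H - z)⁻¹ δ_x⟩ = u(x)` for `Im z > 0`, where `u` is the square summable
solution of `(H - z) u = δ_x`. -/
def IsSpectral {d : ℕ} (α e lam : ℝ) (s : Sym2 (Fin d → ℤ) → Bool) (ω : (Fin d → ℤ) → ℝ)
    (x : Fin d → ℤ) (m : Measure ℝ) : Prop :=
  IsFiniteMeasure m ∧ ∀ z : ℂ, 0 < z.im → ∃ u : (Fin d → ℤ) → ℂ,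
    Summable (fun y => ‖u y‖ ^ 2) ∧
    (∀ y, H α e lam s ω u y = z * u y + if y = x then 1 else 0) ∧
    u x = ∫ E : ℝ, 1 / ((E : ℂ) - z) ∂m

/-- At almost every point with respect to `m` the measure of the interval of radius `η` is at most
of the order `η ^ θ`. -/
def LocalDimension (m : Measure ℝ) (θ : ℝ) : Prop :=
  ∀ᵐ E ∂m, ∃ C : ℝ, ∀ η : ℝ, 0 < η → η ≤ 1 →
    m (Ioo (E - η) (E + η)) ≤ ENNReal.ofReal (C * η ^ θ)

theorem H_eq {d : ℕ} (α e lam : ℝ) (s : Sym2 (Fin d → ℤ) → Bool)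
    (ω : (Fin d → ℤ) → ℝ) (ψ : (Fin d → ℤ) → ℂ) (x : Fin d → ℤ) :
    Pool.Agent.Q237.LR4.HK (fun y w => - Pool.Agent.Q237.LR3.nn d y w)
      (Pool.Agent.Q237.LR3.pw d α e) s (fun y => 2 * d + lam * ω y) ψ x = H α e lam s ω ψ x := by
  rw [Pool.Agent.Q237.LR4.HK_neg]
  unfold H
  have e1 : ∑ i, ((ψ x - ψ (x + Pi.single i 1)) + (ψ x - ψ (x - Pi.single i 1))) =
      2 * d * ψ x - ∑ i, (ψ (x + Pi.single i 1) + ψ (x - Pi.single i 1)) := by
    rw [eq_sub_iff_add_eq, ← Finset.sum_add_distrib]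
    have e2 : ∀ i : Fin d, (ψ x - ψ (x + Pi.single i 1)) + (ψ x - ψ (x - Pi.single i 1)) +
        (ψ (x + Pi.single i 1) + ψ (x - Pi.single i 1)) = 2 * ψ x := fun i => by ring
    simp_rw [e2]
    rw [Finset.sum_const, Finset.card_univ, Fintype.card_fin, nsmul_eq_mul]
    ring
  have e4 : (∑' y, ((H10PL.sg (s s(x, y)) * Pool.Agent.Q237.LR3.pw d α e (x - y) : ℝ) : ℂ) * ψ y) =
      ∑' y, ((sgn (s s(x, y)) * amp α e (x - y) : ℝ) : ℂ) * ψ y := rfl
  rw [e1, e4]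
  push_cast
  ring

/-- Every single-site law with a bounded density, every disorder `lam ≠ 0`, every `e ≠ 0`. -/
theorem result (d : ℕ) (hd : 1 ≤ d) (ν : Measure ℝ) [hν1 : IsProbabilityMeasure ν] (D : ℝ)
    (hν : ν ≤ ENNReal.ofReal D • volume) (lam : ℝ) (hlam : lam ≠ 0) (α : ℝ)
    (h1 : (d : ℝ) / 2 < α) (h2 : α < d) (e : ℝ) (he : e ≠ 0) :
    ∀ᵐ p ∂(law d ν), NoBoundState α e lam p.2 p.1 ∧ Spreads α e lam p.2 p.1 ∧
      ∀ x, (∃ m, IsProbabilityMeasure m ∧ IsSpectral α e lam p.2 p.1 x m) ∧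
        ∀ m, IsSpectral α e lam p.2 p.1 x m → ∀ θ : ℝ, θ < 2 - 2 * α / d → LocalDimension m θ := by
  have h0 : 0 < α := lt_of_le_of_lt (by positivity) h1
  obtain ⟨hadm, hinv0⟩ := Pool.Agent.Q237.LR4.adjP d α e hd h1
  have hadm' := Pool.Agent.Q237.LR4.adm_neg hadm
  have hinv : ∀ a y w : Fin d → ℤ, - Pool.Agent.Q237.LR3.nn d (y + a) (w + a) =
      - Pool.Agent.Q237.LR3.nn d y w := fun a y w => by rw [hinv0]
  obtain ⟨-, θ, hθ, hθ2, hsum⟩ := Pool.Agent.Q223.LR.pow1 d α e hd h1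
  have hcut := Pool.Agent.Q237.LR.cut d (fun y w => - Pool.Agent.Q237.LR3.nn d y w)
    (Pool.Agent.Q237.LR3.pw d α e) 1 (2 * d) θ hadm' hθ hθ2 hsum
  have hD' : ν ≤ ENNReal.ofReal (max D 0) • volume := by
    refine hν.trans ?_
    intro A
    simp only [Measure.smul_apply, smul_eq_mul]
    gcongr
    exact le_max_left _ _
  have hbox : Pool.Agent.Q237.LR2.Boxes (Pool.Agent.Q237.LR3.pw d α e) :=
    Pool.Agent.Q26.LR.pow3 d α e hd h0 h2 he
  have key := Pool.Agent.Q237.LR4.main3 (Pool.Agent.Q237.LR2.noe2A Pool.Agent.Q71.LR.avg) d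
    (fun y w => - Pool.Agent.Q237.LR3.nn d y w) (Pool.Agent.Q237.LR3.pw d α e) 1 (2 * d) θ
    (max D 0) (2 * d) lam ν (le_max_right _ _) hD' hlam hadm' hinv hθ hθ2 hsum hbox
  have key' : ∀ᵐ p ∂(law d ν), ∀ ψ : (Fin d → ℤ) → ℂ, Summable (fun y => ‖ψ y‖ ^ 2) →
      ∀ z : ℂ, (∀ x, Pool.Agent.Q237.LR4.HK (fun y w => - Pool.Agent.Q237.LR3.nn d y w)
        (Pool.Agent.Q237.LR3.pw d α e) p.2 (fun y => 2 * d + lam * p.1 y) ψ x = z * ψ x) →
        ψ = 0 := key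
  -- the local dimension, for the law of `2 d + lam ω`
  have hm : Measurable fun w : ℝ => 2 * (d : ℝ) + lam * w :=
    (measurable_const_mul lam).const_add _
  haveI : IsProbabilityMeasure (ν.map (fun w => 2 * (d : ℝ) + lam * w)) :=
    Measure.isProbabilityMeasure_map hm.aemeasurable
  have hdim := Pool.Agent.Q237.LR5.dimAll d
    (fun y w => - Pool.Agent.Q237.LR3.nn d y w) 1 (2 * d) α e (max D 0 * |lam⁻¹|)
    (ν.map (fun w => 2 * (d : ℝ) + lam * w)) inferInstance (by positivity)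
    (Pool.Agent.Q237.LR4.dens ν (le_max_right _ _) hD' (2 * d) hlam) hadm' hinv hcut hd h1 h2 he
  have hmp2 : MeasurePreserving
      (Prod.map (fun (ω : (Fin d → ℤ) → ℝ) (x : Fin d → ℤ) => 2 * (d : ℝ) + lam * ω x)
        (id : (Sym2 (Fin d → ℤ) → Bool) → _))
      ((Measure.infinitePi fun _ : (Fin d → ℤ) => ν).prod
        (Measure.infinitePi fun _ : Sym2 (Fin d → ℤ) => H10PL.coin))
      ((Measure.infinitePi fun _ : (Fin d → ℤ) => ν.map (fun w => 2 * (d : ℝ) + lam * w)).prod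
        (Measure.infinitePi fun _ : Sym2 (Fin d → ℤ) => H10PL.coin)) :=
    (Pool.Agent.Q237.LR4.push ν (2 * (d : ℝ)) lam).prod (MeasurePreserving.id _)
  have hdim2 := hmp2.quasiMeasurePreserving.ae hdim
  have hdim' : ∀ᵐ p ∂(law d ν), ∀ (x : Fin d → ℤ) (m : Measure ℝ), IsFiniteMeasure m →
      Pool.Agent.Q237.LR5.Spec (fun y w => - Pool.Agent.Q237.LR3.nn d y w)
        (Pool.Agent.Q237.LR3.pw d α e) p.2 (fun y => 2 * (d : ℝ) + lam * p.1 y) x m → ∀ θ : ℝ,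
      θ < 2 - 2 * α / d → ∀ᵐ E ∂m, ∃ C : ℝ, ∀ η : ℝ, 0 < η → η ≤ 1 →
        m (Ioo (E - η) (E + η)) ≤ ENNReal.ofReal (C * η ^ θ) := hdim2
  have hcut' : ∀ᵐ p ∂(law d ν), H10PL.CutOK (fun y w => - Pool.Agent.Q237.LR3.nn d y w)
      (Pool.Agent.Q237.LR3.pw d α e) p.2 :=
    Measure.quasiMeasurePreserving_snd.ae hcut
  filter_upwards [key', hdim', hcut'] with p hp hdp hc
  refine ⟨fun ψ hψ => ⟨fun x => Pool.Agent.Q237.LR4.converge hadm p.2 ψ hψ x,
    fun z hz => hp ψ hψ z fun x => ?_⟩, fun x ε hε => ?_, fun x => ⟨?_, fun m hm2 θ' hθ' => ?_⟩⟩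
  · rw [H_eq]
    exact hz x
  · obtain ⟨G, hG⟩ := Pool.Agent.Q237.LR4.loc hadm' p.2 (fun y => 2 * d + lam * p.1 y) hp x hε
    refine ⟨G, fun ψ z hψ hψ1 hz => hG ψ z hψ hψ1 fun y hy => ?_⟩
    rw [H_eq]
    exact hz y hy
  · obtain ⟨m, hm1, hm2⟩ := Pool.Agent.Q237.LR5.exiAll d
      (fun y w => - Pool.Agent.Q237.LR3.nn d y w) (Pool.Agent.Q237.LR3.pw d α e) 1 (2 * d) hadm'
      p.2 hc (fun y => 2 * (d : ℝ) + lam * p.1 y) x
    refine ⟨m, hm1, inferInstance, fun z hz => ?_⟩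
    obtain ⟨u, ⟨hu1, hu2⟩, hu3⟩ := hm2 z hz
    refine ⟨u, hu1, fun y => ?_, hu3⟩
    rw [← H_eq]
    exact hu2 y
  · refine hdp x m hm2.1 (fun z hz => ?_) θ' hθ'
    obtain ⟨u, hu1, hu2, hu3⟩ := hm2.2 z hz
    refine ⟨u, ⟨hu1, fun y => ?_⟩, hu3⟩
    rw [H_eq]
    exact hu2 y

end Pool.Agent.Q237.LR.Final2
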