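import Pool.Agent.Q237.LR.Stm

/-!
INF: trial functions with arbitrarily small quotient, for almost all energies, potentials and signs.
-/

set_option autoImplicit false

namespace Pool.Agent.Q237.LR

open MeasureTheory ProbabilityTheory Set H10PL

variable {d : ℕ} {T0 : (Fin d → ℤ) → (Fin d → ℤ) → ℝ} {κ : (Fin d → ℤ) → ℝ} {ρ0 b B : ℝ}
  {v : NNReal}

/-- many sites with comparable hopping amplitudes -/
def Many (κ : (Fin d → ℤ) → ℝ) (B : ℝ) : Prop :=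
  ∀ M : ℝ, ∃ (S : Finset (Fin d → ℤ)) (β : ℝ), 0 < β ∧ (0 : Fin d → ℤ) ∉ S ∧ S.Nonempty ∧
    (∀ z ∈ S, β ≤ |κ z| ∧ |κ z| ≤ B * β) ∧ M ≤ β * S.card

theorem bad_small (h : Adm T0 κ ρ0 b) (hv : v ≠ 0) (hS : Many κ B) (x : Fin d → ℤ) (M : ℕ)
    {K δ : ℝ} (hK : 0 < K) (hδ : 0 < δ) :
    ((volume.restrict (Icc (-K) K)).prod ((PV d v).prod (Ps d)))
      {p : ℝ × ((Fin d → ℤ) → ℝ) × (Sym2 (Fin d → ℤ) → Bool) | ¬ InfN T0 κ p.2.2 p.2.1 p.1 x M} ≤
      ENNReal.ofReal δ := by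
  obtain ⟨a, ha⟩ : ∃ a, a = aC b κ := ⟨_, rfl⟩
  have ha0 : 0 ≤ a := by
    rw [ha]
    unfold aC
    have : 0 ≤ ∑' z, κ z ^ 2 := tsum_nonneg fun z => sq_nonneg _
    positivity
  have hCk : 0 ≤ Ck K a := by
    unfold Ck
    have := Real.pi_pos
    positivity
  obtain ⟨W, hW⟩ : ∃ W, W = max (2 * (K + 1)) (36 * Ck K a / δ) + 1 := ⟨_, rfl⟩
  have hW1 : 2 * (K + 1) ≤ W := by
    rw [hW]; linarith [le_max_left (2 * (K + 1)) (36 * Ck K a / δ)]
  have hW3 : 36 * Ck K a / δ ≤ W := by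
    rw [hW]; linarith [le_max_right (2 * (K + 1)) (36 * Ck K a / δ)]
  have hW0 : 0 < W := by linarith
  have hWc : 9 * Ck K a / W ≤ δ / 4 := by
    rw [div_le_iff₀ hδ] at hW3
    rw [div_le_iff₀ hW0]
    linarith
  obtain ⟨W2, hW2, hV⟩ := V_tail v x (δ := δ / (8 * K)) (by positivity)
  obtain ⟨g, hg⟩ : ∃ g, g = gaussianPDFReal 0 v W := ⟨_, rfl⟩
  have hg0 : 0 < g := by rw [hg]; exact gaussianPDFReal_pos _ _ _ hv
  have hpi := Real.pi_pos
  obtain ⟨A, hA⟩ : ∃ A, A = 4 * (16 + 64 * B ^ 2) * K / (g * Real.pi * δ) := ⟨_, rfl⟩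
  have hA0 : 0 < A := by rw [hA]; positivity
  obtain ⟨M', hM'⟩ : ∃ M' : ℝ, M' = M + 1 := ⟨_, rfl⟩
  have hM'0 : 0 < M' := by rw [hM']; positivity
  obtain ⟨c0, hc0⟩ : ∃ c0, c0 = g * Real.pi / (4 * (W2 + 8 * W) ^ 2) := ⟨_, rfl⟩
  have hWW : 0 < W2 + 8 * W := by linarith
  have hc00 : 0 < c0 := by rw [hc0]; positivity
  obtain ⟨k, hk, hkb⟩ := κ_bdd h
  obtain ⟨S, β, hβ, h0S, hSn, hSκ, hSM⟩ := hS (Real.sqrt (4 * M' * A / c0) + A * k)
  have hSc : 0 < (S.card : ℝ) := by exact_mod_cast hSn.card_pos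
  have hsq0 : 0 ≤ Real.sqrt (4 * M' * A / c0) := Real.sqrt_nonneg _
  have hβS1 : 4 * M' * A / c0 ≤ (β * S.card) ^ 2 := by
    have h1 : Real.sqrt (4 * M' * A / c0) ≤ β * S.card := by
      have : 0 ≤ A * k := by positivity
      linarith
    have h2 : Real.sqrt (4 * M' * A / c0) ^ 2 = 4 * M' * A / c0 := Real.sq_sqrt (by positivity)
    rw [← h2]
    exact pow_le_pow_left₀ hsq0 h1 2
  have hAS : A ≤ S.card := by
    obtain ⟨z, hz⟩ := hSn
    have h1 : β ≤ k := (hSκ z hz).1.trans (hkb z)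
    have h2 : A * k ≤ β * S.card := by linarith
    have h3 : β * S.card ≤ k * S.card := by gcongr
    have h4 : A * k ≤ S.card * k := by linarith
    exact le_of_mul_le_mul_right h4 hk
  obtain ⟨η, hη⟩ : ∃ η, η = A / S.card := ⟨_, rfl⟩
  have hη0 : 0 < η := by rw [hη]; positivity
  have hη1 : η ≤ 1 := by rw [hη, div_le_one hSc]; exact hAS
  have hηS : S.card * η = A := by rw [hη]; field_simp
  -- the radius
  obtain ⟨c, hc⟩ : ∃ c, c = (η * Real.sqrt M' / 2) ^ 2 := ⟨_, rfl⟩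
  have hsM : 0 < Real.sqrt M' := Real.sqrt_pos.2 hM'0
  have hcpos : 0 < c := by rw [hc]; positivity
  obtain ⟨ρ1, hρ1⟩ := tail_small h (δ := δ * c * η ^ 2 / (8 * K)) (by positivity)
  obtain ⟨ρ, hρ⟩ : ∃ ρ, ρ = max (max ρ0 0) (max ρ1 (∑ z ∈ S, ‖z‖)) := ⟨_, rfl⟩
  have hρa : ρ0 ≤ ρ := by rw [hρ]; exact (le_max_left _ _).trans (le_max_left _ _)
  have hρb : 0 ≤ ρ := by rw [hρ]; exact (le_max_right ρ0 0).trans (le_max_left _ _)
  have hρc : ρ1 ≤ ρ := by rw [hρ]; exact (le_max_left _ _).trans (le_max_right _ _)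
  have hρd : ∀ z ∈ S, ‖z‖ ≤ ρ := fun z hz =>
    (Finset.single_le_sum (f := fun y : Fin d → ℤ => ‖y‖) (fun z _ => norm_nonneg z) hz).trans (by
      rw [hρ]; exact (le_max_right _ _).trans (le_max_right _ _))
  have htail := hρ1 ρ hρc
  obtain ⟨T, hT0, hT⟩ := row_abs h ρ
  obtain ⟨r, hr⟩ : ∃ r, r = 2 * ρ * T / (η ^ 2 * Real.sqrt M') + 1 := ⟨_, rfl⟩
  have hr0 : 0 < r := by rw [hr]; positivity
  have hc2 : (ρ / r) * T * (1 / η) ≤ η * Real.sqrt M' / 2 := by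
    have h1 : 2 * ρ * T / (η ^ 2 * Real.sqrt M') ≤ r := by rw [hr]; linarith
    rw [div_le_iff₀ (by positivity)] at h1
    have h2 : (ρ / r) * T * (1 / η) = ρ * T / (r * η) := by field_simp
    rw [h2, div_le_iff₀ (by positivity)]
    have h3 : η * Real.sqrt M' / 2 * (r * η) = r * (η ^ 2 * Real.sqrt M') / 2 := by ring
    rw [h3]
    linarith
  obtain ⟨Λ, hΛ⟩ : ∃ Λ, Λ = (ball_finite x (r + ρ)).toFinset := ⟨_, rfl⟩
  have hΛm : ∀ y, ‖y - x‖ ≤ r + ρ → y ∈ Λ := by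
    intro y hy
    rw [hΛ, Set.Finite.mem_toFinset]
    exact hy
  have hxΛ : x ∈ Λ := hΛm x (by rw [sub_self, norm_zero]; linarith)
  have hSΛ : ∀ z ∈ S, x - z ∈ Λ := by
    intro z hz
    refine hΛm _ ?_
    have e : x - z - x = -z := by abel
    rw [e, norm_neg]
    linarith [hρd z hz]
  -- the three bad events
  have b2 := fv_lattice h v hv Λ S x hxΛ h0S hρd hSΛ hSn hβ hSκ (K := K) (W := W) (W2 := W2)
    (η := η) hK hW1 hη0 hη1 hW2
  have b3 := long_lattice h v hρa hη0 hr0 Λ x hxΛ hK hcpos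
  obtain ⟨μ, hμ⟩ : ∃ μ : Measure (ℝ × ((Fin d → ℤ) → ℝ) × (Sym2 (Fin d → ℤ) → Bool)),
    μ = (volume.restrict (Icc (-K) K)).prod ((PV d v).prod (Ps d)) := ⟨_, rfl⟩
  rw [← hμ] at b2 b3 ⊢
  have b1 : μ {p | W2 < |p.2.1 x|} ≤ ENNReal.ofReal (δ / 4) := by
    have hm : MeasurableSet {V : (Fin d → ℤ) → ℝ | W2 < |V x|} :=
      measurableSet_lt measurable_const (measurable_pi_apply x).abs
    have e1 : {p : ℝ × ((Fin d → ℤ) → ℝ) × (Sym2 (Fin d → ℤ) → Bool) | W2 < |p.2.1 x|} =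
        univ ×ˢ ({V : (Fin d → ℤ) → ℝ | W2 < |V x|} ×ˢ univ) := by
      ext p
      simp
    rw [e1, hμ, Measure.prod_prod, Measure.prod_prod, measure_univ (μ := Ps d), mul_one]
    have e2 : (volume.restrict (Icc (-K) K)) (univ : Set ℝ) = ENNReal.ofReal (2 * K) := by
      rw [Measure.restrict_apply_univ, Real.volume_Icc]
      congr 1
      ring
    rw [e2]
    calc ENNReal.ofReal (2 * K) * (PV d v) {V | W2 < |V x|} ≤
        ENNReal.ofReal (2 * K) * ENNReal.ofReal (δ / (8 * K)) := by gcongr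
      _ = ENNReal.ofReal (δ / 4) := by
        rw [← ENNReal.ofReal_mul (by positivity)]
        congr 1
        field_simp
        norm_num
  have hsub : {p : ℝ × ((Fin d → ℤ) → ℝ) × (Sym2 (Fin d → ℤ) → Bool) |
      ¬ InfN T0 κ p.2.2 p.2.1 p.1 x M} ⊆
      ({p | W2 < |p.2.1 x|} ∪ {p | |p.2.1 x| ≤ W2 ∧
        Pm (Am T0 κ ρ Λ p.2.2) (fun i : Λ => p.2.1 i) p.1 η ⟨x, hxΛ⟩ ⟨x, hxΛ⟩ <
        β ^ 2 * (gaussianPDFReal 0 v W * Real.pi * S.card / 2) / (2 * (W2 + 8 * W) ^ 2)}) ∪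
      {p | ¬ (∑' y, (∑ w ∈ Λ, (Kf T0 κ p.2.2 y w - Kr T0 κ ρ p.2.2 y w) *
        ff T0 κ ρ η r Λ x hxΛ p.2.2 p.2.1 p.1 w) ^ 2) ≤ c} := by
    intro p hp
    by_contra hcon
    simp only [mem_union, mem_setOf_eq, not_or, not_not, not_lt, not_and] at hcon
    obtain ⟨⟨hc1, hc2'⟩, hc3⟩ := hcon
    refine hp ?_
    refine infN_of h p.2.2 p.2.1 p.1 x hρa hρb hr0 hη0 Λ hΛm hxΛ hT0 (fun y => hT Λ p.2.2 y)
      (M' := M') (by rw [hM']; linarith) hM'0 ?_ hc2 (by rw [← hc]; exact hc3)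
    refine le_trans ?_ (hc2' hc1)
    rw [← hg]
    have e1 : β ^ 2 * (g * Real.pi * S.card / 2) / (2 * (W2 + 8 * W) ^ 2) = c0 * β ^ 2 * S.card := by
      rw [hc0]
      field_simp
      norm_num
    rw [e1]
    rw [div_le_iff₀ hc00] at hβS1
    have e2 : 4 * M' * η * S.card = 4 * M' * A := by rw [← hηS]; ring
    have h5 : 4 * M' * η * S.card ≤ c0 * β ^ 2 * S.card * S.card := by
      rw [e2]
      calc 4 * M' * A ≤ (β * S.card) ^ 2 * c0 := hβS1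
        _ = c0 * β ^ 2 * S.card * S.card := by ring
    exact le_of_mul_le_mul_right h5 hSc
  refine (measure_mono hsub).trans ?_
  refine (measure_union_le _ _).trans ?_
  have h2' : ENNReal.ofReal (9 * Ck K (aC b κ) / W +
        (16 + 64 * B ^ 2) * K / (gaussianPDFReal 0 v W * Real.pi * S.card * η)) ≤
      ENNReal.ofReal (δ / 2) := by
    apply ENNReal.ofReal_le_ofReal
    rw [← ha, ← hg]
    have e1 : g * Real.pi * S.card * η = g * Real.pi * A := by rw [← hηS]; ring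
    have e2 : (16 + 64 * B ^ 2) * K / (g * Real.pi * A) = δ / 4 := by
      rw [hA]
      field_simp
    rw [e1, e2]
    linarith
  have h3' : ENNReal.ofReal (2 * K * ((∑' y : Fin d → ℤ, if ρ < ‖y‖ then κ y ^ 2 else 0) *
        (1 / η ^ 2) / c)) ≤ ENNReal.ofReal (δ / 4) := by
    apply ENNReal.ofReal_le_ofReal
    have h6 : (∑' y : Fin d → ℤ, if ρ < ‖y‖ then κ y ^ 2 else 0) * (1 / η ^ 2) / c ≤
        (δ * c * η ^ 2 / (8 * K)) * (1 / η ^ 2) / c := by gcongr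
    calc 2 * K * ((∑' y : Fin d → ℤ, if ρ < ‖y‖ then κ y ^ 2 else 0) * (1 / η ^ 2) / c)
        ≤ 2 * K * ((δ * c * η ^ 2 / (8 * K)) * (1 / η ^ 2) / c) := by gcongr
      _ = δ / 4 := by
        field_simp
        norm_num
  calc _ ≤ (ENNReal.ofReal (δ / 4) + ENNReal.ofReal (δ / 2)) + ENNReal.ofReal (δ / 4) := by
        refine add_le_add ((measure_union_le _ _).trans (add_le_add b1 (b2.trans h2')))
          (b3.trans h3')
    _ = ENNReal.ofReal δ := by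
        rw [← ENNReal.ofReal_add (by positivity) (by positivity),
          ← ENNReal.ofReal_add (by positivity) (by positivity)]
        congr 1
        ring

theorem inf : S_INF := by
  intro d T0 κ ρ0 b B v h hv hS x
  rw [ae_all_iff]
  intro M
  rw [ae_iff]
  obtain ⟨bad, hbad⟩ : ∃ bad : Set (ℝ × ((Fin d → ℤ) → ℝ) × (Sym2 (Fin d → ℤ) → Bool)),
    bad = {p | ¬ InfN T0 κ p.2.2 p.2.1 p.1 x M} := ⟨_, rfl⟩
  rw [← hbad]
  have h1 : ∀ n : ℕ, ((volume : Measure ℝ).prod ((PV d v).prod (Ps d)))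
      (bad ∩ (Icc (-((n : ℝ) + 1)) ((n : ℝ) + 1) ×ˢ univ)) = 0 := by
    intro n
    have hn : (0 : ℝ) < (n : ℝ) + 1 := by positivity
    have h2 : ((volume.restrict (Icc (-((n : ℝ) + 1)) ((n : ℝ) + 1))).prod
        ((PV d v).prod (Ps d))) bad = 0 := by
      refine le_antisymm (ENNReal.le_of_forall_pos_le_add fun ε hε _ => ?_) bot_le
      rw [zero_add, hbad]
      have h3 := bad_small h hv hS x M hn (δ := ε) (by exact_mod_cast hε)
      rwa [ENNReal.ofReal_coe_nnreal] at h3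
    have h3 : ((volume.restrict (Icc (-((n : ℝ) + 1)) ((n : ℝ) + 1))).prod
        ((PV d v).prod (Ps d))) = ((volume : Measure ℝ).prod ((PV d v).prod (Ps d))).restrict
          (Icc (-((n : ℝ) + 1)) ((n : ℝ) + 1) ×ˢ univ) := by
      rw [← Measure.prod_restrict, Measure.restrict_univ]
    rw [h3, Measure.restrict_apply' (measurableSet_Icc.prod MeasurableSet.univ)] at h2
    exact h2
  have h2 : bad ⊆ ⋃ n : ℕ, bad ∩ (Icc (-((n : ℝ) + 1)) ((n : ℝ) + 1) ×ˢ univ) := by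
    intro p hp
    obtain ⟨n, hn⟩ := exists_nat_ge |p.1|
    refine mem_iUnion.2 ⟨n, hp, ?_, mem_univ _⟩
    have := abs_le.1 (hn.trans (by linarith : (n : ℝ) ≤ (n : ℝ) + 1))
    exact ⟨this.1, this.2⟩
  refine measure_mono_null h2 ?_
  rw [measure_iUnion_null_iff]
  exact h1

end Pool.Agent.Q237.LR
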