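import Pool.Agent.Q237.LR.Red2
import Pool.Agent.Q124.LR.MEA

/-!
# Project LR: local version (finite volume) of the absence of eigenvectors, by compactness
-/

set_option autoImplicit false

namespace Pool.Agent.Q237.LR4

open MeasureTheory ProbabilityTheory Set H10PL Filter Topology
open Pool.Agent.Q124.LR (um um_nonneg um_summable)

variable {d : ℕ} {T0 : (Fin d → ℤ) → (Fin d → ℤ) → ℝ} {κ : (Fin d → ℤ) → ℝ} {ρ0 b : ℝ}

/-- the tail of the majorant -/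
noncomputable def tl (T0 : (Fin d → ℤ) → (Fin d → ℤ) → ℝ) (κ : (Fin d → ℤ) → ℝ)
    (y : Fin d → ℤ) (F : Finset (Fin d → ℤ)) : ℝ :=
  ∑' w, um T0 κ y w - ∑ w ∈ F, um T0 κ y w

theorem tl_nonneg (h : Adm T0 κ ρ0 b) (y : Fin d → ℤ) (F : Finset (Fin d → ℤ)) :
    0 ≤ tl T0 κ y F := by
  unfold tl
  have := (um_summable h y).sum_le_tsum F fun w _ => um_nonneg y w
  linarith

theorem sq_add {a b : ℝ} : ‖(⟨a, b⟩ : ℂ)‖ ^ 2 = a ^ 2 + b ^ 2 := by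
  rw [← Complex.normSq_eq_norm_sq, Complex.normSq_mk]
  ring

theorem norm_sq_re_im (z : ℂ) : ‖z‖ ^ 2 = z.re ^ 2 + z.im ^ 2 := by
  rw [← Complex.normSq_eq_norm_sq, Complex.normSq_apply]
  ring

theorem HK_eq (h : Adm T0 κ ρ0 b) (s : Sym2 (Fin d → ℤ) → Bool) (V : (Fin d → ℤ) → ℝ)
    (ψ : (Fin d → ℤ) → ℂ) (hψ : Summable fun y => ‖ψ y‖ ^ 2) (y : Fin d → ℤ) :
    Summable (fun w => (Kf T0 κ s y w : ℂ) * ψ w) ∧
    HK T0 κ s V ψ y = ∑' w, (Kf T0 κ s y w : ℂ) * ψ w + V y * ψ y := by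
  obtain ⟨hre, him⟩ := sum_re ψ hψ
  have h1 := real_part h s _ hre y
  have h2 := real_part h s _ him y
  have a1 := csum (fun w => T0 y w) ψ h1.1 h2.1
  have a2 := csum (fun w => sg (s s(y, w)) * κ (y - w)) ψ h1.2.1 h2.2.1
  have e : ∀ w, (Kf T0 κ s y w : ℂ) * ψ w = (T0 y w : ℂ) * ψ w +
      ((sg (s s(y, w)) * κ (y - w) : ℝ) : ℂ) * ψ w := by
    intro w
    unfold Kf
    push_cast
    ring
  refine ⟨?_, ?_⟩
  · simp_rw [e]
    exact a1.1.add a2.1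
  · unfold HK
    rw [← a1.1.tsum_add a2.1]
    simp_rw [e]

/-- the tail estimate -/
theorem ctail (h : Adm T0 κ ρ0 b) (s : Sym2 (Fin d → ℤ) → Bool)
    (ψ : (Fin d → ℤ) → ℂ) (hψ : Summable fun y => ‖ψ y‖ ^ 2) (hψ1 : ∑' y, ‖ψ y‖ ^ 2 ≤ 1)
    (y : Fin d → ℤ) (F : Finset (Fin d → ℤ)) :
    ‖∑' w, (Kf T0 κ s y w : ℂ) * ψ w - ∑ w ∈ F, (Kf T0 κ s y w : ℂ) * ψ w‖ ^ 2 ≤ tl T0 κ y F := by
  obtain ⟨hre, him⟩ := sum_re ψ hψ
  have r1 := (cs_tsum (Kf_sq_summable h s y) hre).1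
  have r2 := (cs_tsum (Kf_sq_summable h s y) him).1
  have c1 := csum (fun w => Kf T0 κ s y w) ψ r1 r2
  have t1 := Pool.Agent.Q124.LR.tail h s y F (fun y => (ψ y).re) _
    (fun G => hre.sum_le_tsum G fun _ _ => sq_nonneg _)
  have t2 := Pool.Agent.Q124.LR.tail h s y F (fun y => (ψ y).im) _
    (fun G => him.sum_le_tsum G fun _ _ => sq_nonneg _)
  have e1 : (∑' w, (Kf T0 κ s y w : ℂ) * ψ w - ∑ w ∈ F, (Kf T0 κ s y w : ℂ) * ψ w).re =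
      ∑' w, Kf T0 κ s y w * (ψ w).re - ∑ w ∈ F, Kf T0 κ s y w * (ψ w).re := by
    rw [Complex.sub_re, c1.2.1, Complex.re_sum]
    simp
  have e2 : (∑' w, (Kf T0 κ s y w : ℂ) * ψ w - ∑ w ∈ F, (Kf T0 κ s y w : ℂ) * ψ w).im =
      ∑' w, Kf T0 κ s y w * (ψ w).im - ∑ w ∈ F, Kf T0 κ s y w * (ψ w).im := by
    rw [Complex.sub_im, c1.2.2, Complex.im_sum]
    simp
  rw [norm_sq_re_im, e1, e2]
  have hs : ∑' y, (ψ y).re ^ 2 + ∑' y, (ψ y).im ^ 2 ≤ 1 := by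
    rw [← hre.tsum_add him]
    refine le_trans (le_of_eq ?_) hψ1
    exact tsum_congr fun y => (norm_sq_re_im _).symm
  have ht := tl_nonneg h y F
  unfold tl at ht ⊢
  calc _ ≤ (∑' y, (ψ y).re ^ 2) * (∑' w, um T0 κ y w - ∑ w ∈ F, um T0 κ y w) +
        (∑' y, (ψ y).im ^ 2) * (∑' w, um T0 κ y w - ∑ w ∈ F, um T0 κ y w) := add_le_add t1 t2
    _ = (∑' y, (ψ y).re ^ 2 + ∑' y, (ψ y).im ^ 2) *
        (∑' w, um T0 κ y w - ∑ w ∈ F, um T0 κ y w) := by ring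
    _ ≤ 1 * (∑' w, um T0 κ y w - ∑ w ∈ F, um T0 κ y w) := mul_le_mul_of_nonneg_right hs ht
    _ = _ := one_mul _

/-- the closed conditions -/
def CG (T0 : (Fin d → ℤ) → (Fin d → ℤ) → ℝ) (κ : (Fin d → ℤ) → ℝ) (s : Sym2 (Fin d → ℤ) → Bool)
    (V : (Fin d → ℤ) → ℝ) (x : Fin d → ℤ) (ε R : ℝ) (G : Finset (Fin d → ℤ)) :
    Set (ℂ × ((Fin d → ℤ) → ℂ)) :=
  (({p : ℂ × ((Fin d → ℤ) → ℂ) | ‖p.1‖ ≤ R} ∩ {p : ℂ × ((Fin d → ℤ) → ℂ) | ε ≤ ‖p.2 x‖}) ∩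
    (⋂ F : Finset (Fin d → ℤ), {p : ℂ × ((Fin d → ℤ) → ℂ) | ∑ y ∈ F, ‖p.2 y‖ ^ 2 ≤ 1})) ∩
    ⋂ (y : {y // y ∈ G}), ⋂ (F : Finset (Fin d → ℤ)), {p : ℂ × ((Fin d → ℤ) → ℂ) |
      ‖∑ w ∈ F, (Kf T0 κ s y.1 w : ℂ) * p.2 w + (V y.1 - p.1) * p.2 y.1‖ ^ 2 ≤ tl T0 κ y.1 F}

/-- local version: approximate eigenvectors at finitely many sites are small at `x` -/
theorem loc (h : Adm T0 κ ρ0 b) (s : Sym2 (Fin d → ℤ) → Bool) (V : (Fin d → ℤ) → ℝ)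
    (hn : ∀ ψ : (Fin d → ℤ) → ℂ, Summable (fun y => ‖ψ y‖ ^ 2) → ∀ z : ℂ,
      (∀ x, HK T0 κ s V ψ x = z * ψ x) → ψ = 0) (x : Fin d → ℤ) {ε : ℝ} (hε : 0 < ε) :
    ∃ G : Finset (Fin d → ℤ), ∀ (ψ : (Fin d → ℤ) → ℂ) (z : ℂ), Summable (fun y => ‖ψ y‖ ^ 2) →
      ∑' y, ‖ψ y‖ ^ 2 ≤ 1 → (∀ y ∈ G, HK T0 κ s V ψ y = z * ψ y) → ‖ψ x‖ ≤ ε := by
  classical
  by_contra hcon
  push Not at hcon
  obtain ⟨R, hR⟩ : ∃ R, R = (Real.sqrt (tl T0 κ x ∅) + |V x|) / ε := ⟨_, rfl⟩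
  obtain ⟨C, hC⟩ : ∃ C, C = CG T0 κ s V x ε R := ⟨_, rfl⟩
  have hψc : ∀ y : Fin d → ℤ, Continuous fun p : ℂ × ((Fin d → ℤ) → ℂ) => p.2 y := fun y =>
    (continuous_apply y).comp continuous_snd
  have hcl : ∀ G, IsClosed (C G) := by
    intro G
    rw [hC]
    unfold CG
    refine ((((isClosed_le continuous_fst.norm continuous_const).inter
      (isClosed_le continuous_const (hψc x).norm)).inter (isClosed_iInter fun F => ?_))).inter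
      (isClosed_iInter fun y => isClosed_iInter fun F => ?_)
    · exact isClosed_le (continuous_finsetSum _ fun y _ => (hψc y).norm.pow 2) continuous_const
    · refine isClosed_le (Continuous.pow (Continuous.norm ?_) 2) continuous_const
      exact (continuous_finsetSum _ fun w _ => continuous_const.mul (hψc w)).add
        ((continuous_const.sub continuous_fst).mul (hψc y))
  have hcomp : ∀ G, IsCompact (C G) := by
    intro G
    have hK : IsCompact (Metric.closedBall (0 : ℂ) R ×ˢ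
        Set.pi univ fun _ : (Fin d → ℤ) => Metric.closedBall (0 : ℂ) 1) :=
      (isCompact_closedBall _ _).prod (isCompact_univ_pi fun _ => isCompact_closedBall _ _)
    refine hK.of_isClosed_subset (hcl G) ?_
    rintro ⟨z, ψ⟩ hp
    rw [hC] at hp
    obtain ⟨⟨⟨h1, -⟩, h3⟩, -⟩ := hp
    refine ⟨?_, fun y _ => ?_⟩
    · simpa using h1
    · rw [mem_iInter] at h3
      have h4 := h3 {y}
      simp only [mem_setOf_eq, Finset.sum_singleton] at h4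
      rw [mem_closedBall_zero_iff]
      exact (sq_le_one_iff₀ (norm_nonneg _)).1 h4
  have hne : ∀ G, (C G).Nonempty := by
    intro G
    obtain ⟨ψ, z, hψ, hψ1, hG, hx⟩ := hcon (insert x G)
    refine ⟨(z, ψ), ?_⟩
    have hxe : z * ψ x = ∑' w, (Kf T0 κ s x w : ℂ) * ψ w + V x * ψ x := by
      rw [← hG x (Finset.mem_insert_self _ _), (HK_eq h s V ψ hψ x).2]
    rw [hC]
    refine ⟨⟨⟨?_, hx.le⟩, ?_⟩, ?_⟩
    · change ‖z‖ ≤ R
      rw [hR, le_div_iff₀ hε]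
      have h1 := ctail h s ψ hψ hψ1 x ∅
      rw [Finset.sum_empty, sub_zero] at h1
      have h2 : ‖∑' w, (Kf T0 κ s x w : ℂ) * ψ w‖ ≤ Real.sqrt (tl T0 κ x ∅) :=
        Real.le_sqrt_of_sq_le h1
      have h3 : ‖ψ x‖ ≤ 1 := by
        have h4 : ‖ψ x‖ ^ 2 ≤ 1 := (hψ.le_tsum x fun _ _ => sq_nonneg _).trans hψ1
        exact (sq_le_one_iff₀ (norm_nonneg _)).1 h4
      calc ‖z‖ * ε ≤ ‖z‖ * ‖ψ x‖ := mul_le_mul_of_nonneg_left hx.le (norm_nonneg _)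
        _ = ‖z * ψ x‖ := (norm_mul _ _).symm
        _ ≤ ‖∑' w, (Kf T0 κ s x w : ℂ) * ψ w‖ + ‖(V x : ℂ) * ψ x‖ := by
          rw [hxe]; exact norm_add_le _ _
        _ ≤ Real.sqrt (tl T0 κ x ∅) + |V x| := by
          refine add_le_add h2 ?_
          rw [norm_mul, Complex.norm_real, Real.norm_eq_abs]
          exact mul_le_of_le_one_right (abs_nonneg _) h3
    · rw [mem_iInter]
      intro F
      exact (hψ.sum_le_tsum F fun _ _ => sq_nonneg _).trans hψ1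
    · rw [mem_iInter]
      intro y
      rw [mem_iInter]
      intro F
      have h1 := ctail h s ψ hψ hψ1 y F
      have h2 : z * ψ y = ∑' w, (Kf T0 κ s y w : ℂ) * ψ w + V y * ψ y := by
        rw [← hG y (Finset.mem_insert_of_mem y.2), (HK_eq h s V ψ hψ y).2]
      have h3 : ∑ w ∈ F, (Kf T0 κ s y w : ℂ) * ψ w + (V y - z) * ψ y =
          -(∑' w, (Kf T0 κ s y w : ℂ) * ψ w - ∑ w ∈ F, (Kf T0 κ s y w : ℂ) * ψ w) := by
        rw [sub_mul, h2]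
        ring
      change ‖∑ w ∈ F, (Kf T0 κ s y w : ℂ) * ψ w + (V y - z) * ψ y‖ ^ 2 ≤ tl T0 κ y F
      rw [h3, norm_neg]
      exact h1
  have hdir : Directed (· ⊇ ·) C := by
    intro G1 G2
    refine ⟨G1 ∪ G2, ?_, ?_⟩
    · rw [hC]
      rintro p ⟨h1, h2⟩
      refine ⟨h1, ?_⟩
      rw [mem_iInter] at h2 ⊢
      intro y
      exact h2 ⟨y.1, Finset.mem_union_left _ y.2⟩
    · rw [hC]
      rintro p ⟨h1, h2⟩
      refine ⟨h1, ?_⟩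
      rw [mem_iInter] at h2 ⊢
      intro y
      exact h2 ⟨y.1, Finset.mem_union_right _ y.2⟩
  obtain ⟨⟨z, ψ⟩, hp⟩ := IsCompact.nonempty_iInter_of_directed_nonempty_isCompact_isClosed C
    hdir hne hcomp hcl
  rw [mem_iInter] at hp
  have hψF : ∀ F : Finset (Fin d → ℤ), ∑ y ∈ F, ‖ψ y‖ ^ 2 ≤ 1 := by
    intro F
    have h1 := hp ∅
    rw [hC] at h1
    obtain ⟨⟨-, h3⟩, -⟩ := h1
    rw [mem_iInter] at h3
    exact h3 F
  have hψ : Summable fun y => ‖ψ y‖ ^ 2 := summable_of_sum_le (fun _ => sq_nonneg _) hψF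
  have hxε : ε ≤ ‖ψ x‖ := by
    have h1 := hp ∅
    rw [hC] at h1
    exact h1.1.1.2
  have heq : ∀ y, HK T0 κ s V ψ y = z * ψ y := by
    intro y
    obtain ⟨hsum, hHK⟩ := HK_eq h s V ψ hψ y
    have h1 : ∀ F : Finset (Fin d → ℤ),
        ‖∑ w ∈ F, (Kf T0 κ s y w : ℂ) * ψ w + (V y - z) * ψ y‖ ^ 2 ≤ tl T0 κ y F := by
      intro F
      have h2 := hp {y}
      rw [hC] at h2
      obtain ⟨-, h3⟩ := h2
      rw [mem_iInter] at h3
      have h4 := h3 ⟨y, Finset.mem_singleton_self y⟩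
      rw [mem_iInter] at h4
      exact h4 F
    have l1 : Tendsto (fun F : Finset (Fin d → ℤ) =>
        ‖∑ w ∈ F, (Kf T0 κ s y w : ℂ) * ψ w + (V y - z) * ψ y‖ ^ 2) atTop
        (𝓝 (‖∑' w, (Kf T0 κ s y w : ℂ) * ψ w + (V y - z) * ψ y‖ ^ 2)) :=
      ((hsum.hasSum.add_const _).norm).pow 2
    have l2 : Tendsto (fun F : Finset (Fin d → ℤ) => tl T0 κ y F) atTop (𝓝 0) := by
      have h5 := (um_summable h y).hasSum
      have h6 : Tendsto (fun F : Finset (Fin d → ℤ) => ∑' w, um T0 κ y w - ∑ w ∈ F, um T0 κ y w)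
          atTop (𝓝 (∑' w, um T0 κ y w - ∑' w, um T0 κ y w)) := tendsto_const_nhds.sub h5
      rw [sub_self] at h6
      exact h6
    have h7 := le_of_tendsto_of_tendsto' l1 l2 h1
    have h8 : ‖∑' w, (Kf T0 κ s y w : ℂ) * ψ w + (V y - z) * ψ y‖ = 0 :=
      pow_eq_zero_iff (two_ne_zero) |>.1 (le_antisymm h7 (sq_nonneg _))
    rw [norm_eq_zero] at h8
    rw [hHK]
    linear_combination h8
  have h0 := hn ψ hψ z heq
  rw [h0] at hxε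
  simp at hxε
  linarith

end Pool.Agent.Q237.LR4
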