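import Pool.Agent.Q237.LR.Stm2

/-!
NOE2: no eigenvalues for arbitrary bounded single-site densities.
-/

set_option autoImplicit false

namespace Pool.Agent.Q237.LR2

open MeasureTheory ProbabilityTheory Set H10PL

variable {d : ℕ} {T0 : (Fin d → ℤ) → (Fin d → ℤ) → ℝ} {κ : (Fin d → ℤ) → ℝ} {ρ0 b D : ℝ}

theorem small (hAVG : S_AVG) (hMRK : S_MRK) (hLNG : S_LNG) (hSTA : S_STA) (μ : Measure ℝ)
    [hμp : IsProbabilityMeasure μ] (hD : 0 ≤ D) (hμ : μ ≤ ENNReal.ofReal D • volume)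
    (h : Adm T0 κ ρ0 b) (hinv : ∀ a y w, T0 (y + a) (w + a) = T0 y w) (hB : Boxes κ)
    {K c δ : ℝ} (hK : 0 < K) (hc : 0 < c) (hδ : 0 < δ) :
    ((PVg d μ).prod (Ps d)) (Zs T0 κ K c 0) ≤ ENNReal.ofReal δ := by
  classical
  have hpi := Real.pi_pos
  obtain ⟨K1, hK1⟩ : ∃ K1, K1 = K + 1 := ⟨_, rfl⟩
  have hK10 : 0 < K1 := by rw [hK1]; linarith
  obtain ⟨C1, hC1⟩ : ∃ C1, C1 = 8 / c ^ 2 := ⟨_, rfl⟩
  have hC10 : 0 < C1 := by rw [hC1]; positivity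
  obtain ⟨M, hM⟩ : ∃ M, M = 16 / c ^ 2 := ⟨_, rfl⟩
  have hM0 : 0 < M := by rw [hM]; positivity
  obtain ⟨δ1, hδ1⟩ : ∃ δ1, δ1 = δ / (8 * C1 * K1) := ⟨_, rfl⟩
  have hδ10 : 0 < δ1 := by rw [hδ1]; positivity
  obtain ⟨δ2, hδ2⟩ : ∃ δ2, δ2 = δ * δ1 / (32 * C1 * K1 * ((Real.pi * D) ^ 2 + 1)) := ⟨_, rfl⟩
  have hδ20 : 0 < δ2 := by rw [hδ2]; positivity
  obtain ⟨B, hBB⟩ := hB δ2 hδ20
  obtain ⟨A, hA⟩ : ∃ A, A = 4 + 512 * C1 * K1 * Real.pi * D * B ^ 2 / δ := ⟨_, rfl⟩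
  have hAx : 0 ≤ 512 * C1 * K1 * Real.pi * D * B ^ 2 / δ := by positivity
  have hA4 : 4 ≤ A := by rw [hA]; linarith
  have hA0 : 0 < A := by linarith
  obtain ⟨Q, β, N, F, hβ, hQn, hQ1, hQ2, hNF⟩ := hBB (A / δ1 + (8 * M * A + 1) / δ1)
  obtain ⟨n, hn⟩ : ∃ n : ℝ, n = (Q.card : ℝ) := ⟨_, rfl⟩
  have hn0 : 0 < n := by rw [hn]; exact_mod_cast hQn.card_pos
  rw [← hn] at hQ1 hQ2
  have hp1 : 0 ≤ A / δ1 := by positivity
  have hp2 : 0 ≤ (8 * M * A + 1) / δ1 := by positivity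
  have hnA : A ≤ δ1 * n := by
    have h1 : A / δ1 ≤ n := by linarith
    rw [div_le_iff₀ hδ10] at h1
    linarith
  have hnβ : 8 * M * A + 1 ≤ δ1 * (β * n) := by
    have h1 : (8 * M * A + 1) / δ1 ≤ β * n := by linarith
    rw [div_le_iff₀ hδ10] at h1
    linarith
  obtain ⟨q, hq⟩ : ∃ q, q = δ1 * n := ⟨_, rfl⟩
  have hq0 : 0 < q := by rw [hq]; positivity
  obtain ⟨η, hη⟩ : ∃ η, η = A / q := ⟨_, rfl⟩
  have hη0 : 0 < η := by rw [hη]; positivity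
  have hηq : η * q = A := by rw [hη]; field_simp
  have hη1 : η ≤ 1 := by rw [hη, div_le_one hq0, hq]; exact hnA
  have h4q : 4 / η ≤ q := by
    rw [div_le_iff₀ hη0, mul_comm, hηq]
    exact hA4
  have h8 : 8 * (M * η) < β ^ 2 * q := by
    have h1 : 8 * M * A < (β * q) ^ 2 := by
      have h2 : 8 * M * A + 1 ≤ β * q := by
        rw [hq]; linarith [hnβ, (by ring : δ1 * (β * n) = β * (δ1 * n))]
      have h3 : 0 ≤ 8 * M * A := by positivity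
      nlinarith
    have h2 : (8 * (M * η)) * q < (β ^ 2 * q) * q := by
      have e1 : (8 * (M * η)) * q = 8 * M * A := by rw [← hηq]; ring
      have e2 : (β ^ 2 * q) * q = (β * q) ^ 2 := by ring
      rw [e1, e2]
      exact h1
    exact lt_of_mul_lt_mul_right h2 hq0.le
  -- the range
  obtain ⟨ρ1, hρ1⟩ := tail_small h (δ := δ * η ^ 3 * c ^ 2 / (64 * K1)) (by positivity)
  obtain ⟨ρ, hρ⟩ : ∃ ρ, ρ = max (max ρ0 0) (max ρ1 (∑ x ∈ Q, ∑ y ∈ Q, ‖x - y‖)) := ⟨_, rfl⟩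
  have hρa : ρ0 ≤ ρ := by rw [hρ]; exact (le_max_left _ _).trans (le_max_left _ _)
  have hρb : 0 ≤ ρ := by rw [hρ]; exact (le_max_right ρ0 0).trans (le_max_left _ _)
  have hρc : ρ1 ≤ ρ := by rw [hρ]; exact (le_max_left _ _).trans (le_max_right _ _)
  have hρd : ∀ x ∈ Q, ∀ y ∈ Q, ‖x - y‖ ≤ ρ := by
    intro x hx y hy
    have h1 : ‖x - y‖ ≤ ∑ y ∈ Q, ‖x - y‖ :=
      Finset.single_le_sum (f := fun y : Fin d → ℤ => ‖x - y‖) (fun z _ => norm_nonneg _) hy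
    have h2 : ∑ y ∈ Q, ‖x - y‖ ≤ ∑ x ∈ Q, ∑ y ∈ Q, ‖x - y‖ :=
      Finset.single_le_sum (f := fun x : Fin d → ℤ => ∑ y ∈ Q, ‖x - y‖)
        (fun z _ => Finset.sum_nonneg fun _ _ => norm_nonneg _) hx
    exact (h1.trans h2).trans (by rw [hρ]; exact (le_max_right _ _).trans (le_max_right _ _))
  have htail := hρ1 ρ hρc
  obtain ⟨tl, htl⟩ : ∃ tl, tl = ∑' y : Fin d → ℤ, (if ρ < ‖y‖ then κ y ^ 2 else 0) := ⟨_, rfl⟩
  rw [← htl] at htail
  obtain ⟨T, hT0, hT⟩ := row_abs h ρ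
  obtain ⟨r, hr⟩ : ∃ r, r = 4 * ρ * T / (η * c) + 1 := ⟨_, rfl⟩
  have hr0 : 0 < r := by rw [hr]; positivity
  have hrc : (ρ / r) * T * (1 / η) ≤ c / 4 := by
    have h1 : 4 * ρ * T / (η * c) ≤ r := by rw [hr]; linarith
    rw [div_le_iff₀ (by positivity)] at h1
    have h2 : (ρ / r) * T * (1 / η) = ρ * T / (r * η) := by field_simp
    rw [h2, div_le_iff₀ (by positivity)]
    have h3 : c / 4 * (r * η) = r * (η * c) / 4 := by ring
    rw [h3]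
    linarith
  obtain ⟨Λ, hΛ⟩ : ∃ Λ, Λ = Q.biUnion fun x => (ball_finite x (r + ρ)).toFinset := ⟨_, rfl⟩
  have hΛm : ∀ x ∈ Q, ∀ y, ‖y - x‖ ≤ r + ρ → y ∈ Λ := by
    intro x hx y hy
    rw [hΛ, Finset.mem_biUnion]
    refine ⟨x, hx, ?_⟩
    rw [Set.Finite.mem_toFinset]
    exact hy
  have hQΛ : Q ⊆ Λ := fun x hx => hΛm x hx x (by rw [sub_self, norm_zero]; linarith)
  -- the averaged bound
  have havg := hAVG d T0 κ ρ0 b ρ η Λ Q μ D K1 β B M q (δ2 * n) N F hμp hD hμ h hη0 hK10 hq0 hQΛ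
    hβ h4q h8 (fun x hx => by
      obtain ⟨a1, a2, a3, a4, a5, a6, a7⟩ := hNF x hx
      refine ⟨a1, a2, a3, a4, a5, ?_, fun y hy => ⟨(a7 y hy).1, (a7 y hy).2,
        hρd x hx y (a2 hy)⟩⟩
      rw [hn]
      exact a6)
  -- Markov at every site
  have hmrk : ∀ x ∈ Q, ((PVg d μ).prod (Ps d)) (Zs T0 κ K c 0) ≤
      ENNReal.ofReal C1 * (∫⁻ p in {p | SL T0 κ ρ η Λ x p ≤ M * η},
        ENNReal.ofReal (PL T0 κ ρ η Λ x p) ∂(mE d μ K1)) + ENNReal.ofReal (δ / 4) := by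
    intro x hx
    have h1 := hMRK d T0 κ ρ0 b c K x ρ r η Λ μ T hμp h hρa hρb hr0 hη0 hη1
      (hΛm x hx) hT0 (fun s y => hT Λ s y) hc hK hrc
    have h2 := hLNG d T0 κ ρ0 b ρ r η Λ μ K1 ((c / 4) ^ 2) x hμp h hρa hr0 hη0 hK10
      (by positivity) (hQΛ hx)
    rw [hSTA d T0 κ μ K c x hμp hinv, ← hK1, ← hC1, ← hM] at h1
    refine h1.trans (add_le_add le_rfl ?_)
    calc ENNReal.ofReal (1 / (2 * η)) * (mE d μ K1) {p | ¬ Rs T0 κ ρ η Λ r x p ≤ (c / 4) ^ 2}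
        ≤ ENNReal.ofReal (1 / (2 * η)) * ENNReal.ofReal (2 * K1 * (tl * (1 / η ^ 2) / (c / 4) ^ 2)) := by
          rw [htl]
          gcongr
      _ ≤ ENNReal.ofReal (δ / 4) := by
          rw [← ENNReal.ofReal_mul (by positivity)]
          apply ENNReal.ofReal_le_ofReal
          have e1 : 1 / (2 * η) * (2 * K1 * (tl * (1 / η ^ 2) / (c / 4) ^ 2)) =
              tl * (16 * K1 / (η ^ 3 * c ^ 2)) := by field_simp; ring
          rw [e1]
          have e2 : δ / 4 = δ * η ^ 3 * c ^ 2 / (64 * K1) * (16 * K1 / (η ^ 3 * c ^ 2)) := by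
            field_simp; ring
          rw [e2]
          gcongr
  have hsum : (Q.card : ENNReal) * ((PVg d μ).prod (Ps d)) (Zs T0 κ K c 0) ≤
      (Q.card : ENNReal) * ENNReal.ofReal δ := by
    have h1 := Finset.sum_le_sum hmrk
    rw [Finset.sum_const, nsmul_eq_mul, Finset.sum_add_distrib, ← Finset.mul_sum,
      Finset.sum_const, nsmul_eq_mul] at h1
    refine h1.trans ?_
    have h2 : ENNReal.ofReal C1 * (∑ x ∈ Q, ∫⁻ p in {p | SL T0 κ ρ η Λ x p ≤ M * η},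
        ENNReal.ofReal (PL T0 κ ρ η Λ x p) ∂(mE d μ K1)) ≤
        (Q.card : ENNReal) * ENNReal.ofReal (3 * δ / 4) := by
      refine (mul_le_mul_right havg (ENNReal.ofReal C1)).trans ?_
      rw [← ENNReal.ofReal_mul hC10.le, ← ENNReal.ofReal_natCast, ← hn,
        ← ENNReal.ofReal_mul hn0.le]
      apply ENNReal.ofReal_le_ofReal
      have t1 : C1 * (2 * K1 * q) = n * (δ / 4) := by
        rw [hq, hδ1]; field_simp; ring
      have t2 : C1 * (n * (2 * K1 * (Real.pi * D) ^ 2 * (δ2 * n) / (q / 4))) ≤ n * (δ / 4) := by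
        have e1 : C1 * (n * (2 * K1 * (Real.pi * D) ^ 2 * (δ2 * n) / (q / 4))) =
            n * (8 * C1 * K1 * (Real.pi * D) ^ 2 * δ2 / δ1) := by
          rw [hq]; field_simp; ring
        rw [e1]
        apply mul_le_mul_of_nonneg_left _ hn0.le
        rw [div_le_iff₀ hδ10, hδ2]
        have e2 : 8 * C1 * K1 * (Real.pi * D) ^ 2 *
            (δ * δ1 / (32 * C1 * K1 * ((Real.pi * D) ^ 2 + 1))) =
            (δ / 4 * δ1) * ((Real.pi * D) ^ 2 / ((Real.pi * D) ^ 2 + 1)) := by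
          field_simp; ring
        rw [e2]
        have e3 : (Real.pi * D) ^ 2 / ((Real.pi * D) ^ 2 + 1) ≤ 1 := by
          rw [div_le_one (by positivity)]; linarith
        have e4 : 0 ≤ δ / 4 * δ1 := by positivity
        nlinarith
      have t3 : C1 * (n * (2 * K1 * Real.pi * D * (16 * B ^ 2 / (η * (q / 4))))) ≤
          n * (δ / 4) := by
        have e0 : η * (q / 4) = A / 4 := by rw [← hηq]; ring
        have e1 : C1 * (n * (2 * K1 * Real.pi * D * (16 * B ^ 2 / (η * (q / 4))))) =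
            n * (128 * C1 * K1 * Real.pi * D * B ^ 2 / A) := by
          rw [e0]; field_simp; ring
        rw [e1]
        apply mul_le_mul_of_nonneg_left _ hn0.le
        rw [div_le_iff₀ hA0]
        have e2 : δ / 4 * A = δ + 128 * C1 * K1 * Real.pi * D * B ^ 2 := by
          rw [hA]; field_simp; ring
        rw [e2]
        linarith
      have e5 : C1 * (2 * K1 * q + n * (2 * K1 * (Real.pi * D) ^ 2 * (δ2 * n) / (q / 4)) +
          n * (2 * K1 * Real.pi * D * (16 * B ^ 2 / (η * (q / 4))))) =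
          C1 * (2 * K1 * q) + C1 * (n * (2 * K1 * (Real.pi * D) ^ 2 * (δ2 * n) / (q / 4))) +
          C1 * (n * (2 * K1 * Real.pi * D * (16 * B ^ 2 / (η * (q / 4))))) := by ring
      rw [e5, t1]
      linarith
    refine (add_le_add h2 le_rfl).trans ?_
    rw [← mul_add, ← ENNReal.ofReal_add (by positivity) (by positivity)]
    gcongr
    linarith
  have hc0 : (Q.card : ENNReal) ≠ 0 := by exact_mod_cast hQn.card_pos.ne'
  exact (ENNReal.mul_le_mul_iff_right hc0 (ENNReal.natCast_ne_top _)).1 hsum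

theorem zs_zero (hAVG : S_AVG) (hMRK : S_MRK) (hLNG : S_LNG) (hSTA : S_STA) (μ : Measure ℝ)
    [hμp : IsProbabilityMeasure μ] (hD : 0 ≤ D) (hμ : μ ≤ ENNReal.ofReal D • volume)
    (h : Adm T0 κ ρ0 b) (hinv : ∀ a y w, T0 (y + a) (w + a) = T0 y w) (hB : Boxes κ)
    {K c : ℝ} (hK : 0 < K) (hc : 0 < c) (x : Fin d → ℤ) :
    ((PVg d μ).prod (Ps d)) (Zs T0 κ K c x) = 0 := by
  rw [hSTA d T0 κ μ K c x hμp hinv]
  by_contra h0
  have h1 : 0 < ((PVg d μ).prod (Ps d)) (Zs T0 κ K c 0) := pos_iff_ne_zero.2 h0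
  obtain ⟨r, hr1, hr2⟩ := ENNReal.lt_iff_exists_nnreal_btwn.1 h1
  have hr3 : (0 : ℝ) < r := by exact_mod_cast hr1
  have h2 := small hAVG hMRK hLNG hSTA μ hD hμ h hinv hB hK hc hr3
  rw [ENNReal.ofReal_coe_nnreal] at h2
  exact absurd hr2 (not_lt.2 h2)

theorem noe2 (hAVG : S_AVG) (hMRK : S_MRK) (hLNG : S_LNG) (hSTA : S_STA) : S_NOE2 := by
  intro d T0 κ ρ0 b D μ hμp hD hμ h hinv hB
  have h1 : ∀ᵐ q ∂((PVg d μ).prod (Ps d)), ∀ (n m : ℕ) (x : Fin d → ℤ),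
      q ∉ Zs T0 κ ((n : ℝ) + 1) (1 / ((m : ℝ) + 1)) x := by
    rw [ae_all_iff]
    intro n
    rw [ae_all_iff]
    intro m
    rw [ae_all_iff]
    intro x
    have h2 := zs_zero hAVG hMRK hLNG hSTA μ hD hμ h hinv hB (K := (n : ℝ) + 1)
      (c := 1 / ((m : ℝ) + 1)) (by positivity) (by positivity) x
    rw [ae_iff]
    simpa using h2
  filter_upwards [h1] with q hq E ψ hE
  by_contra hψ
  obtain ⟨x, hx⟩ : ∃ x, ψ x ≠ 0 := by
    by_contra h3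
    push Not at h3
    exact hψ (funext h3)
  obtain ⟨S, hS⟩ : ∃ S, S = ∑' y, ψ y ^ 2 := ⟨_, rfl⟩
  have hSx : ψ x ^ 2 ≤ S := by
    rw [hS]
    exact hE.1.le_tsum x fun y _ => sq_nonneg _
  have hS0 : 0 < S := lt_of_lt_of_le (by positivity) hSx
  have hsS : 0 < Real.sqrt S := Real.sqrt_pos.2 hS0
  obtain ⟨t, ht⟩ : ∃ t, t = (Real.sqrt S)⁻¹ := ⟨_, rfl⟩
  have ht0 : 0 < t := by rw [ht]; positivity
  have ht2 : t ^ 2 * S = 1 := by
    rw [ht, inv_pow, Real.sq_sqrt hS0.le]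
    field_simp
  have hEig : IsEig T0 κ q.2 q.1 E (fun y => t * ψ y) := by
    refine ⟨?_, fun y => ?_⟩
    · have := hE.1.mul_left (t ^ 2)
      refine this.congr fun y => ?_
      ring
    · have e1 : ∀ w, Kf T0 κ q.2 y w * (t * ψ w) = t * (Kf T0 κ q.2 y w * ψ w) := fun w => by ring
      simp_rw [e1]
      rw [tsum_mul_left]
      have e2 := hE.2 y
      have e3 : E * (t * ψ y) = t * (E * ψ y) := by ring
      rw [e3, ← e2]
      ring
  have hnorm : ∑' y, (t * ψ y) ^ 2 ≤ 1 := by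
    have e1 : ∀ y, (t * ψ y) ^ 2 = t ^ 2 * ψ y ^ 2 := fun y => by ring
    simp_rw [e1]
    rw [tsum_mul_left, ← hS, ht2]
  have hpos : 0 < |t * ψ x| := abs_pos.2 (mul_ne_zero ht0.ne' hx)
  obtain ⟨m, hm⟩ := exists_nat_one_div_lt hpos
  obtain ⟨n, hn⟩ := exists_nat_ge |E|
  exact hq n m x ⟨E, fun y => t * ψ y, by linarith, hEig, hnorm, hm.le⟩

end Pool.Agent.Q237.LR2
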