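import Pool.Agent.H10R2.PL.AsmD
import Pool.Agent.H10R2.PL.SWA
import Pool.Agent.H999R5.Inj.Defs

/-!
# Project LR: no eigenvalues for the Anderson model with weak random-sign long range hopping

Statements of the lemmas (Props, to be proved in other files), with proofs in the docstrings.

The library is `Pool/Agent/H10R2/PL/` (namespace `H10PL`, by helper10): `Ps d` is the law of the
independent fair signs on the unordered pairs of sites, `PV d v` the law of the Gaussian potential,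
`Kf T0 κ s y w = T0 y w + sg (s s(y,w)) * κ (y - w)` the hopping kernel, `Adm` the conditions on
`T0`, `κ`, `CutOK` (file `SWA`) the existence of cut-offs, `IsEig` the eigenvectors.
The matrix library is `Pool/Agent/H999R5/Inj/` (`GX`, `gm`, `qf`; files `T_GAU, T_IBP, T_HZ, T_TR, T_QT,
T_NCK, T_OP` prove the Props `S_GAU, …` of `Defs`).
-/

set_option autoImplicit false

namespace Pool.Agent.Q237.LR

open MeasureTheory ProbabilityTheory H10PL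
open Pool.Agent.H999R5.Inj (GX gm qf)
open scoped Matrix

/-- the quadratic bound of the random form with the kernel `a y w * sign` on the finite set `Λ` -/
def BdOn {d : ℕ} (a : (Fin d → ℤ) → (Fin d → ℤ) → ℝ) (ε : ℝ) (Λ : Finset (Fin d → ℤ))
    (s : Sym2 (Fin d → ℤ) → Bool) : Prop :=
  ∀ u v : (Fin d → ℤ) → ℝ, |∑ y ∈ Λ, ∑ w ∈ Λ, a y w * sg (s s(y, w)) * (u y * v w)| ≤
    ε * (∑ y ∈ Λ, u y ^ 2 + ∑ y ∈ Λ, v y ^ 2)

/-- NCK: noncommutative Khintchine inequality with the trace of the variance.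
Proof: this is `NCKaux.bound` and `t_NCK` of `Pool/Agent/H999R5/Inj/T_NCK.lean` with two changes.
(1) The hypothesis is `c • 1 - ∑ A_i² ≥ 0` instead of `1 - ∑ A_i² ≥ 0`: apply `S_TR` to
`S = c⁻¹ • ∑ A_i²`; the induction step becomes
`∫ tr X^(2m+2) ≤ (2m+1) ∫ tr (∑ A_i² X^(2m)) ≤ (2m+1) c ∫ tr X^(2m)`.
(2) The induction starts with `m = 1`: `∫ tr X² = ∑ i ∫ g_i tr (A_i X) = ∑ i tr (A_i A_i) ≤ T` by the
integration by parts `S_IBP` (with `m = 0` there).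
So `∫ tr X^(2m) ≤ (∏_{j<m} (2j+1)) c^(m-1) T` for `m ≥ 1`. (`T ≥ 0` since the trace of `∑ A_i²` is
nonnegative.) The Props `S_IBP`, `S_HZ`, `S_TR` are proved in the files `T_IBP` (from `S_GAU`, file
`T_GAU`), `T_HZ`, `T_TR`. -/
def S_NCK : Prop :=
  ∀ (m n N : ℕ) (A : Fin n → Matrix (Fin N) (Fin N) ℝ) (c T : ℝ), 1 ≤ m → (∀ i, (A i).IsSymm) →
    0 < c → (c • (1 : Matrix (Fin N) (Fin N) ℝ) - ∑ i, A i * A i).PosSemidef →
    (∑ i, A i * A i).trace ≤ T →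
    Integrable (fun g => (GX A g ^ (2 * m)).trace) (gm n) ∧
    ∫ g, (GX A g ^ (2 * m)).trace ∂(gm n) ≤ (2 * m : ℝ) ^ m * (c ^ (m - 1) * T)

/-- SGN: from Gaussian variables to signs.
Proof: let `F g = (tr (GX A g ^ (2m)))^(1/(2m))`; by `S_QT` (file `T_QT`) `|qf (GX A g) x| ≤ F g (x·x)`, and
`∫ F ≤ (∫ tr X^(2m))^(1/(2m))` (Jensen; done in `T_OP.lean` with the weighted AM-GM `OPaux.amgm`), so
`∫ F ≤ C₁ (c^(m-1) T)^(1/(2m))`, `C₁ = (2m)^(1/2)` by `NCK`. Let `κ₁ = ∫ |t| d gaussianReal 0 1 > 0` and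
`Φ ε = κ₁⁻¹ ∫ F (i ↦ sg (ε i) |g i|) ∂gm n`. Then for every `x`
`κ₁ |qf (∑ sg (ε i) A i) x| = |∫ qf (GX A (i ↦ sg (ε i) |g i|)) x ∂gm| ≤ ∫ F(…) (x·x)`, since `qf` is linear
in the matrix. And `∑_ε F (i ↦ sg (ε i) |g i|) = ∑_ε F (i ↦ sg (ε i) g i)` for every `g` (the set of the
sign vectors is permuted), and `∫ F (i ↦ sg (ε i) g i) ∂gm = ∫ F ∂gm` for every `ε` (symmetry of the
Gaussian law). So `∑_ε Φ ε = 2^n κ₁⁻¹ ∫ F`. -/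
def S_SGN : Prop :=
  ∀ m : ℕ, 1 ≤ m → ∃ C : ℝ, 0 < C ∧ ∀ (n N : ℕ) (A : Fin n → Matrix (Fin N) (Fin N) ℝ) (c T : ℝ),
    (∀ i, (A i).IsSymm) → 0 < c → 0 < T →
    (c • (1 : Matrix (Fin N) (Fin N) ℝ) - ∑ i, A i * A i).PosSemidef →
    (∑ i, A i * A i).trace ≤ T →
    ∃ Φ : (Fin n → Bool) → ℝ, (∀ ε, 0 ≤ Φ ε) ∧
      (∀ (ε : Fin n → Bool) (x : Fin N → ℝ), |qf (∑ i, sg (ε i) • A i) x| ≤ Φ ε * (x ⬝ᵥ x)) ∧
      ∑ ε, Φ ε ≤ 2 ^ n * (C * (c ^ (m - 1) * T) ^ (1 / (2 * m : ℝ)))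

/-- SGF: the same for arbitrary finite index types (transport by `Fintype.equivFin`,
`Matrix.reindex`). -/
def S_SGF : Prop :=
  ∀ m : ℕ, 1 ≤ m → ∃ C : ℝ, 0 < C ∧ ∀ (I J : Type) [Fintype I] [DecidableEq I] [Fintype J]
    [DecidableEq J] (A : I → Matrix J J ℝ) (c T : ℝ),
    (∀ i, (A i).IsSymm) → 0 < c → 0 < T →
    (c • (1 : Matrix J J ℝ) - ∑ i, A i * A i).PosSemidef → (∑ i, A i * A i).trace ≤ T →
    ∃ Φ : (I → Bool) → ℝ, (∀ ε, 0 ≤ Φ ε) ∧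
      (∀ (ε : I → Bool) (x : J → ℝ),
        |x ⬝ᵥ ((∑ i, sg (ε i) • A i) *ᵥ x)| ≤ Φ ε * (x ⬝ᵥ x)) ∧
      ∑ ε, Φ ε ≤ 2 ^ Fintype.card I * (C * (c ^ (m - 1) * T) ^ (1 / (2 * m : ℝ)))

/-- ANT: antisymmetric kernels with signs on a finite set, deterministic part (uses SGF).
Proof: apply SGF to `I = Sym2 Λ`, `J = Λ × Bool`, and the matrices
`A e p q = if s(p.1, q.1) = e then η p.2 q.2 * a p.1 q.1 else 0`, where `η false true = 1`,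
`η true false = -1`, `η b b = 0`. They are symmetric. `∑ e, A e * A e` is the diagonal matrix with the
entries `∑ w : Λ, a p.1 w ^ 2` (if `s(y,r) = s(r,w)` then `y = w`; use `η b b = 0`), so
`c • 1 - ∑ A e * A e ≥ 0` (diagonal with nonnegative entries), trace `= 2 ∑ y w, a y w ^ 2 ≤ 2 T`.
For `x = (u, v)`, `x (y, false) = u y`, `x (w, true) = v w`:
`x·(∑ sg (ε e) A e) x = 2 ∑ y w, a y w sg (ε s(y,w)) u y v w` and `x·x = ∑ u² + ∑ v²`. The constant changes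
by the factor `2^(1/(2m)) ≤ 2`. -/
def S_ANT : Prop :=
  ∀ m : ℕ, 1 ≤ m → ∃ C : ℝ, 0 < C ∧ ∀ (L : Type) [Fintype L] [DecidableEq L] (a : L → L → ℝ)
    (c T : ℝ), (∀ y w, a w y = - a y w) → 0 < c → 0 < T → (∀ y, ∑ w, a y w ^ 2 ≤ c) →
    ∑ y, ∑ w, a y w ^ 2 ≤ T →
    ∃ Φ : (Sym2 L → Bool) → ℝ, (∀ ε, 0 ≤ Φ ε) ∧
      (∀ (ε : Sym2 L → Bool) (u v : L → ℝ),
        |∑ y, ∑ w, a y w * sg (ε s(y, w)) * (u y * v w)| ≤ Φ ε * (∑ y, u y ^ 2 + ∑ y, v y ^ 2)) ∧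
      ∑ ε, Φ ε ≤ 2 ^ Fintype.card (Sym2 L) * (C * (c ^ (m - 1) * T) ^ (1 / (2 * m : ℝ)))

/-- PRB: the law of finitely many signs. Proof: `Sym2.map Subtype.val : Sym2 Λ → Sym2 (Fin d → ℤ)` is
injective, so the restriction `s ↦ fun e => s (e.map Subtype.val)` maps `Ps d` (an infinite product of
fair coins) to the product of fair coins over `Sym2 Λ`, which is the uniform distribution. -/
def S_PRB : Prop :=
  ∀ (d : ℕ) (Λ : Finset (Fin d → ℤ)) (P : Finset (Sym2 Λ → Bool)),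
    (Ps d) {s | (fun e : Sym2 Λ => s (e.map Subtype.val)) ∈ P} =
      ENNReal.ofReal ((P.card : ℝ) / 2 ^ Fintype.card (Sym2 Λ))

/-- COM: probability bound (uses ANT and PRB). Proof: ANT with `L = Λ` and Markov's inequality for
`Φ`: the number of the `e` with `Φ e > ε` is at most `(∑ Φ)/ε`. -/
def S_COM : Prop :=
  ∀ m : ℕ, 1 ≤ m → ∃ C : ℝ, 0 < C ∧ ∀ (d : ℕ) (Λ : Finset (Fin d → ℤ))
    (a : (Fin d → ℤ) → (Fin d → ℤ) → ℝ) (c T ε : ℝ), (∀ y w, a w y = - a y w) → 0 < c → 0 < T →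
    0 < ε → (∀ y ∈ Λ, ∑ w ∈ Λ, a y w ^ 2 ≤ c) → ∑ y ∈ Λ, ∑ w ∈ Λ, a y w ^ 2 ≤ T →
    (Ps d) {s | ¬ BdOn a ε Λ s} ≤
      ENNReal.ofReal (C * (c ^ (m - 1) * T) ^ (1 / (2 * m : ℝ)) / ε)

/-- LIM: infinite volume. Proof: `{s | ¬ BdOn a ε Λ s}` increases with `Λ` (extend `u`, `v` by zero), the
finite sets are directed and countable, and outer measures are continuous along countable directed
unions (`Directed.measure_iUnion`, no measurability is needed). -/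
def S_LIM : Prop :=
  ∀ (d : ℕ) (a : (Fin d → ℤ) → (Fin d → ℤ) → ℝ) (ε : ℝ) (p : ENNReal),
    (∀ Λ : Finset (Fin d → ℤ), (Ps d) {s | ¬ BdOn a ε Λ s} ≤ p) →
    (Ps d) {s | ¬ ∀ Λ, BdOn a ε Λ s} ≤ p

/-- CHI: cut-off functions on `ℤ^d` (sup norm). Proof: `χ y = min 1 (max 0 (2 - ‖y‖ / R))`; its support is
contained in the cube of the `y` with all `|y i| ≤ 2 R`, with `(4 R + 1)^d` points. -/
def S_CHI : Prop :=
  ∀ (d R : ℕ), 1 ≤ R → ∃ χ : (Fin d → ℤ) →₀ ℝ, (∀ y, 0 ≤ χ y ∧ χ y ≤ 1) ∧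
    (∀ y, ‖y‖ ≤ R → χ y = 1) ∧ (∀ y w, |χ y - χ w| ≤ ‖y - w‖ / R) ∧
    χ.support.card ≤ (4 * R + 1) ^ d

/-- ROW: the variances of the commutator with a cut-off. Proof: `|χ y - χ w| ≤ min 1 (‖y - w‖ / R)` and
`(min 1 t)^2 ≤ t^θ` for `t ≥ 0`, `0 < θ ≤ 2`; so `∑_{w ∈ Λ} ((χ y - χ w) κ(y-w))² ≤
R^(-θ) ∑_z κ(z)² ‖z‖^θ`. For the double sum: a term is zero unless `y` or `w` is in the support of `χ`,
and is at most `κ(y-w)²`. -/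
def S_ROW : Prop :=
  ∀ (d R : ℕ) (κ : (Fin d → ℤ) → ℝ) (θ : ℝ) (χ : (Fin d → ℤ) →₀ ℝ), 1 ≤ R → 0 < θ → θ ≤ 2 →
    (Summable fun y => κ y ^ 2) → (Summable fun z => κ z ^ 2 * ‖z‖ ^ θ) → (∀ y, κ (-y) = κ y) →
    (∀ y, 0 ≤ χ y ∧ χ y ≤ 1) → (∀ y w, |χ y - χ w| ≤ ‖y - w‖ / R) →
    (∀ (Λ : Finset (Fin d → ℤ)) (y : Fin d → ℤ),
      ∑ w ∈ Λ, ((χ y - χ w) * κ (y - w)) ^ 2 ≤ (R : ℝ) ^ (-θ) * ∑' z, κ z ^ 2 * ‖z‖ ^ θ) ∧
    ∀ Λ : Finset (Fin d → ℤ), ∑ y ∈ Λ, ∑ w ∈ Λ, ((χ y - χ w) * κ (y - w)) ^ 2 ≤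
      2 * χ.support.card * ∑' z, κ z ^ 2

/-- CUT: almost surely there are good cut-offs (uses COM, LIM, CHI, ROW).
Proof: for `R ≥ 1` let `χ_R` be the function of CHI and `a_R y w = (χ_R y - χ_R w) κ(y-w)`
(antisymmetric). By ROW, COM (with `c = R^(-θ) (K+1)`, `K = ∑ κ² ‖z‖^θ`, `T = 2 (4R+1)^d (‖κ‖²+1)`, and `m`
with `θ (m-1) > d`) and LIM the probability that `¬ ∀ Λ, BdOn a_R ε Λ s` tends to `0` for `R → ∞`, for
each `ε > 0`. So almost surely for all `k`, `N` there is `R ≥ N` with `∀ Λ, BdOn a_R (1/(k+1)) Λ s`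
(countably many null sets, each contained in sets of arbitrarily small measure). Then `CutOK`: given
`ε`, `F`, take `k` with `1/(k+1) ≤ ε/2` and `N` so large that `F` is contained in the ball of radius `N`
and `|ρ0| b / N ≤ ε/2`; the deterministic part is bounded by
`∑ |χ y - χ w| |T0 y w| |u y v w| ≤ (|ρ0|/R) ∑ |T0 y w| (u y ^ 2 + v w ^ 2)/2`, by `T0range`, `T0sum`, `T0symm`.
(`Kf T0 κ s y w = T0 y w + sg (s s(y,w)) * κ (y-w)`.) -/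
def S_CUT : Prop :=
  ∀ (d : ℕ) (T0 : (Fin d → ℤ) → (Fin d → ℤ) → ℝ) (κ : (Fin d → ℤ) → ℝ) (ρ0 b θ : ℝ),
    Adm T0 κ ρ0 b → 0 < θ → θ ≤ 2 → (Summable fun z => κ z ^ 2 * ‖z‖ ^ θ) →
    ∀ᵐ s ∂(Ps d), CutOK T0 κ s

/-- MEA: measurability of the event that there is an eigenvector which does not vanish at `x`.
Proof: for `n : ℕ` let `C_n` be the set of the `(q, E, ψ)`, `q = (V, s)`, with `|E| ≤ n`, `ψ x = 1`,
`∑_{y ∈ F} ψ y ^ 2 ≤ n` for all finite `F`, and `∑'_w Kf T0 κ s y w * ψ w + V y * ψ y = E ψ y` for all `y`.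
`C_n` is closed in the product topology: on `{ψ | ∑_F ψ² ≤ n for all F}` the function
`(s, ψ) ↦ ∑'_w Kf T0 κ s y w * ψ w` is continuous, being the uniform limit of the finite sums
(Cauchy-Schwarz, `|Kf|² ≤ 2 T0² + 2 κ²`, summable in `w`; `Kf_sq_le`, `Kf_sq_summable`, `cs_tsum`). The
`(E, ψ)` in question lie in the compact set `[-n, n] × ∏_y [-√n, √n]`, so the projection of `C_n` to the
`q` is closed (`IsCompact.…`/`isClosedMap_fst_of_compactSpace`), hence measurable (the measurable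
structure of the countable products is the Borel structure). The event is the union over `n` of
these projections (divide `ψ` by `ψ x`). -/
def S_MEA : Prop :=
  ∀ (d : ℕ) (T0 : (Fin d → ℤ) → (Fin d → ℤ) → ℝ) (κ : (Fin d → ℤ) → ℝ) (ρ0 b : ℝ),
    Adm T0 κ ρ0 b → ∀ x : Fin d → ℤ,
    MeasurableSet {q : ((Fin d → ℤ) → ℝ) × (Sym2 (Fin d → ℤ) → Bool) |
      ∃ (E : ℝ) (ψ : (Fin d → ℤ) → ℝ), IsEig T0 κ q.2 q.1 E ψ ∧ ψ x ≠ 0}

/-- POW1: the power law is summable. Proof: the number of `z ∈ ℤ^d` with `‖z‖ = k ≥ 1` (sup norm) is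
at most `2 d (2k+1)^(d-1)`; Mathlib has the summability of `‖z‖^(-r)`, `r > d`, over `ℤ^d`-type lattices
(`ZLattice.summable_norm_rpow`; or `Summable` of `∏ (1+|z i|)^(-r/d)` dominates). Take
`θ = min 1 ((2 α - d)/2)`. -/
def S_POW1 : Prop :=
  ∀ (d : ℕ) (α e : ℝ), 1 ≤ d → (d : ℝ) / 2 < α →
    (Summable fun z : Fin d → ℤ => (if z = 0 then 0 else e * ‖z‖ ^ (-α)) ^ 2) ∧
    ∃ θ : ℝ, 0 < θ ∧ θ ≤ 2 ∧
      Summable fun z : Fin d → ℤ => (if z = 0 then 0 else e * ‖z‖ ^ (-α)) ^ 2 * ‖z‖ ^ θ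

/-- POW2: the power law has many equal hopping amplitudes if `α < d`. Proof: for `L ≥ 1` take for `S` the
`z` with `L ≤ z i ≤ 2 L` for all `i`: `‖z‖` is between `L` and `2 L`, `(L+1)^d` points,
`β = |e| (2L)^(-α)`, `B = 2^α`, `β |S| ≥ |e| 2^(-α) L^(d-α) → ∞`. -/
def S_POW2 : Prop :=
  ∀ (d : ℕ) (α e : ℝ), 1 ≤ d → 0 < α → α < d → e ≠ 0 → ∃ B : ℝ, ∀ M : ℝ,
    ∃ (S : Finset (Fin d → ℤ)) (β : ℝ), 0 < β ∧ (0 : Fin d → ℤ) ∉ S ∧ S.Nonempty ∧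
      (∀ z ∈ S, β ≤ |(if z = 0 then 0 else e * ‖z‖ ^ (-α))| ∧
        |(if z = 0 then 0 else e * ‖z‖ ^ (-α))| ≤ B * β) ∧ M ≤ β * S.card

/-- INF: for almost all energies, potentials and signs there are trial functions with arbitrarily
small quotient (helper237). -/
def S_INF : Prop :=
  ∀ (d : ℕ) (T0 : (Fin d → ℤ) → (Fin d → ℤ) → ℝ) (κ : (Fin d → ℤ) → ℝ) (ρ0 b B : ℝ) (v : NNReal),
    Adm T0 κ ρ0 b → v ≠ 0 →
    (∀ M : ℝ, ∃ (S : Finset (Fin d → ℤ)) (β : ℝ), 0 < β ∧ (0 : Fin d → ℤ) ∉ S ∧ S.Nonempty ∧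
      (∀ z ∈ S, β ≤ |κ z| ∧ |κ z| ≤ B * β) ∧ M ≤ β * S.card) →
    ∀ x : Fin d → ℤ, ∀ᵐ p ∂((volume : Measure ℝ).prod ((PV d v).prod (Ps d))),
      ∀ M : ℕ, InfN T0 κ p.2.2 p.2.1 p.1 x M

/-- NOE: no eigenvalues (helper237; uses INF, CUT, MEA). -/
def S_NOE : Prop :=
  ∀ (d : ℕ) (T0 : (Fin d → ℤ) → (Fin d → ℤ) → ℝ) (κ : (Fin d → ℤ) → ℝ) (ρ0 b B θ : ℝ) (v : NNReal),
    Adm T0 κ ρ0 b → v ≠ 0 → 0 < θ → θ ≤ 2 → (Summable fun z => κ z ^ 2 * ‖z‖ ^ θ) →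
    (∀ M : ℝ, ∃ (S : Finset (Fin d → ℤ)) (β : ℝ), 0 < β ∧ (0 : Fin d → ℤ) ∉ S ∧ S.Nonempty ∧
      (∀ z ∈ S, β ≤ |κ z| ∧ |κ z| ≤ B * β) ∧ M ≤ β * S.card) →
    ∀ᵐ q ∂((PV d v).prod (Ps d)), ∀ (E : ℝ) (ψ : (Fin d → ℤ) → ℝ),
      IsEig T0 κ q.2 q.1 E ψ → ψ = 0

end Pool.Agent.Q237.LR
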