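import Pool.Agent.Q237.LR.Red2
import Pool.Agent.Q71.LR.ADJ
import Pool.Agent.Q223.LR.POW1
import Pool.Agent.Q31.LR.HOP
import Pool.Agent.Q58.LR.SCL

/-!
# Project LR: general profiles
-/

set_option autoImplicit false

namespace Pool.Agent.Q237.LR4

open MeasureTheory ProbabilityTheory Set H10PL Pool.Agent.Q237.LR3

variable {d : ℕ}

theorem adjP : S_ADJ := Pool.Agent.Q71.LR.adj Pool.Agent.Q223.LR.pow1

theorem one_le_norm {z : Fin d → ℤ} (hz : z ≠ 0) : (1 : ℝ) ≤ ‖z‖ := by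
  obtain ⟨i, hi⟩ : ∃ i, z i ≠ 0 := by
    by_contra h
    push Not at h
    exact hz (funext h)
  have h1 : ‖z i‖ ≤ ‖z‖ := norm_le_pi_norm z i
  have h2 : (1 : ℝ) ≤ ‖z i‖ := by
    rw [Int.norm_eq_abs]
    exact_mod_cast Int.one_le_abs hi
  linarith

theorem sum_lower {κ : (Fin d → ℤ) → ℝ} (h0 : κ 0 = 0) {θ θ' : ℝ} (h : θ' ≤ θ)
    (hsum : Summable fun z => κ z ^ 2 * ‖z‖ ^ θ) : Summable fun z => κ z ^ 2 * ‖z‖ ^ θ' := by
  refine Summable.of_nonneg_of_le (fun z => by positivity) (fun z => ?_) hsum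
  by_cases hz : z = 0
  · simp [hz, h0]
  · have h1 := one_le_norm hz
    exact mul_le_mul_of_nonneg_left (Real.rpow_le_rpow_of_exponent_le h1 h) (sq_nonneg _)

/-- a general profile is admissible -/
theorem adm_gen (hd : 1 ≤ d) {κ : (Fin d → ℤ) → ℝ} (h0 : κ 0 = 0) (hs : ∀ z, κ (-z) = κ z)
    {θ : ℝ} (hθ : 0 < θ) (hsum : Summable fun z => κ z ^ 2 * ‖z‖ ^ θ) :
    Adm (nn d) κ 1 (2 * d) ∧
      (0 < min θ 1 ∧ min θ 1 ≤ 2 ∧ Summable fun z => κ z ^ 2 * ‖z‖ ^ (min θ 1)) := by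
  have hd0 : (1 : ℝ) ≤ d := by exact_mod_cast hd
  have h := (adjP d d 1 hd (by linarith)).1
  refine ⟨⟨h.T0symm, h.T0diag, h.T0range, h.T0sum, h0, hs, ?_⟩, lt_min hθ one_pos,
    (min_le_right _ _).trans (by norm_num), sum_lower h0 (min_le_left _ _) hsum⟩
  have h1 := sum_lower (θ' := 0) h0 hθ.le hsum
  simpa using h1

/-- minus the nearest neighbour hopping -/
theorem adm_neg {T0 : (Fin d → ℤ) → (Fin d → ℤ) → ℝ} {κ : (Fin d → ℤ) → ℝ} {ρ0 b : ℝ}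
    (h : Adm T0 κ ρ0 b) : Adm (fun y w => - T0 y w) κ ρ0 b :=
  ⟨fun y w => by rw [h.T0symm], fun y => by rw [h.T0diag, neg_zero],
    fun y w hyw => by rw [h.T0range y w hyw, neg_zero],
    fun y F => by simpa using h.T0sum y F, h.κ0, h.κsymm, h.κsq⟩

/-- the nearest neighbour sum -/
theorem nn_sum (ψ : (Fin d → ℤ) → ℂ) (x : Fin d → ℤ) :
    (Summable fun y => (nn d x y : ℂ) * ψ y) ∧
    ∑' y, (nn d x y : ℂ) * ψ y = ∑ i, (ψ (x + Pi.single i 1) + ψ (x - Pi.single i 1)) := by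
  have h1 := Pool.Agent.Q31.LR.hop d (fun y => (ψ y).re) x
  have h2 := Pool.Agent.Q31.LR.hop d (fun y => (ψ y).im) x
  have h3 : Summable fun w => nn d x w * (ψ w).re := summable_of_hasFiniteSupport h1.1
  have h4 : Summable fun w => nn d x w * (ψ w).im := summable_of_hasFiniteSupport h2.1
  have h5 := csum (fun w => nn d x w) ψ h3 h4
  refine ⟨h5.1, ?_⟩
  apply Complex.ext
  · rw [h5.2.1, h1.2, Complex.re_sum]
    simp
  · rw [h5.2.2, h2.2, Complex.im_sum]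
    simp

end Pool.Agent.Q237.LR4
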