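import Pool.Agent.Q237.LR.Spr
import Pool.Agent.Q192.LR.LP3

/-!
# Project LR: theorem 2, change of variables for the potential
-/

set_option autoImplicit false

namespace Pool.Agent.Q237.LR4

open MeasureTheory ProbabilityTheory Set H10PL Pool.Agent.Q237.LR3

variable {d : ℕ}

/-- the law of `a + l ω` has a bounded density -/
theorem dens (ν : Measure ℝ) {D : ℝ} (hD : 0 ≤ D) (hν : ν ≤ ENNReal.ofReal D • volume) (a : ℝ)
    {l : ℝ} (hl : l ≠ 0) :
    ν.map (fun w => a + l * w) ≤ ENNReal.ofReal (D * |l⁻¹|) • volume := by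
  have hm1 : Measurable fun w : ℝ => l * w := measurable_const_mul l
  have hm2 : Measurable fun w : ℝ => a + w := measurable_const_add a
  have e1 : (volume : Measure ℝ).map (fun w => a + l * w) = ENNReal.ofReal |l⁻¹| • volume := by
    have e2 : (fun w : ℝ => a + l * w) = (fun w => a + w) ∘ fun w => l * w := rfl
    rw [e2, ← Measure.map_map hm2 hm1, Real.map_volume_mul_left hl, Measure.map_smul,
      map_add_left_eq_self]
  calc ν.map (fun w => a + l * w) ≤ (ENNReal.ofReal D • (volume : Measure ℝ)).map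
        (fun w => a + l * w) := Measure.map_mono hν (hm2.comp hm1)
    _ = ENNReal.ofReal (D * |l⁻¹|) • volume := by
        rw [Measure.map_smul, e1, smul_smul, ENNReal.ofReal_mul hD]

/-- the product measure -/
theorem push (ν : Measure ℝ) [IsProbabilityMeasure ν] (a l : ℝ) :
    MeasurePreserving (fun (ω : (Fin d → ℤ) → ℝ) (x : Fin d → ℤ) => a + l * ω x)
      (Measure.infinitePi fun _ : (Fin d → ℤ) => ν)
      (Measure.infinitePi fun _ : (Fin d → ℤ) => ν.map (fun w => a + l * w)) := by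
  have hm : Measurable fun w : ℝ => a + l * w := (measurable_const_mul l).const_add a
  haveI : IsProbabilityMeasure (ν.map (fun w => a + l * w)) :=
    Measure.isProbabilityMeasure_map hm.aemeasurable
  have hmeas : Measurable (fun (ω : (Fin d → ℤ) → ℝ) (x : Fin d → ℤ) => a + l * ω x) := by
    fun_prop
  refine ⟨hmeas, ?_⟩
  refine Measure.eq_infinitePi _ fun s t ht => ?_
  rw [Measure.map_apply hmeas (MeasurableSet.pi s.countable_toSet fun i _ => ht i)]
  have hpre : (fun (ω : (Fin d → ℤ) → ℝ) (x : Fin d → ℤ) => a + l * ω x) ⁻¹' (Set.pi s t) =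
      Set.pi s (fun i => (fun y : ℝ => a + l * y) ⁻¹' t i) := by
    ext ξ; rfl
  rw [hpre, Measure.infinitePi_pi _ (fun i _ => hm (ht i))]
  refine Finset.prod_congr rfl fun i _ => ?_
  rw [← Measure.map_apply hm (ht i)]

/-- theorem 2 with the potential `a + l ω` -/
theorem main3 (hN : Pool.Agent.Q237.LR2.S_NOE2) (d : ℕ) (T0 : (Fin d → ℤ) → (Fin d → ℤ) → ℝ)
    (κ : (Fin d → ℤ) → ℝ) (ρ0 b θ D a l : ℝ) (ν : Measure ℝ) [hνp : IsProbabilityMeasure ν]
    (hD : 0 ≤ D) (hν : ν ≤ ENNReal.ofReal D • volume) (hl : l ≠ 0) (h : Adm T0 κ ρ0 b)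
    (hinv : ∀ a y w, T0 (y + a) (w + a) = T0 y w) (hθ : 0 < θ) (hθ2 : θ ≤ 2)
    (hsum : Summable fun z => κ z ^ 2 * ‖z‖ ^ θ) (hB : Pool.Agent.Q237.LR2.Boxes κ) :
    ∀ᵐ p ∂((Measure.infinitePi fun _ : (Fin d → ℤ) => ν).prod
      (Measure.infinitePi fun _ : Sym2 (Fin d → ℤ) => coin)),
      ∀ ψ : (Fin d → ℤ) → ℂ, Summable (fun y => ‖ψ y‖ ^ 2) → ∀ z : ℂ,
        (∀ x, HK T0 κ p.2 (fun y => a + l * p.1 y) ψ x = z * ψ x) → ψ = 0 := by
  have hm : Measurable fun w : ℝ => a + l * w := (measurable_const_mul l).const_add a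
  haveI : IsProbabilityMeasure (ν.map (fun w => a + l * w)) :=
    Measure.isProbabilityMeasure_map hm.aemeasurable
  have key := main2 hN d T0 κ ρ0 b θ (D * |l⁻¹|) (ν.map (fun w => a + l * w)) (by positivity)
    (dens ν hD hν a hl) h hinv hθ hθ2 hsum hB
  have hmp2 : MeasurePreserving
      (Prod.map (fun (ω : (Fin d → ℤ) → ℝ) (x : Fin d → ℤ) => a + l * ω x)
        (id : (Sym2 (Fin d → ℤ) → Bool) → _))
      ((Measure.infinitePi fun _ : (Fin d → ℤ) => ν).prod
        (Measure.infinitePi fun _ : Sym2 (Fin d → ℤ) => coin))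
      ((Measure.infinitePi fun _ : (Fin d → ℤ) => ν.map (fun w => a + l * w)).prod
        (Measure.infinitePi fun _ : Sym2 (Fin d → ℤ) => coin)) :=
    (push ν a l).prod (MeasurePreserving.id _)
  exact hmp2.quasiMeasurePreserving.ae key

end Pool.Agent.Q237.LR4
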