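import Pool.Agent.Q237.LR.Stm2

/-!
# Project LR: nearest neighbour hopping and the power law
-/

set_option autoImplicit false

namespace Pool.Agent.Q237.LR3

open MeasureTheory ProbabilityTheory Set H10PL

/-- nearest neighbour hopping -/
noncomputable def nn (d : ℕ) (y w : Fin d → ℤ) : ℝ :=
  ∑ i, ((if w = y + Pi.single i 1 then 1 else 0) + (if w = y - Pi.single i 1 then 1 else 0))

/-- the power law -/
noncomputable def pw (d : ℕ) (α e : ℝ) (z : Fin d → ℤ) : ℝ := if z = 0 then 0 else e * ‖z‖ ^ (-α)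

/-- ADJ: nearest neighbour hopping and the power law are admissible (uses `S_POW1` of Stm, which is proved:
take it as a hypothesis `h : Pool.Agent.Q237.LR.S_POW1` or prove the summability with
`Pool.Agent.Q223.LR.pow1`), and translation invariance. -/
def S_ADJ : Prop :=
  ∀ (d : ℕ) (α e : ℝ), 1 ≤ d → (d : ℝ) / 2 < α → Adm (nn d) (pw d α e) 1 (2 * d) ∧
    ∀ a y w : Fin d → ℤ, nn d (y + a) (w + a) = nn d y w

/-- HOP: the action of the nearest neighbour hopping. -/
def S_HOP : Prop :=
  ∀ (d : ℕ) (ψ : (Fin d → ℤ) → ℝ) (y : Fin d → ℤ),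
    (Function.support fun w => nn d y w * ψ w).Finite ∧
    ∑' w, nn d y w * ψ w = ∑ i, (ψ (y + Pi.single i 1) + ψ (y - Pi.single i 1))

/-- SCL: scaling of the Gaussian potential (`gaussianReal_map_const_mul`, `Measure.infinitePi_map_pi` or
uniqueness of infinite products `Measure.eq_infinitePi`). -/
def S_SCL : Prop :=
  ∀ (d : ℕ) (σ : ℝ), PV d ⟨σ ^ 2, sq_nonneg σ⟩ =
    (Measure.infinitePi fun _ : (Fin d → ℤ) => gaussianReal 0 1).map fun ξ x => σ * ξ x

end Pool.Agent.Q237.LR3
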