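import Pool.Agent.Q237.LR.Cut
import Pool.Agent.Q237.LR.ESA
import Pool.Agent.Q237.LR.Stm3
import Pool.Agent.Q223.LR.POW1
import Pool.Agent.Q181.LR.POW2

/-!
# Project LR: reduction of the complex equation with power-law hopping
-/

set_option autoImplicit false

namespace Pool.Agent.Q237.LR3

open MeasureTheory ProbabilityTheory Set H10PL

/-- the hopping amplitude -/
noncomputable def hop {d : ℕ} (α e : ℝ) (s : Sym2 (Fin d → ℤ) → Bool) (x y : Fin d → ℤ) : ℝ :=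
  if y = x then 0 else e * sg (s s(x, y)) * ‖x - y‖ ^ (-α)

/-- the operator -/
noncomputable def HC {d : ℕ} (α e : ℝ) (s : Sym2 (Fin d → ℤ) → Bool) (V : (Fin d → ℤ) → ℝ)
    (ψ : (Fin d → ℤ) → ℂ) (x : Fin d → ℤ) : ℂ :=
  ∑ i, (ψ (x + Pi.single i 1) + ψ (x - Pi.single i 1)) + ∑' y, (hop α e s x y : ℂ) * ψ y +
    (V x : ℂ) * ψ x

variable {d : ℕ} {α e : ℝ}

theorem hop_eq (s : Sym2 (Fin d → ℤ) → Bool) (x y : Fin d → ℤ) :
    hop α e s x y = sg (s s(x, y)) * pw d α e (x - y) := by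
  unfold hop pw
  by_cases h : y = x
  · simp [h]
  · have h2 : ¬ (x - y = 0) := fun h3 => h (sub_eq_zero.1 h3).symm
    simp only [h, h2, if_false]
    ring

/-- real part -/
theorem real_part (hH : S_HOP) (h : Adm (nn d) (pw d α e) 1 (2 * d))
    (s : Sym2 (Fin d → ℤ) → Bool) (u : (Fin d → ℤ) → ℝ) (hu : Summable fun y => u y ^ 2)
    (x : Fin d → ℤ) :
    Summable (fun y => hop α e s x y * u y) ∧
    ∑' w, Kf (nn d) (pw d α e) s x w * u w =
      ∑ i, (u (x + Pi.single i 1) + u (x - Pi.single i 1)) + ∑' y, hop α e s x y * u y := by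
  have h1 := (cs_tsum (Kf_sq_summable h s x) hu).1
  have h2 : Summable fun w => nn d x w * u w := summable_of_hasFiniteSupport (hH d u x).1
  have h3 : ∀ w, hop α e s x w * u w = Kf (nn d) (pw d α e) s x w * u w - nn d x w * u w := by
    intro w
    rw [hop_eq]
    unfold Kf
    ring
  have h4 : Summable (fun y => hop α e s x y * u y) := by
    simp_rw [h3]
    exact h1.sub h2
  refine ⟨h4, ?_⟩
  have h5 : ∀ w, Kf (nn d) (pw d α e) s x w * u w = nn d x w * u w + hop α e s x w * u w := by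
    intro w
    rw [h3]
    ring
  simp_rw [h5]
  rw [h2.tsum_add h4, (hH d u x).2]

theorem complex_sum (hH : S_HOP) (h : Adm (nn d) (pw d α e) 1 (2 * d))
    (s : Sym2 (Fin d → ℤ) → Bool) (ψ : (Fin d → ℤ) → ℂ) (hψ : Summable fun y => ‖ψ y‖ ^ 2)
    (x : Fin d → ℤ) :
    Summable (fun y => (hop α e s x y : ℂ) * ψ y) ∧
    (∑' y, (hop α e s x y : ℂ) * ψ y).re = ∑' y, hop α e s x y * (ψ y).re ∧
    (∑' y, (hop α e s x y : ℂ) * ψ y).im = ∑' y, hop α e s x y * (ψ y).im := by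
  have hre : Summable fun y => (ψ y).re ^ 2 := by
    refine Summable.of_nonneg_of_le (fun y => sq_nonneg _) (fun y => ?_) hψ
    rw [← sq_abs]
    exact pow_le_pow_left₀ (abs_nonneg _) (Complex.abs_re_le_norm _) 2
  have him : Summable fun y => (ψ y).im ^ 2 := by
    refine Summable.of_nonneg_of_le (fun y => sq_nonneg _) (fun y => ?_) hψ
    rw [← sq_abs]
    exact pow_le_pow_left₀ (abs_nonneg _) (Complex.abs_im_le_norm _) 2
  have h1 := (real_part hH h s _ hre x).1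
  have h2 := (real_part hH h s _ him x).1
  have h3 : HasSum (fun y => (hop α e s x y : ℂ) * ψ y)
      (⟨∑' y, hop α e s x y * (ψ y).re, ∑' y, hop α e s x y * (ψ y).im⟩ : ℂ) := by
    rw [Complex.hasSum_iff]
    constructor
    · simpa using h1.hasSum
    · simpa using h2.hasSum
  refine ⟨h3.summable, ?_, ?_⟩
  · rw [h3.tsum_eq]
  · rw [h3.tsum_eq]

/-- from real eigenvectors to complex ones -/
theorem reduce (hH : S_HOP) (h : Adm (nn d) (pw d α e) 1 (2 * d))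
    (s : Sym2 (Fin d → ℤ) → Bool) (V : (Fin d → ℤ) → ℝ) (hc : CutOK (nn d) (pw d α e) s)
    (hn : ∀ (E : ℝ) (φ : (Fin d → ℤ) → ℝ), IsEig (nn d) (pw d α e) s V E φ → φ = 0)
    (z : ℂ) (ψ : (Fin d → ℤ) → ℂ) (hψ : Summable fun y => ‖ψ y‖ ^ 2)
    (hz : ∀ x, HC α e s V ψ x = z * ψ x) : ψ = 0 := by
  have hre : Summable fun y => (ψ y).re ^ 2 := by
    refine Summable.of_nonneg_of_le (fun y => sq_nonneg _) (fun y => ?_) hψ
    rw [← sq_abs]
    exact pow_le_pow_left₀ (abs_nonneg _) (Complex.abs_re_le_norm _) 2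
  have him : Summable fun y => (ψ y).im ^ 2 := by
    refine Summable.of_nonneg_of_le (fun y => sq_nonneg _) (fun y => ?_) hψ
    rw [← sq_abs]
    exact pow_le_pow_left₀ (abs_nonneg _) (Complex.abs_im_le_norm _) 2
  have e1 : ∀ y, (∑' w, Kf (nn d) (pw d α e) s y w * (ψ w).re) + V y * (ψ y).re =
      z.re * (ψ y).re - z.im * (ψ y).im := by
    intro y
    have h1 := congrArg Complex.re (hz y)
    rw [(real_part hH h s _ hre y).2, ← (complex_sum hH h s ψ hψ y).2.1]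
    unfold HC at h1
    simpa using h1
  have e2 : ∀ y, (∑' w, Kf (nn d) (pw d α e) s y w * (ψ w).im) + V y * (ψ y).im =
      z.re * (ψ y).im + z.im * (ψ y).re := by
    intro y
    have h1 := congrArg Complex.im (hz y)
    rw [(real_part hH h s _ him y).2, ← (complex_sum hH h s ψ hψ y).2.2]
    unfold HC at h1
    simpa using h1
  by_cases hzi : z.im = 0
  · have h1 : (fun y => (ψ y).re) = 0 := hn z.re _ ⟨hre, fun y => by rw [e1 y, hzi]; ring⟩
    have h2 : (fun y => (ψ y).im) = 0 := hn z.re _ ⟨him, fun y => by rw [e2 y, hzi]; ring⟩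
    funext y
    exact Complex.ext (congrFun h1 y) (congrFun h2 y)
  · funext y
    have h1 := Pool.Agent.Q237.LR.no_nonreal h s hc V z.re z.im hzi _ _ hre him e1 e2 y
    exact Complex.ext h1.1 h1.2

theorem many_pw (hd : 1 ≤ d) (h0 : 0 < α) (h2 : α < d) (he : e ≠ 0) :
    ∃ B : ℝ, Pool.Agent.Q237.LR.Many (pw d α e) B := by
  obtain ⟨B, hB⟩ := Pool.Agent.Q181.LR.pow2 d α e hd h0 h2 he
  exact ⟨B, hB⟩

/-- theorem 1 -/
theorem main1 (hA : S_ADJ) (hH : S_HOP) (hS : S_SCL) (d : ℕ) (α e σ : ℝ) (hd : 1 ≤ d)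
    (h1 : (d : ℝ) / 2 < α) (h2 : α < d) (he : e ≠ 0) (hσ : σ ≠ 0) :
    ∀ᵐ p ∂((Measure.infinitePi fun _ : (Fin d → ℤ) => gaussianReal 0 1).prod
      (Measure.infinitePi fun _ : Sym2 (Fin d → ℤ) => coin)),
      ∀ (z : ℂ) (ψ : (Fin d → ℤ) → ℂ), Summable (fun y => ‖ψ y‖ ^ 2) →
        (∀ x, HC α e p.2 (fun y => σ * p.1 y) ψ x = z * ψ x) → ψ = 0 := by
  have hadm := (hA d α e hd h1).1
  have h0 : 0 < α := lt_of_le_of_lt (by positivity) h1
  obtain ⟨B, hB⟩ := many_pw (d := d) (α := α) (e := e) hd h0 h2 he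
  obtain ⟨-, θ, hθ, hθ2, hsum⟩ := Pool.Agent.Q223.LR.pow1 d α e hd h1
  have hv : (⟨σ ^ 2, sq_nonneg σ⟩ : NNReal) ≠ 0 := by
    intro h3
    have h4 : σ ^ 2 = 0 := congrArg NNReal.toReal h3
    exact hσ (pow_eq_zero_iff (two_ne_zero) |>.1 h4)
  have key := Pool.Agent.Q237.LR.noeAll d (nn d) (pw d α e) 1 (2 * d) B θ
    ⟨σ ^ 2, sq_nonneg σ⟩ hadm hv hθ hθ2 hsum hB
  have hcut : ∀ᵐ q ∂((Measure.infinitePi fun _ : (Fin d → ℤ) => gaussianReal 0 1).prod (Ps d)),
      CutOK (nn d) (pw d α e) q.2 :=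
    Measure.quasiMeasurePreserving_snd.ae
      (Pool.Agent.Q237.LR.cut d (nn d) (pw d α e) 1 (2 * d) θ hadm hθ hθ2 hsum)
  have hmp : MeasurePreserving (fun (ξ : (Fin d → ℤ) → ℝ) x => σ * ξ x)
      (Measure.infinitePi fun _ : (Fin d → ℤ) => gaussianReal 0 1) (PV d ⟨σ ^ 2, sq_nonneg σ⟩) := by
    refine ⟨?_, (hS d σ).symm⟩
    refine measurable_pi_lambda _ fun x => ?_
    exact Measurable.const_mul (measurable_pi_apply (X := fun _ : (Fin d → ℤ) => ℝ) x) σ
  have hmp2 : MeasurePreserving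
      (Prod.map (fun (ξ : (Fin d → ℤ) → ℝ) x => σ * ξ x) (id : (Sym2 (Fin d → ℤ) → Bool) → _))
      ((Measure.infinitePi fun _ : (Fin d → ℤ) => gaussianReal 0 1).prod (Ps d))
      ((PV d ⟨σ ^ 2, sq_nonneg σ⟩).prod (Ps d)) := hmp.prod (MeasurePreserving.id _)
  have key2 := hmp2.quasiMeasurePreserving.ae key
  filter_upwards [key2, hcut] with p hp hc z ψ hψ hz
  exact reduce hH hadm p.2 (fun y => σ * p.1 y) hc hp z ψ hψ hz

end Pool.Agent.Q237.LR3
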