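import Pool.Agent.Q237.LR.Stm3
import Pool.Agent.Q237.LR.INF

/-!
# Project LR: power law with a logarithm
-/

set_option autoImplicit false

namespace Pool.Agent.Q237.LR4

open MeasureTheory ProbabilityTheory Set H10PL Pool.Agent.Q237.LR3

/-- the power law with a power of the logarithm -/
noncomputable def pl (d : ℕ) (α γ e : ℝ) (z : Fin d → ℤ) : ℝ :=
  if z = 0 then 0 else e * ‖z‖ ^ (-α) * Real.log (1 + ‖z‖) ^ γ

/-- LP1: admissible and summable. Proof: `|κ z| ≤ C ‖z‖ ^ (-α')` for `d/2 < α' < α` (for `t ≥ 1`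
`log (1 + t) ^ γ ≤ C t ^ (α - α')`), then `Pool.Agent.Q223.LR.pow1` with `α'` and `e = C`. The part on
`nn` is the proof of `S_ADJ` (take `S_ADJ` as a hypothesis: all fields for `T0` from `(h d α e ..).1`). -/
def S_LP1 : Prop :=
  ∀ (d : ℕ) (α γ e : ℝ), 1 ≤ d → (d : ℝ) / 2 < α → 0 ≤ γ → Adm (nn d) (pl d α γ e) 1 (2 * d) ∧
    ∃ θ : ℝ, 0 < θ ∧ θ ≤ 2 ∧ Summable fun z : Fin d → ℤ => pl d α γ e z ^ 2 * ‖z‖ ^ θ

/-- LP2: many sites with comparable amplitudes. Proof: as for `Pool.Agent.Q181.LR.pow2`: `S` the `z` with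
`L ≤ z i ≤ 2 L` for all `i`, `L ≥ 1`: `‖z‖` is between `L` and `2 L`, `log (1 + L) ≤ log (1 + ‖z‖) ≤
2 log (1 + L)`; `β = |e| (2L)^(-α) (log (1 + L))^γ`, `B = 2^α 2^γ`,
`β |S| ≥ |e| 2^(-α) L^(d-α) (log (1 + L))^γ → ∞` (one factor tends to infinity, the other is bounded
below by a positive constant). -/
def S_LP2 : Prop :=
  ∀ (d : ℕ) (α γ e : ℝ), 1 ≤ d → 0 < α → α ≤ d → 0 ≤ γ → (α < d ∨ 0 < γ) → e ≠ 0 →
    ∃ B : ℝ, Pool.Agent.Q237.LR.Many (pl d α γ e) B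

/-- LP3: boxes. Proof: as for `Pool.Agent.Q26.LR.pow3`: `Q` the cube `[0, L)^d`, `F x` the `y ∈ Q` with
`‖x - y‖ ≥ t L`, `β = |e| L^(-α) (log (1 + t L))^γ`; for `t L ≥ 1`
`log (1 + L) ≤ log (1 + t L) + log (1/t) ≤ (1 + log (1/t) / log 2) log (1 + t L)`. -/
def S_LP3 : Prop :=
  ∀ (d : ℕ) (α γ e : ℝ), 1 ≤ d → 0 < α → α ≤ d → 0 ≤ γ → (α < d ∨ 0 < γ) → e ≠ 0 →
    Pool.Agent.Q237.LR2.Boxes (pl d α γ e)

end Pool.Agent.Q237.LR4
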