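import Pool.Agent.Q237.LR.Cut
import Pool.Agent.Q237.LR.ESA
import Pool.Agent.Q237.LR.Stm4
import Pool.Agent.Q237.LR.NOE2

/-!
# Project LR: reduction of the complex equation, general profiles
-/

set_option autoImplicit false

namespace Pool.Agent.Q237.LR4

open MeasureTheory ProbabilityTheory Set H10PL Pool.Agent.Q237.LR3

variable {d : ℕ}

/-- the operator, with a deterministic finite range kernel `T0` -/
noncomputable def HK (T0 : (Fin d → ℤ) → (Fin d → ℤ) → ℝ) (κ : (Fin d → ℤ) → ℝ)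
    (s : Sym2 (Fin d → ℤ) → Bool) (V : (Fin d → ℤ) → ℝ)
    (ψ : (Fin d → ℤ) → ℂ) (x : Fin d → ℤ) : ℂ :=
  (∑' y, (T0 x y : ℂ) * ψ y) + ∑' y, ((sg (s s(x, y)) * κ (x - y) : ℝ) : ℂ) * ψ y +
    (V x : ℂ) * ψ x

variable {T0 : (Fin d → ℤ) → (Fin d → ℤ) → ℝ} {κ : (Fin d → ℤ) → ℝ} {ρ0 b : ℝ}

theorem T0_sq (h : Adm T0 κ ρ0 b) (y : Fin d → ℤ) : Summable fun w => T0 y w ^ 2 := by
  have h1 : Summable fun w => |T0 y w| :=
    summable_of_sum_le (fun w => abs_nonneg _) (fun F => h.T0sum y F)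
  refine Summable.of_nonneg_of_le (fun w => sq_nonneg _) (fun w => ?_) (h1.mul_left b)
  have h3 : |T0 y w| ≤ b := by simpa using h.T0sum y {w}
  rw [← sq_abs, sq]
  exact mul_le_mul_of_nonneg_right h3 (abs_nonneg _)

/-- real part -/
theorem real_part (h : Adm T0 κ ρ0 b)
    (s : Sym2 (Fin d → ℤ) → Bool) (u : (Fin d → ℤ) → ℝ) (hu : Summable fun y => u y ^ 2)
    (x : Fin d → ℤ) :
    Summable (fun y => T0 x y * u y) ∧ Summable (fun y => sg (s s(x, y)) * κ (x - y) * u y) ∧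
    ∑' w, Kf T0 κ s x w * u w =
      ∑' y, T0 x y * u y + ∑' y, sg (s s(x, y)) * κ (x - y) * u y := by
  have h1 := (cs_tsum (Kf_sq_summable h s x) hu).1
  have h2 := (cs_tsum (T0_sq h x) hu).1
  have h3 : ∀ w, sg (s s(x, w)) * κ (x - w) * u w = Kf T0 κ s x w * u w - T0 x w * u w := by
    intro w
    unfold Kf
    ring
  have h4 : Summable (fun y => sg (s s(x, y)) * κ (x - y) * u y) := by
    simp_rw [h3]
    exact h1.sub h2
  refine ⟨h2, h4, ?_⟩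
  have h5 : ∀ w, Kf T0 κ s x w * u w = T0 x w * u w + sg (s s(x, w)) * κ (x - w) * u w := by
    intro w
    rw [h3]
    ring
  simp_rw [h5]
  rw [h2.tsum_add h4]

theorem csum (a : (Fin d → ℤ) → ℝ) (ψ : (Fin d → ℤ) → ℂ)
    (h1 : Summable fun y => a y * (ψ y).re) (h2 : Summable fun y => a y * (ψ y).im) :
    Summable (fun y => (a y : ℂ) * ψ y) ∧
    (∑' y, (a y : ℂ) * ψ y).re = ∑' y, a y * (ψ y).re ∧
    (∑' y, (a y : ℂ) * ψ y).im = ∑' y, a y * (ψ y).im := by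
  have h3 : HasSum (fun y => (a y : ℂ) * ψ y)
      (⟨∑' y, a y * (ψ y).re, ∑' y, a y * (ψ y).im⟩ : ℂ) := by
    rw [Complex.hasSum_iff]
    constructor
    · simpa using h1.hasSum
    · simpa using h2.hasSum
  refine ⟨h3.summable, ?_, ?_⟩
  · rw [h3.tsum_eq]
  · rw [h3.tsum_eq]

theorem sum_re (ψ : (Fin d → ℤ) → ℂ) (hψ : Summable fun y => ‖ψ y‖ ^ 2) :
    (Summable fun y => (ψ y).re ^ 2) ∧ Summable fun y => (ψ y).im ^ 2 := by
  constructor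
  · refine Summable.of_nonneg_of_le (fun y => sq_nonneg _) (fun y => ?_) hψ
    rw [← sq_abs]
    exact pow_le_pow_left₀ (abs_nonneg _) (Complex.abs_re_le_norm _) 2
  · refine Summable.of_nonneg_of_le (fun y => sq_nonneg _) (fun y => ?_) hψ
    rw [← sq_abs]
    exact pow_le_pow_left₀ (abs_nonneg _) (Complex.abs_im_le_norm _) 2

/-- the series converge -/
theorem converge (h : Adm T0 κ ρ0 b)
    (s : Sym2 (Fin d → ℤ) → Bool) (ψ : (Fin d → ℤ) → ℂ) (hψ : Summable fun y => ‖ψ y‖ ^ 2)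
    (x : Fin d → ℤ) : Summable fun y => ((sg (s s(x, y)) * κ (x - y) : ℝ) : ℂ) * ψ y := by
  obtain ⟨hre, him⟩ := sum_re ψ hψ
  exact (csum (fun y => sg (s s(x, y)) * κ (x - y)) ψ (real_part h s _ hre x).2.1
    (real_part h s _ him x).2.1).1

/-- from real eigenvectors to complex ones -/
theorem reduce (h : Adm T0 κ ρ0 b)
    (s : Sym2 (Fin d → ℤ) → Bool) (V : (Fin d → ℤ) → ℝ) (hc : CutOK T0 κ s)
    (hn : ∀ (E : ℝ) (φ : (Fin d → ℤ) → ℝ), IsEig T0 κ s V E φ → φ = 0)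
    (z : ℂ) (ψ : (Fin d → ℤ) → ℂ) (hψ : Summable fun y => ‖ψ y‖ ^ 2)
    (hz : ∀ x, HK T0 κ s V ψ x = z * ψ x) : ψ = 0 := by
  obtain ⟨hre, him⟩ := sum_re ψ hψ
  have e1 : ∀ y, (∑' w, Kf T0 κ s y w * (ψ w).re) + V y * (ψ y).re =
      z.re * (ψ y).re - z.im * (ψ y).im := by
    intro y
    have h1 := congrArg Complex.re (hz y)
    rw [(real_part h s _ hre y).2.2,
      ← (csum (fun w => T0 y w) ψ (real_part h s _ hre y).1 (real_part h s _ him y).1).2.1,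
      ← (csum (fun w => sg (s s(y, w)) * κ (y - w)) ψ (real_part h s _ hre y).2.1
        (real_part h s _ him y).2.1).2.1]
    unfold HK at h1
    simpa using h1
  have e2 : ∀ y, (∑' w, Kf T0 κ s y w * (ψ w).im) + V y * (ψ y).im =
      z.re * (ψ y).im + z.im * (ψ y).re := by
    intro y
    have h1 := congrArg Complex.im (hz y)
    rw [(real_part h s _ him y).2.2,
      ← (csum (fun w => T0 y w) ψ (real_part h s _ hre y).1 (real_part h s _ him y).1).2.2,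
      ← (csum (fun w => sg (s s(y, w)) * κ (y - w)) ψ (real_part h s _ hre y).2.1
        (real_part h s _ him y).2.1).2.2]
    unfold HK at h1
    simpa using h1
  by_cases hzi : z.im = 0
  · have h1 : (fun y => (ψ y).re) = 0 := hn z.re _ ⟨hre, fun y => by rw [e1 y, hzi]; ring⟩
    have h2 : (fun y => (ψ y).im) = 0 := hn z.re _ ⟨him, fun y => by rw [e2 y, hzi]; ring⟩
    funext y
    exact Complex.ext (congrFun h1 y) (congrFun h2 y)
  · funext y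
    have h1 := Pool.Agent.Q237.LR.no_nonreal h s hc V z.re z.im hzi _ _ hre him e1 e2 y
    exact Complex.ext h1.1 h1.2

/-- theorem 1: Gaussian potential -/
theorem main1 (hS : S_SCL) (d : ℕ) (T0 : (Fin d → ℤ) → (Fin d → ℤ) → ℝ)
    (κ : (Fin d → ℤ) → ℝ) (ρ0 b θ B σ : ℝ) (h : Adm T0 κ ρ0 b) (hθ : 0 < θ) (hθ2 : θ ≤ 2)
    (hsum : Summable fun z => κ z ^ 2 * ‖z‖ ^ θ) (hB : Pool.Agent.Q237.LR.Many κ B)
    (hσ : σ ≠ 0) :
    ∀ᵐ p ∂((Measure.infinitePi fun _ : (Fin d → ℤ) => gaussianReal 0 1).prod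
      (Measure.infinitePi fun _ : Sym2 (Fin d → ℤ) => coin)),
      ∀ ψ : (Fin d → ℤ) → ℂ, Summable (fun y => ‖ψ y‖ ^ 2) → ∀ z : ℂ,
        (∀ x, HK T0 κ p.2 (fun y => σ * p.1 y) ψ x = z * ψ x) → ψ = 0 := by
  have hv : (⟨σ ^ 2, sq_nonneg σ⟩ : NNReal) ≠ 0 := by
    intro h3
    have h4 : σ ^ 2 = 0 := congrArg NNReal.toReal h3
    exact hσ (pow_eq_zero_iff (two_ne_zero) |>.1 h4)
  have key := Pool.Agent.Q237.LR.noeAll d T0 κ ρ0 b B θ
    ⟨σ ^ 2, sq_nonneg σ⟩ h hv hθ hθ2 hsum hB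
  have hcut : ∀ᵐ q ∂((Measure.infinitePi fun _ : (Fin d → ℤ) => gaussianReal 0 1).prod (Ps d)),
      CutOK T0 κ q.2 :=
    Measure.quasiMeasurePreserving_snd.ae
      (Pool.Agent.Q237.LR.cut d T0 κ ρ0 b θ h hθ hθ2 hsum)
  have hmp : MeasurePreserving (fun (ξ : (Fin d → ℤ) → ℝ) x => σ * ξ x)
      (Measure.infinitePi fun _ : (Fin d → ℤ) => gaussianReal 0 1) (PV d ⟨σ ^ 2, sq_nonneg σ⟩) := by
    refine ⟨?_, (hS d σ).symm⟩
    refine measurable_pi_lambda _ fun x => ?_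
    exact Measurable.const_mul (measurable_pi_apply (X := fun _ : (Fin d → ℤ) => ℝ) x) σ
  have hmp2 : MeasurePreserving
      (Prod.map (fun (ξ : (Fin d → ℤ) → ℝ) x => σ * ξ x) (id : (Sym2 (Fin d → ℤ) → Bool) → _))
      ((Measure.infinitePi fun _ : (Fin d → ℤ) => gaussianReal 0 1).prod (Ps d))
      ((PV d ⟨σ ^ 2, sq_nonneg σ⟩).prod (Ps d)) := hmp.prod (MeasurePreserving.id _)
  have key2 := hmp2.quasiMeasurePreserving.ae key
  filter_upwards [key2, hcut] with p hp hc ψ hψ z hz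
  exact reduce h p.2 (fun y => σ * p.1 y) hc hp z ψ hψ hz

/-- theorem 2: arbitrary bounded densities -/
theorem main2 (hN : Pool.Agent.Q237.LR2.S_NOE2) (d : ℕ) (T0 : (Fin d → ℤ) → (Fin d → ℤ) → ℝ)
    (κ : (Fin d → ℤ) → ℝ) (ρ0 b θ D : ℝ) (μ : Measure ℝ) [hμp : IsProbabilityMeasure μ]
    (hD : 0 ≤ D) (hμ : μ ≤ ENNReal.ofReal D • volume) (h : Adm T0 κ ρ0 b)
    (hinv : ∀ a y w, T0 (y + a) (w + a) = T0 y w) (hθ : 0 < θ) (hθ2 : θ ≤ 2)
    (hsum : Summable fun z => κ z ^ 2 * ‖z‖ ^ θ) (hB : Pool.Agent.Q237.LR2.Boxes κ) :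
    ∀ᵐ p ∂((Measure.infinitePi fun _ : (Fin d → ℤ) => μ).prod
      (Measure.infinitePi fun _ : Sym2 (Fin d → ℤ) => coin)),
      ∀ ψ : (Fin d → ℤ) → ℂ, Summable (fun y => ‖ψ y‖ ^ 2) → ∀ z : ℂ,
        (∀ x, HK T0 κ p.2 p.1 ψ x = z * ψ x) → ψ = 0 := by
  have key := hN d T0 κ ρ0 b D μ hμp hD hμ h hinv hB
  have hcut : ∀ᵐ q ∂((PVg d μ).prod (Ps d)), CutOK T0 κ q.2 :=
    Measure.quasiMeasurePreserving_snd.ae
      (Pool.Agent.Q237.LR.cut d T0 κ ρ0 b θ h hθ hθ2 hsum)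
  have key2 : ∀ᵐ p ∂((PVg d μ).prod (Ps d)), ∀ ψ : (Fin d → ℤ) → ℂ,
      Summable (fun y => ‖ψ y‖ ^ 2) → ∀ z : ℂ,
        (∀ x, HK T0 κ p.2 p.1 ψ x = z * ψ x) → ψ = 0 := by
    filter_upwards [key, hcut] with p hp hc ψ hψ z hz
    exact reduce h p.2 p.1 hc hp z ψ hψ hz
  exact key2

end Pool.Agent.Q237.LR4
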