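import Pool.Agent.Q237.LR.Prof
import Pool.Agent.Q237.LR.Loc
import Pool.Agent.Q182.LR.LP1
import Pool.Agent.Q176.LR.LP2

/-!
# Project LR: theorem 1 for general profiles, with the local version
-/

set_option autoImplicit false

namespace Pool.Agent.Q237.LR4

open MeasureTheory ProbabilityTheory Set H10PL Pool.Agent.Q237.LR3

variable {d : ℕ}

theorem lp1' : S_LP1 := Pool.Agent.Q182.LR.lp1 adjP

/-- the nearest neighbour form of the operator -/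
theorem HK_nn (κ : (Fin d → ℤ) → ℝ) (s : Sym2 (Fin d → ℤ) → Bool) (V : (Fin d → ℤ) → ℝ)
    (ψ : (Fin d → ℤ) → ℂ) (x : Fin d → ℤ) :
    HK (nn d) κ s V ψ x = ∑ i, (ψ (x + Pi.single i 1) + ψ (x - Pi.single i 1)) +
      ∑' y, ((sg (s s(x, y)) * κ (x - y) : ℝ) : ℂ) * ψ y + (V x : ℂ) * ψ x := by
  unfold HK
  rw [(nn_sum ψ x).2]

/-- the negative nearest neighbour form -/
theorem HK_neg (κ : (Fin d → ℤ) → ℝ) (s : Sym2 (Fin d → ℤ) → Bool) (V : (Fin d → ℤ) → ℝ)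
    (ψ : (Fin d → ℤ) → ℂ) (x : Fin d → ℤ) :
    HK (fun y w => - nn d y w) κ s V ψ x =
      - ∑ i, (ψ (x + Pi.single i 1) + ψ (x - Pi.single i 1)) +
      ∑' y, ((sg (s s(x, y)) * κ (x - y) : ℝ) : ℂ) * ψ y + (V x : ℂ) * ψ x := by
  unfold HK
  have e : ∀ y, ((- nn d x y : ℝ) : ℂ) * ψ y = - ((nn d x y : ℂ) * ψ y) := fun y => by
    push_cast; ring
  simp_rw [e]
  rw [tsum_neg, (nn_sum ψ x).2]

end Pool.Agent.Q237.LR4
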