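import Pool.Agent.H10R2.PL.AsmD
import Pool.Agent.H10R2.PL.SWA
import Pool.Agent.H10R2.PL.Weg
import Pool.Agent.H10R2.PL.Sec
import Pool.Agent.H10R2.PL.Defs2

/-!
# Project LR, second theorem: arbitrary bounded single-site densities

Statements of the lemmas (Props), with proofs in the docstrings. A point `p : Pt d` is
`(E, V, s)`: energy, potential, signs. `μ` is the single-site law, `μ ≤ D • volume`.
Library: `Pool/Agent/H10R2/PL/` (namespace `H10PL`); in particular `Weg` (`wegner`, `wegner_weight`,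
`bad1`, `bad2`), `Schur` (`schur_diag`, `sum_diff_le`, `Gm_cut_update`, `Sg_update`, `Sg_im`), `Res`
(`Pm_diag_pos`, `Pm_diag_le`, `ward`, `measurable_Pm`), `Sign` (`sign_count`), `FV` (`fv_cut_Aeps`,
`fv_Aeps_row`, `measurable_Sg`), `AsmC` (`Am_flip`, `fv_lattice`), `AsmD` (`long_lattice`), `Long`
(`long_exp`), `Prob` (`flip_mp`, `restrict_mp`), `Trial` (`trial_lattice`).
-/

set_option autoImplicit false

namespace Pool.Agent.Q237.LR2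

open MeasureTheory ProbabilityTheory Set H10PL

/-- energy, potential, signs -/
abbrev Pt (d : ℕ) : Type := ℝ × ((Fin d → ℤ) → ℝ) × (Sym2 (Fin d → ℤ) → Bool)

/-- energies in `[-K, K]` with Lebesgue measure, random potential and random signs -/
noncomputable def mE (d : ℕ) (μ : Measure ℝ) (K : ℝ) : Measure (Pt d) :=
  (volume.restrict (Icc (-K) K)).prod ((PVg d μ).prod (Ps d))

section

variable {d : ℕ} (T0 : (Fin d → ℤ) → (Fin d → ℤ) → ℝ) (κ : (Fin d → ℤ) → ℝ) (ρ η : ℝ)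
  (Λ : Finset (Fin d → ℤ))

/-- `Im G(x,x;E+iη)` in the box `Λ` with hopping of range `ρ` -/
noncomputable def PL (x : Fin d → ℤ) (p : Pt d) : ℝ :=
  if hx : x ∈ Λ then Pm (Am T0 κ ρ Λ p.2.2) (fun i : Λ => p.2.1 i) p.1 η ⟨x, hx⟩ ⟨x, hx⟩ else 0

/-- the imaginary part of the self energy of `x` -/
noncomputable def SL (x : Fin d → ℤ) (p : Pt d) : ℝ :=
  if hx : x ∈ Λ then (Sg (Am T0 κ ρ Λ p.2.2) (fun i : Λ => p.2.1 i) p.1 η ⟨x, hx⟩).im else 0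

/-- `Im G(y,y;E+iη)` with `x` decoupled -/
noncomputable def CL (x y : Fin d → ℤ) (p : Pt d) : ℝ :=
  if hx : x ∈ Λ then if hy : y ∈ Λ then
    Pm (cut (Am T0 κ ρ Λ p.2.2) ⟨x, hx⟩) (fun i : Λ => p.2.1 i) p.1 η ⟨y, hy⟩ ⟨y, hy⟩ else 0 else 0

/-- `Re G(y,x;E+iη)` with a cut-off -/
noncomputable def fa (r : ℝ) (x : Fin d → ℤ) (p : Pt d) (y : Fin d → ℤ) : ℝ :=
  if hx : x ∈ Λ then if hy : y ∈ Λ then max 0 (1 - ‖y - x‖ / r) *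
    (Gm (Am T0 κ ρ Λ p.2.2) (fun i : Λ => p.2.1 i) p.1 η ⟨y, hy⟩ ⟨x, hx⟩).re else 0 else 0

/-- the square of the norm of the long range part of the hopping applied to `fa` -/
noncomputable def Rs (r : ℝ) (x : Fin d → ℤ) (p : Pt d) : ℝ :=
  ∑' y, (∑ w ∈ Λ, (Kf T0 κ p.2.2 y w - Kr T0 κ ρ p.2.2 y w) * fa T0 κ ρ η Λ r x p w) ^ 2

end

/-- potentials and signs with an eigenvector of energy in `[-K, K]` which is at least `c` at `x` -/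
def Zs {d : ℕ} (T0 : (Fin d → ℤ) → (Fin d → ℤ) → ℝ) (κ : (Fin d → ℤ) → ℝ) (K c : ℝ)
    (x : Fin d → ℤ) : Set (((Fin d → ℤ) → ℝ) × (Sym2 (Fin d → ℤ) → Bool)) :=
  {q | ∃ (E : ℝ) (ψ : (Fin d → ℤ) → ℝ), |E| ≤ K ∧ IsEig T0 κ q.2 q.1 E ψ ∧ ∑' y, ψ y ^ 2 ≤ 1 ∧
    c ≤ |ψ x|}

/-- MSR: measurability. Proof: `measurable_Pm`, `measurable_Gm` (the matrix may depend measurably on the
parameter), as in `Pm_meas`, `uf_meas`, `Lg_meas`; `Sg` is a finite sum of entries of `Gm (cut A x)` times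
entries of `A`. -/
def S_MSR : Prop :=
  ∀ (d : ℕ) (T0 : (Fin d → ℤ) → (Fin d → ℤ) → ℝ) (κ : (Fin d → ℤ) → ℝ) (ρ η : ℝ)
    (Λ : Finset (Fin d → ℤ)) (x y : Fin d → ℤ),
    Measurable (PL T0 κ ρ η Λ x) ∧ Measurable (SL T0 κ ρ η Λ x) ∧ Measurable (CL T0 κ ρ η Λ x y)

/-- BA: first bad event. Proof: pointwise the sum over `x ∈ Q` of `PL x` on the event is less than `q`
(the `PL` are nonnegative: `Pm_diag_pos`, `Am_symm`), and the total mass of `mE` is `2 K`. (Compare `bad1`.)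
Uses MSR for the measurability. -/
def S_BA : Prop :=
  ∀ (d : ℕ) (T0 : (Fin d → ℤ) → (Fin d → ℤ) → ℝ) (κ : (Fin d → ℤ) → ℝ) (ρ0 b ρ η : ℝ)
    (Λ Q : Finset (Fin d → ℤ)) (μ : Measure ℝ) (K q : ℝ), IsProbabilityMeasure μ →
    Adm T0 κ ρ0 b → 0 < η → 0 < K → 0 < q → Q ⊆ Λ →
    ∑ x ∈ Q, ∫⁻ p in {p | ∑ y ∈ Q, PL T0 κ ρ η Λ y p < q}, ENNReal.ofReal (PL T0 κ ρ η Λ x p)
      ∂(mE d μ K) ≤ ENNReal.ofReal (2 * K * q)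

/-- BB: second bad event. Proof: for fixed signs this is `bad2` for the matrix `Am T0 κ ρ Λ s` on `ι = Λ`
(`Am_symm`, `Am_diag`), with the law of `(V i)_{i ∈ Λ}` under `PVg d μ` (the product of the `μ`, as in
`restrict_mp`); integrate over the signs (Tonelli; MSR). `N ⊆ Λ`. -/
def S_BB : Prop :=
  ∀ (d : ℕ) (T0 : (Fin d → ℤ) → (Fin d → ℤ) → ℝ) (κ : (Fin d → ℤ) → ℝ) (ρ0 b ρ η : ℝ)
    (Λ N : Finset (Fin d → ℤ)) (μ : Measure ℝ) (D K q : ℝ) (x : Fin d → ℤ),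
    IsProbabilityMeasure μ → 0 ≤ D → μ ≤ ENNReal.ofReal D • volume → Adm T0 κ ρ0 b → 0 < η →
    0 < K → 0 < q → N ⊆ Λ → x ∈ Λ → x ∉ N →
    ∫⁻ p in {p | q ≤ ∑ y ∈ N, CL T0 κ ρ η Λ x y p}, ENNReal.ofReal (PL T0 κ ρ η Λ x p)
      ∂(mE d μ K) ≤ ENNReal.ofReal (2 * K * (Real.pi * D) ^ 2 * N.card / q)

/-- MAT: the effect of random signs, finite matrices.
Proof: `cut (Aeps Ab x c ε) x = cut Ab x` (`fv_cut_Aeps`), so the event does not depend on `V x`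
(`Gm_cut_update` for the entries `y ∈ F`, `y ≠ x`; `Sg_update`). By `wegner_weight` (for each `ε` and `E`) the
integral is at most `π D` times the measure of the event. For fixed `E`, `V` on the event
`q ≤ ∑_{y ∈ F} Pm (cut Ab x) y y`, `sign_count` with `P = Pm (cut Ab x)` (`Pm_sq_quad` gives its hypothesis),
`φ = Ab x`, `m = β² q` and the bound `B β` says that at most `2^n 16 (B β)² / (η β² q)` signs `ε` have
`(Sg …).im < β² q / 2` (`Sg_im`, `fv_Aeps_row`); and `2 M η < β² q`. -/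
def S_MAT : Prop :=
  ∀ (ι : Type) [Fintype ι] [DecidableEq ι] (Ab : Matrix ι ι ℝ) (x : ι) (c : ι → ℝ) (F : Finset ι)
    (μ : Measure ℝ) (D K β B M η q : ℝ), IsProbabilityMeasure μ → 0 ≤ D →
    μ ≤ ENNReal.ofReal D • volume → Ab.IsSymm → (∀ i, Ab i i = 0) → x ∉ F → (∀ i, i ∉ F → c i = 0) →
    0 < β → (∀ i ∈ F, β ≤ |c i| ∧ |c i| ≤ B * β) → 0 < K → 0 < η → 0 < q → 2 * (M * η) < β ^ 2 * q →
    ∑ ε : ι → Bool, ∫⁻ p in {p : ℝ × (ι → ℝ) | q ≤ ∑ y ∈ F, Pm (cut Ab x) p.2 p.1 η y y ∧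
        (Sg (Aeps Ab x c ε) p.2 p.1 η x).im ≤ M * η},
      ENNReal.ofReal (Pm (Aeps Ab x c ε) p.2 p.1 η x x)
      ∂((volume.restrict (Icc (-K) K)).prod (Measure.pi fun _ : ι => μ)) ≤
    2 ^ Fintype.card ι * ENNReal.ofReal (2 * K * Real.pi * D * (16 * B ^ 2 / (η * q)))

/-- BC: third bad event (uses MAT, MSR). Proof: the flips of the signs of the edges `{x, y}`, `y ∈ F`,
preserve `Ps d` (`flip_mp`), and `Am_flip` (with `S = {x - y | y ∈ F}`) writes the matrix as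
`Aeps (AbF …) x (cF …) ε`; average over the flips; exactly as in the proof of `fv_lattice` in `AsmC`. -/
def S_BC : Prop :=
  ∀ (d : ℕ) (T0 : (Fin d → ℤ) → (Fin d → ℤ) → ℝ) (κ : (Fin d → ℤ) → ℝ) (ρ0 b ρ η : ℝ)
    (Λ F : Finset (Fin d → ℤ)) (μ : Measure ℝ) (D K β B M q : ℝ) (x : Fin d → ℤ),
    IsProbabilityMeasure μ → 0 ≤ D → μ ≤ ENNReal.ofReal D • volume → Adm T0 κ ρ0 b → 0 < η →
    0 < K → 0 < q → F ⊆ Λ → x ∈ Λ → x ∉ F → 0 < β →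
    (∀ y ∈ F, β ≤ |κ (x - y)| ∧ |κ (x - y)| ≤ B * β ∧ ‖x - y‖ ≤ ρ) → 2 * (M * η) < β ^ 2 * q →
    ∫⁻ p in {p | q ≤ ∑ y ∈ F, CL T0 κ ρ η Λ x y p ∧ SL T0 κ ρ η Λ x p ≤ M * η},
      ENNReal.ofReal (PL T0 κ ρ η Λ x p) ∂(mE d μ K) ≤
      ENNReal.ofReal (2 * K * Real.pi * D * (16 * B ^ 2 / (η * q)))

/-- AVG: the three events together (uses MSR, BA, BB, BC).
Proof: let `x ∈ Q` and `SL x ≤ M η`. If `∑_{y ∈ Q} PL y ≥ q` then, by `sum_diff_le` (the sum over `y ≠ x` of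
`|PL y - CL x y|` is at most `1/η`) and `PL x ≤ 1/η` (`Pm_diag_le`),
`∑_{y ∈ Q.erase x} CL x y ≥ q - 2/η ≥ q/2`; so the sum over `N x` or over `F x` is at least `q/4`. Apply BB
and BC with `q/4`. -/
def S_AVG : Prop :=
  ∀ (d : ℕ) (T0 : (Fin d → ℤ) → (Fin d → ℤ) → ℝ) (κ : (Fin d → ℤ) → ℝ) (ρ0 b ρ η : ℝ)
    (Λ Q : Finset (Fin d → ℤ)) (μ : Measure ℝ) (D K β B M q n0 : ℝ)
    (N F : (Fin d → ℤ) → Finset (Fin d → ℤ)),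
    IsProbabilityMeasure μ → 0 ≤ D → μ ≤ ENNReal.ofReal D • volume → Adm T0 κ ρ0 b → 0 < η →
    0 < K → 0 < q → Q ⊆ Λ → 0 < β → 4 / η ≤ q → 8 * (M * η) < β ^ 2 * q →
    (∀ x ∈ Q, N x ⊆ Q ∧ F x ⊆ Q ∧ x ∉ N x ∧ x ∉ F x ∧ Q.erase x ⊆ N x ∪ F x ∧
      ((N x).card : ℝ) ≤ n0 ∧
      ∀ y ∈ F x, β ≤ |κ (x - y)| ∧ |κ (x - y)| ≤ B * β ∧ ‖x - y‖ ≤ ρ) →
    ∑ x ∈ Q, ∫⁻ p in {p | SL T0 κ ρ η Λ x p ≤ M * η}, ENNReal.ofReal (PL T0 κ ρ η Λ x p)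
      ∂(mE d μ K) ≤
      ENNReal.ofReal (2 * K * q + Q.card * (2 * K * (Real.pi * D) ^ 2 * n0 / (q / 4)) +
        Q.card * (2 * K * Real.pi * D * (16 * B ^ 2 / (η * (q / 4)))))

/-- TRI: error of the cut-off trial function. This is the proof of `trial_lattice` (file `Trial`), where
the term with `χ(y)` times the residual of `u` is subtracted instead of bounded. -/
def S_TRI : Prop :=
  ∀ (d : ℕ) (T0 : (Fin d → ℤ) → (Fin d → ℤ) → ℝ) (κ : (Fin d → ℤ) → ℝ) (ρ0 b : ℝ)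
    (s : Sym2 (Fin d → ℤ) → Bool) (V : (Fin d → ℤ) → ℝ) (E : ℝ) (x : Fin d → ℤ) (ρ r T : ℝ)
    (Λ : Finset (Fin d → ℤ)) (u : (Fin d → ℤ) → ℝ) (f : (Fin d → ℤ) →₀ ℝ), Adm T0 κ ρ0 b →
    ρ0 ≤ ρ → 0 ≤ ρ → 0 < r → (∀ y, ‖y - x‖ ≤ r + ρ → y ∈ Λ) →
    (∀ y, f y = if y ∈ Λ then max 0 (1 - ‖y - x‖ / r) * u y else 0) →
    0 ≤ T → (∀ y, ∑ w ∈ Λ, |Kr T0 κ ρ s y w| ≤ T) →
    Summable (fun y => (appl T0 κ s V E f y - (if y ∈ Λ then max 0 (1 - ‖y - x‖ / r) *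
      ((∑ w ∈ Λ, Kr T0 κ ρ s y w * u w) + (V y - E) * u y) else 0)) ^ 2) ∧
    Real.sqrt (∑' y, (appl T0 κ s V E f y - (if y ∈ Λ then max 0 (1 - ‖y - x‖ / r) *
      ((∑ w ∈ Λ, Kr T0 κ ρ s y w * u w) + (V y - E) * u y) else 0)) ^ 2) ≤
      (ρ / r) * T * Real.sqrt (∑ y ∈ Λ, u y ^ 2) +
      Real.sqrt (∑' y, (∑ w ∈ Λ, (Kf T0 κ s y w - Kr T0 κ ρ s y w) * f w) ^ 2)

/-- EIG: an eigenvector makes `Im G` large and the self energy small (uses TRI).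
Proof: let `G y = Gm … y x = a y + i b y`, so `(A + V - E) a + η b = δ_x` on `Λ` (real part of
`Mz * Gm = 1`, `Mz_mul_Gm`), `∑ a², ∑ b² ≤ ∑ |G y|² = PL x / η =: g` (`ward`), `g ≤ 1/η²` (`Pm_diag_le`). With
`f y = χ y a y` (`= fa`) and `f' y = χ y b y`, TRI for `u = a` gives
`‖appl f + η f' - δ_x‖ ≤ (ρ/r) T (1/η) + √(Rs) ≤ c/2` (`χ x = 1`). Pair with `ψ`:
`∑' y, appl f y * ψ y = (E0 - E) ∑ f y ψ y` (interchange of sums as in `kill` of `SWA`). So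
`|ψ x| ≤ |E0 - E| ‖f‖ + η ‖f'‖ + c/2 ≤ 2 η √g + c/2`, i.e. `c/2 ≤ 2 √(η PL x)`, `PL x ≥ c²/(16 η)`.
By `schur_diag` `G x x = 1/(V x - E - iη - Sg)`, `|G x x| ≥ PL x`, so `η + SL x ≤ 16 η / c²`. -/
def S_EIG : Prop :=
  ∀ (d : ℕ) (T0 : (Fin d → ℤ) → (Fin d → ℤ) → ℝ) (κ : (Fin d → ℤ) → ℝ) (ρ0 b : ℝ)
    (s : Sym2 (Fin d → ℤ) → Bool) (V : (Fin d → ℤ) → ℝ) (E E0 c : ℝ) (x : Fin d → ℤ)
    (ρ r T η : ℝ) (Λ : Finset (Fin d → ℤ)) (ψ : (Fin d → ℤ) → ℝ), Adm T0 κ ρ0 b →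
    ρ0 ≤ ρ → 0 ≤ ρ → 0 < r → 0 < η → (∀ y, ‖y - x‖ ≤ r + ρ → y ∈ Λ) →
    0 ≤ T → (∀ y, ∑ w ∈ Λ, |Kr T0 κ ρ s y w| ≤ T) →
    IsEig T0 κ s V E0 ψ → ∑' y, ψ y ^ 2 ≤ 1 → 0 < c → c ≤ |ψ x| → |E - E0| ≤ η →
    (ρ / r) * T * (1 / η) ≤ c / 4 → Rs T0 κ ρ η Λ r x (E, V, s) ≤ (c / 4) ^ 2 →
    c ^ 2 / (16 * η) ≤ PL T0 κ ρ η Λ x (E, V, s) ∧
      SL T0 κ ρ η Λ x (E, V, s) ≤ (16 / c ^ 2) * η

/-- LNG: the long range part is small with large probability. Proof: `long_lattice` (file `AsmD`) with `fa`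
instead of `ff` and `PVg d μ` instead of `PV d v`; `∑ fa² ≤ ∑ |G y|² ≤ 1/η²`; `fa` does not depend on the
signs of long edges (`Am_update`); `long_exp`. -/
def S_LNG : Prop :=
  ∀ (d : ℕ) (T0 : (Fin d → ℤ) → (Fin d → ℤ) → ℝ) (κ : (Fin d → ℤ) → ℝ) (ρ0 b ρ r η : ℝ)
    (Λ : Finset (Fin d → ℤ)) (μ : Measure ℝ) (K c : ℝ) (x : Fin d → ℤ), IsProbabilityMeasure μ →
    Adm T0 κ ρ0 b → ρ0 ≤ ρ → 0 < r → 0 < η → 0 < K → 0 < c → x ∈ Λ →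
    (mE d μ K) {p | ¬ Rs T0 κ ρ η Λ r x p ≤ c} ≤
      ENNReal.ofReal (2 * K * ((∑' y : Fin d → ℤ, if ρ < ‖y‖ then κ y ^ 2 else 0) *
        (1 / η ^ 2) / c))

/-- MRK: Markov's inequality (uses EIG, MSR). Proof: let `q = (V, s) ∈ Zs` with `E0`, `ψ`, and
`I = [E0 - η, E0 + η] ⊆ [-(K+1), K+1]`, of length `2 η`. For the `E ∈ I` with `Rs ≤ (c/4)²` EIG gives
`PL ≥ c²/(16 η)` and `SL ≤ (16/c²) η`. So with `g q = ∫⁻_E PL 1{SL ≤ (16/c²) η}` and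
`h q = volume {E ∈ [-(K+1), K+1] | ¬ Rs ≤ (c/4)²}` (both over `[-(K+1), K+1]`):
`(16 η/c²) g q + h q ≥ 2 η`. Integrate (Tonelli; `Rs` is measurable, compare `Lg_meas`, or replace the bad
set by a measurable superset with `toMeasurable`). -/
def S_MRK : Prop :=
  ∀ (d : ℕ) (T0 : (Fin d → ℤ) → (Fin d → ℤ) → ℝ) (κ : (Fin d → ℤ) → ℝ) (ρ0 b : ℝ)
    (c K : ℝ) (x : Fin d → ℤ) (ρ r η : ℝ) (Λ : Finset (Fin d → ℤ)) (μ : Measure ℝ) (T : ℝ),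
    IsProbabilityMeasure μ → Adm T0 κ ρ0 b → ρ0 ≤ ρ → 0 ≤ ρ → 0 < r → 0 < η → η ≤ 1 →
    (∀ y, ‖y - x‖ ≤ r + ρ → y ∈ Λ) → 0 ≤ T → (∀ s y, ∑ w ∈ Λ, |Kr T0 κ ρ s y w| ≤ T) →
    0 < c → 0 < K → (ρ / r) * T * (1 / η) ≤ c / 4 →
    ((PVg d μ).prod (Ps d)) (Zs T0 κ K c x) ≤
      ENNReal.ofReal (8 / c ^ 2) * (∫⁻ p in {p | SL T0 κ ρ η Λ x p ≤ (16 / c ^ 2) * η},
        ENNReal.ofReal (PL T0 κ ρ η Λ x p) ∂(mE d μ (K + 1))) +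
      ENNReal.ofReal (1 / (2 * η)) * (mE d μ (K + 1)) {p | ¬ Rs T0 κ ρ η Λ r x p ≤ (c / 4) ^ 2}

/-- STA: stationarity. Proof: the shift by `a` of potentials and signs (`shV`, `shS`) is a measurable
equivalence which preserves `(PVg d μ).prod (Ps d)` (reindexing of infinite products:
`measurePreserving`/`infinitePi` under an equivalence of the index set), and maps `Zs x` to `Zs (x - a)` (shift
`ψ`); outer measures are invariant under measure preserving equivalences. -/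
def S_STA : Prop :=
  ∀ (d : ℕ) (T0 : (Fin d → ℤ) → (Fin d → ℤ) → ℝ) (κ : (Fin d → ℤ) → ℝ) (μ : Measure ℝ) (K c : ℝ)
    (x : Fin d → ℤ), IsProbabilityMeasure μ → (∀ a y w, T0 (y + a) (w + a) = T0 y w) →
    ((PVg d μ).prod (Ps d)) (Zs T0 κ K c x) = ((PVg d μ).prod (Ps d)) (Zs T0 κ K c 0)

/-- many pairs with comparable hopping amplitudes in boxes -/
def Boxes {d : ℕ} (κ : (Fin d → ℤ) → ℝ) : Prop :=
  ∀ δ : ℝ, 0 < δ → ∃ B : ℝ, ∀ M : ℝ, ∃ (Q : Finset (Fin d → ℤ)) (β : ℝ)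
    (N F : (Fin d → ℤ) → Finset (Fin d → ℤ)), 0 < β ∧ Q.Nonempty ∧ M ≤ Q.card ∧ M ≤ β * Q.card ∧
    ∀ x ∈ Q, N x ⊆ Q ∧ F x ⊆ Q ∧ x ∉ N x ∧ x ∉ F x ∧ Q.erase x ⊆ N x ∪ F x ∧
      ((N x).card : ℝ) ≤ δ * Q.card ∧ ∀ y ∈ F x, β ≤ |κ (x - y)| ∧ |κ (x - y)| ≤ B * β

/-- POW3: boxes for the power law. Proof: `Q` = the cube `[0, L)^d`, `β = |e| L^(-α)`, `F x` the `y ∈ Q` with
`‖x - y‖ ≥ t L` and `y ≠ x`, `N x` the other `y ≠ x` of `Q`, `t = min 1 (δ/…)` so small that for large `L` there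
are at most `(2 t L + 1)^d ≤ δ L^d` points in `N x`; `B = t^(-α)`; `β |Q| = |e| L^(d-α) → ∞`. -/
def S_POW3 : Prop :=
  ∀ (d : ℕ) (α e : ℝ), 1 ≤ d → 0 < α → α < d → e ≠ 0 →
    Boxes fun z : Fin d → ℤ => if z = 0 then 0 else e * ‖z‖ ^ (-α)

/-- NOE2: no eigenvalues, arbitrary bounded single-site density (helper237). -/
def S_NOE2 : Prop :=
  ∀ (d : ℕ) (T0 : (Fin d → ℤ) → (Fin d → ℤ) → ℝ) (κ : (Fin d → ℤ) → ℝ) (ρ0 b D : ℝ)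
    (μ : Measure ℝ), IsProbabilityMeasure μ → 0 ≤ D → μ ≤ ENNReal.ofReal D • volume →
    Adm T0 κ ρ0 b → (∀ a y w, T0 (y + a) (w + a) = T0 y w) → Boxes κ →
    ∀ᵐ q ∂((PVg d μ).prod (Ps d)), ∀ (E : ℝ) (ψ : (Fin d → ℤ) → ℝ),
      IsEig T0 κ q.2 q.1 E ψ → ψ = 0

end Pool.Agent.Q237.LR2
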