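import Pool.Agent.Q237.LR.Bx
import Pool.Agent.Q237.LR.Loc
import Pool.Agent.Q237.LR.Asm2
import Pool.Agent.Q71.LR.AVG
import Pool.Agent.H10R2.PL.Schur

/-!
# Project LR, third theorem: local dimension of the spectral measures

For power law hopping `κ z = e ‖z‖^(-α)`, `d/2 < α < d`, the spectral measures have at almost every point
local dimension at least `2 - 2 α / d`. Statements of the lemmas with proofs in the docstrings.
-/

set_option autoImplicit false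

namespace Pool.Agent.Q237.LR5

open MeasureTheory ProbabilityTheory Set Filter Topology H10PL Pool.Agent.Q237.LR2
  Pool.Agent.Q237.LR3 Pool.Agent.Q237.LR4

/-- the spectral parameter `E + iη` (as in `Mz`) -/
noncomputable def zE (E η : ℝ) : ℂ := (E : ℂ) + (η : ℂ) * Complex.I

/-- the box of radius `n` -/
noncomputable def bx (d n : ℕ) : Finset (Fin d → ℤ) := (ball_finite (0 : Fin d → ℤ) n).toFinset

section

variable {d : ℕ} (T0 : (Fin d → ℤ) → (Fin d → ℤ) → ℝ) (κ : (Fin d → ℤ) → ℝ)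

/-- `u` is square summable and `(H - z) u = δ_x` -/
def Sol (s : Sym2 (Fin d → ℤ) → Bool) (V : (Fin d → ℤ) → ℝ) (z : ℂ) (x : Fin d → ℤ)
    (u : (Fin d → ℤ) → ℂ) : Prop :=
  Summable (fun y => ‖u y‖ ^ 2) ∧ ∀ y, HK T0 κ s V u y = z * u y + if y = x then 1 else 0

/-- `G(x,x;E+iη)` in the box of radius `n`, with hopping of range `n` -/
noncomputable def Gn (n : ℕ) (x : Fin d → ℤ) (E η : ℝ) (V : (Fin d → ℤ) → ℝ)
    (s : Sym2 (Fin d → ℤ) → Bool) : ℂ :=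
  if hx : x ∈ bx d n then Gm (Am T0 κ n (bx d n) s) (fun i : bx d n => V i) E η ⟨x, hx⟩ ⟨x, hx⟩
  else 0

/-- `Im G(x,x;E+iη)` in infinite volume -/
noncomputable def gs (η : ℝ) (x : Fin d → ℤ) (p : Pt d) : ENNReal :=
  liminf (fun n : ℕ => ENNReal.ofReal (PL T0 κ n η (bx d n) x p)) atTop

/-- `m` is the spectral measure of `δ_x` -/
def Spec (s : Sym2 (Fin d → ℤ) → Bool) (V : (Fin d → ℤ) → ℝ) (x : Fin d → ℤ) (m : Measure ℝ) :
    Prop :=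
  ∀ z : ℂ, 0 < z.im → ∃ u, Sol T0 κ s V z x u ∧ u x = ∫ E : ℝ, 1 / ((E : ℂ) - z) ∂m

end

/-- UNQ: uniqueness. Proof: the difference `w` of two solutions is square summable and `HK … w = z w`
(`HK_eq` of `Loc`, linearity of `tsum`); then `w = 0` as in `reduce` of `Red2` (case `z.im ≠ 0`, which uses
only `CutOK`, by `no_nonreal` of `ESA`). -/
def S_UNQ : Prop :=
  ∀ (d : ℕ) (T0 : (Fin d → ℤ) → (Fin d → ℤ) → ℝ) (κ : (Fin d → ℤ) → ℝ) (ρ0 b : ℝ),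
    Adm T0 κ ρ0 b → ∀ s : Sym2 (Fin d → ℤ) → Bool, CutOK T0 κ s →
    ∀ (V : (Fin d → ℤ) → ℝ) (z : ℂ) (x : Fin d → ℤ) (u u' : (Fin d → ℤ) → ℂ), z.im ≠ 0 →
    Sol T0 κ s V z x u → Sol T0 κ s V z x u' → u = u'

/-- CNV: infinite volume limit (uses UNQ). Proof: let `u_n y = Gm … y x` in the box of radius `n`
(zero outside; `Am T0 κ n (bx d n) s`), `∑ ‖u_n y‖² = PL / η ≤ 1 / η²` (`ward`, `Pm_diag_le`). For `n` large
`∑ w ∈ box, Kr T0 κ n s y w * u_n w + V y * u_n y = z u_n y + δ_xy` (`Mz_mul_Gm`). The functions lie in a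
compact set of the product space (closed discs); every cluster point `u` has `∑ ‖u‖² ≤ 1/η²` and solves
the equation: the row `Kf T0 κ s y ·` is square summable, so the sums over `w ∉ F` (and the difference of
`Kr T0 κ n` and `Kf`) are small uniformly in `n` for large `F` (Cauchy-Schwarz; compare the proof of `loc`
in `Loc`, with the majorant `um`, `ctail`). By UNQ there is only one cluster point, so the sequence
converges. -/
def S_CNV : Prop :=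
  ∀ (d : ℕ) (T0 : (Fin d → ℤ) → (Fin d → ℤ) → ℝ) (κ : (Fin d → ℤ) → ℝ) (ρ0 b : ℝ),
    Adm T0 κ ρ0 b → ∀ s : Sym2 (Fin d → ℤ) → Bool, CutOK T0 κ s →
    ∀ (V : (Fin d → ℤ) → ℝ) (x : Fin d → ℤ) (E η : ℝ), 0 < η →
    ∃ u, Sol T0 κ s V (zE E η) x u ∧
      Tendsto (fun n : ℕ => Gn T0 κ n x E η V s) atTop (𝓝 (u x))

/-- SHG: shift covariance (uses UNQ, CNV). Proof: `PL … = Im Gn …`, so `gs x (E, V, s) = ofReal (Im (u x))`
for the solution `u` of CNV; `y ↦ u (y + x)` is a solution at `0` for the shifted potential and signs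
(compare `eig_shift` in `Pool/Agent/Q208/LR/STA.lean`), by UNQ it is the one of CNV. -/
def S_SHG : Prop :=
  ∀ (d : ℕ) (T0 : (Fin d → ℤ) → (Fin d → ℤ) → ℝ) (κ : (Fin d → ℤ) → ℝ) (ρ0 b : ℝ),
    Adm T0 κ ρ0 b → (∀ a y w, T0 (y + a) (w + a) = T0 y w) →
    ∀ (s : Sym2 (Fin d → ℤ) → Bool) (x : Fin d → ℤ), CutOK T0 κ s → CutOK T0 κ (shS x s) →
    ∀ (V : (Fin d → ℤ) → ℝ) (E η : ℝ), 0 < η →
    gs T0 κ η x (E, V, s) = gs T0 κ η 0 (E, shV x V, shS x s)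

/-- STG: stationarity (uses SHG, MSR). Proof: the shift preserves `(PVg d μ).prod (Ps d)` (as in
`Pool/Agent/Q208/LR/STA.lean`, `hmp` and `hΦ1` in the proof of `sta`), hence also `mE d μ K` (product with
the identity on the energies); `gs` is measurable (MSR, `Measurable.liminf`); almost surely `s` and the
shifted signs satisfy `CutOK`. -/
def S_STG : Prop :=
  ∀ (d : ℕ) (T0 : (Fin d → ℤ) → (Fin d → ℤ) → ℝ) (κ : (Fin d → ℤ) → ℝ) (ρ0 b : ℝ)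
    (μ : Measure ℝ) (K η : ℝ) (x : Fin d → ℤ) (φ : ENNReal → ENNReal), IsProbabilityMeasure μ →
    Adm T0 κ ρ0 b → (∀ a y w, T0 (y + a) (w + a) = T0 y w) → (∀ᵐ s ∂(Ps d), CutOK T0 κ s) →
    0 < η → Measurable φ →
    ∫⁻ p, φ (gs T0 κ η x p) ∂(mE d μ K) = ∫⁻ p, φ (gs T0 κ η 0 p) ∂(mE d μ K)

/-- GBD: the averaged bound in infinite volume (uses MSR, AVG). Proof: AVG with `Λ = bx d n`, `ρ = n`, `n`
so large that `Q ⊆ Λ` and all distances in `Q` are at most `n`. If `h < PL x p` then `SL x p ≤ 1/h ≤ M η`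
(`schur_diag`: `(η + SL) PL² ≤ PL` as in the proof of EIG, `Pool/Agent/Q139/LR/EIG.lean`). So
`∑ x ∈ Q, ∫⁻ {p | h < PL}, PL ≤` the right-hand side for all large `n`; if `h < liminf` then `h < PL_n` for
all large `n`, so the function `gs 1{h < gs}` is at most the liminf of the functions `PL_n 1{h < PL_n}`; Fatou
(`lintegral_liminf_le`), and the sum over `Q` of the liminf's is at most the liminf of the sums. -/
def S_GBD : Prop :=
  ∀ (d : ℕ) (T0 : (Fin d → ℤ) → (Fin d → ℤ) → ℝ) (κ : (Fin d → ℤ) → ℝ) (ρ0 b η : ℝ)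
    (Q : Finset (Fin d → ℤ)) (μ : Measure ℝ) (D K β B M q n0 h : ℝ)
    (N F : (Fin d → ℤ) → Finset (Fin d → ℤ)),
    IsProbabilityMeasure μ → 0 ≤ D → μ ≤ ENNReal.ofReal D • volume → Adm T0 κ ρ0 b → 0 < η →
    0 < K → 0 < q → 0 < β → 4 / η ≤ q → 8 * (M * η) < β ^ 2 * q → 0 < h → 1 / h ≤ M * η →
    (∀ x ∈ Q, N x ⊆ Q ∧ F x ⊆ Q ∧ x ∉ N x ∧ x ∉ F x ∧ Q.erase x ⊆ N x ∪ F x ∧
      ((N x).card : ℝ) ≤ n0 ∧ ∀ y ∈ F x, β ≤ |κ (x - y)| ∧ |κ (x - y)| ≤ B * β) →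
    ∑ x ∈ Q, ∫⁻ p in {p | ENNReal.ofReal h < gs T0 κ η x p}, gs T0 κ η x p ∂(mE d μ K) ≤
      ENNReal.ofReal (2 * K * q + Q.card * (2 * K * (Real.pi * D) ^ 2 * n0 / (q / 4)) +
        Q.card * (2 * K * Real.pi * D * (16 * B ^ 2 / (η * (q / 4)))))

/-- PW4: parameters for the power law, polynomial in `η`. Proof: with a small `a > 0` let
`s = (1 + 2a + 4aα/d)/d`, `L = ⌈4 η^(-s)⌉`, `Q = [0, L)^d`, `t = η^(2a/d)`, `F x` the `y ∈ Q` with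
`‖x - y‖ ≥ t L`, `N x` the other `y ≠ x`, `β = |e| L^(-α)`, `B = t^(-α)`, `q = η^a L^d`,
`n0 = (3 t L)^d` (`≥ (2 t L + 1)^d` since `t L ≥ 1`). Then the three terms divided by `|Q| = L^d` are at most
constants times `η^a` (`t^d = η^(2a)`, `L^d ≥ η^(-1-2a-4aα/d)`), and
`β² q = e² η^a L^(d-2α) ≥ c η^(a + s (2α - d))`, which is larger than `40 η^(1-θ)` for small `η` if
`a + s (2α-d) < 1 - θ`, true for small `a` since `θ < 2 - 2α/d`. Compare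
`Pool/Agent/Q26/LR/POW3.lean`. -/
def S_PW4 : Prop :=
  ∀ (d : ℕ) (α e θ K D : ℝ), 1 ≤ d → (d : ℝ) / 2 < α → α < d → e ≠ 0 → 0 < θ →
    θ < 2 - 2 * α / d → 0 < K → 0 ≤ D →
    ∃ C ε η0 : ℝ, 0 < C ∧ 0 < ε ∧ 0 < η0 ∧ η0 ≤ 1 ∧ ∀ η : ℝ, 0 < η → η ≤ η0 →
    ∃ (Q : Finset (Fin d → ℤ)) (β B q n0 : ℝ) (N F : (Fin d → ℤ) → Finset (Fin d → ℤ)),
    Q.Nonempty ∧ 0 < β ∧ 0 < q ∧ 4 / η ≤ q ∧ 8 * (5 * η ^ (-θ) * η) < β ^ 2 * q ∧
    (∀ x ∈ Q, N x ⊆ Q ∧ F x ⊆ Q ∧ x ∉ N x ∧ x ∉ F x ∧ Q.erase x ⊆ N x ∪ F x ∧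
      ((N x).card : ℝ) ≤ n0 ∧ ∀ y ∈ F x, β ≤ |pw d α e (x - y)| ∧ |pw d α e (x - y)| ≤ B * β) ∧
    2 * K * q + Q.card * (2 * K * (Real.pi * D) ^ 2 * n0 / (q / 4)) +
        Q.card * (2 * K * Real.pi * D * (16 * B ^ 2 / (η * (q / 4)))) ≤ Q.card * (C * η ^ ε)

/-- SP1: mass of the points where the measure is large. Proof: let `g E = ∫ η/((t-E)²+η²) dm(t)` (this is
the imaginary part). If `m [E0-η, E0+η] > η^θ` and `|E - E0| ≤ η` then `g E ≥ m [E0-η,E0+η] / (5η) > η^(θ-1)/5`.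
By Tonelli `∫⁻_{E ∈ [-K,K], g E > η^(θ-1)/5} g E dE ≥ ∫_{t ∈ B} (∫_{|E-t| ≤ η} η/((t-E)²+η²) dE) dm(t)
= (π/2) m(B)` for the set `B` of the `E0 ∈ [-(K-1), K-1]` in question (measurable: `E0 ↦ m [E0-η,E0+η]` is a
measurable function, as a parameter integral). -/
def S_SP1 : Prop :=
  ∀ (m : Measure ℝ) (η θ K : ℝ), IsFiniteMeasure m → 0 < η → η ≤ 1 → 1 ≤ K →
    m {E0 | E0 ∈ Icc (-(K - 1)) (K - 1) ∧ ENNReal.ofReal (η ^ θ) < m (Icc (E0 - η) (E0 + η))} ≤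
    ∫⁻ E in Icc (-K) K ∩ {E | η ^ (θ - 1) / 5 < (∫ t : ℝ, 1 / ((t : ℂ) - zE E η) ∂m).im},
      ENNReal.ofReal (∫ t : ℝ, 1 / ((t : ℂ) - zE E η) ∂m).im

/-- SP2: Borel-Cantelli. Proof: `measure_limsup_atTop_eq_zero`: for `m`-almost every `E` in the interval there
is `k1` with `m [E-2^(-k), E+2^(-k)] ≤ 2^(-kθ)` for `k ≥ k1`; for `2^(-k-1) < η ≤ 2^(-k)` compare with `k`; for
`η > 2^(-k1)` use the total mass. -/
def S_SP2 : Prop :=
  ∀ (m : Measure ℝ) (θ K : ℝ) (k0 : ℕ), IsFiniteMeasure m → 0 < θ →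
    (∑' k : ℕ, m {E0 | E0 ∈ Icc (-(K - 1)) (K - 1) ∧
      ENNReal.ofReal (((1 / 2 : ℝ) ^ (k + k0)) ^ θ) <
        m (Icc (E0 - (1 / 2 : ℝ) ^ (k + k0)) (E0 + (1 / 2 : ℝ) ^ (k + k0)))}) ≠ ⊤ →
    ∀ᵐ E ∂m, E ∈ Icc (-(K - 1)) (K - 1) → ∃ C : ℝ, ∀ η : ℝ, 0 < η → η ≤ 1 →
      m (Ioo (E - η) (E + η)) ≤ ENNReal.ofReal (C * η ^ θ)

/-- EXI: existence of the spectral measure (uses UNQ, CNV). Proof: let `m_n` be the spectral measure of the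
symmetric matrix `A_n + V` (`A_n = Am T0 κ n (bx d n) s`) at `x`: the sum over the eigenvectors `φ_j`
(`Matrix.IsHermitian.spectral_theorem`) of `|φ_j x|²` times the Dirac measure at the eigenvalue, a
probability measure (for `x` in the box) with `∫ 1/(E-z) dm_n = Gn n x …`, and
`∫ E² dm_n = ∑_y (A_n + V)_{yx}² ≤ C` uniformly in `n` (`Kf_sq_summable`), so the sequence is tight.
Prokhorov (`isCompact_closure_of_isTightMeasureSet`, Mathlib.MeasureTheory.Measure.Prokhorov): a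
subsequence (or cluster point) converges weakly to a probability measure `m`; `E ↦ 1/(E-z)` is bounded and
continuous, so with CNV `∫ 1/(E-z) dm = lim Gn = u x`. Every `z` with `Im z > 0` is `zE E η`. -/
def S_EXI : Prop :=
  ∀ (d : ℕ) (T0 : (Fin d → ℤ) → (Fin d → ℤ) → ℝ) (κ : (Fin d → ℤ) → ℝ) (ρ0 b : ℝ),
    Adm T0 κ ρ0 b → ∀ s : Sym2 (Fin d → ℤ) → Bool, CutOK T0 κ s →
    ∀ (V : (Fin d → ℤ) → ℝ) (x : Fin d → ℤ), ∃ m : Measure ℝ, IsProbabilityMeasure m ∧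
      Spec T0 κ s V x m

/-- GAD: the Gaussian law has a bounded density (`gaussianPDFReal`, `gaussianReal_of_var_ne_zero`). -/
def S_GAD : Prop :=
  ∀ (v : NNReal), v ≠ 0 → ∃ D : ℝ, 0 ≤ D ∧ gaussianReal 0 v ≤ ENNReal.ofReal D • volume

/-- DIM: the theorem (helper237; uses all). -/
def S_DIM : Prop :=
  ∀ (d : ℕ) (T0 : (Fin d → ℤ) → (Fin d → ℤ) → ℝ) (ρ0 b α e D : ℝ) (μ : Measure ℝ),
    IsProbabilityMeasure μ → 0 ≤ D → μ ≤ ENNReal.ofReal D • volume →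
    Adm T0 (pw d α e) ρ0 b → (∀ a y w, T0 (y + a) (w + a) = T0 y w) →
    (∀ᵐ s ∂(Ps d), CutOK T0 (pw d α e) s) → 1 ≤ d → (d : ℝ) / 2 < α → α < d → e ≠ 0 →
    ∀ᵐ q ∂((PVg d μ).prod (Ps d)), ∀ (x : Fin d → ℤ) (m : Measure ℝ), IsFiniteMeasure m →
      Spec T0 (pw d α e) q.2 q.1 x m → ∀ θ : ℝ, θ < 2 - 2 * α / d →
      ∀ᵐ E ∂m, ∃ C : ℝ, ∀ η : ℝ, 0 < η → η ≤ 1 → m (Ioo (E - η) (E + η)) ≤ ENNReal.ofReal (C * η ^ θ)

end Pool.Agent.Q237.LR5
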